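import Pool.Agent.Helper65.HR2.Joint
import Pool.Agent.Helper53.HR2.EsQ
import Pool.Agent.Helper12.HR2.Cover
import Pool.Agent.Helper24.HR2.MeanOf

/-!
MP_16b0ee, project HR2: the bound of the means at one point from the kernel checks, in the form
used by the covering theorem.
-/

set_option autoImplicit false

open scoped ComplexConjugate

namespace Pool.Agent.Helper65.HR2

open Pool.Agent.Helper24.HR2
open Pool.Agent.Helper12.HR2
open Pool.Agent.Helper22.Half (SigmaLog)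

/-- the bound of the means at the point `s = (p + q i) / sr` with the exponent `b = bn / bd` -/
def PtOK (P : Par) : Prop :=
  ∃ C : ℝ, ∀ ψ h : ℂ → ℂ, SigmaLog ψ h → ∀ R : ℝ, 1 < R →
    mE (((P.p : ℂ) + P.q * Complex.I) / P.sr) R h
      ≤ C * (R ^ 2 / (R ^ 2 - 1)) ^ ((P.bn : ℝ) / P.bd)

/-- the bound at the conjugate point -/
theorem PtOK.conj {P : Par} (h : PtOK P) : PtOK ⟨P.p, -P.q, P.sr, P.bn, P.bd⟩ := by
  obtain ⟨C, hC⟩ := h
  refine ⟨C, ?_⟩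
  have e : conj (((P.p : ℂ) + P.q * Complex.I) / P.sr)
      = ((P.p : ℂ) + ((-P.q : ℤ) : ℂ) * Complex.I) / P.sr := by
    simp only [map_div₀, map_add, map_mul, Complex.conj_I, map_intCast, map_natCast]
    push_cast
    ring
  have := mS_conj (s := ((P.p : ℂ) + P.q * Complex.I) / P.sr) (b := (P.bn : ℝ) / P.bd) (C := C) hC
  rw [e] at this
  exact this

namespace AP

/-- the enclosure of the main constant -/
def c5 (P : AP) (n : ℕ) (bu gu bl gl : ℚ) : Bool :=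
  Pool.Agent.Helper53.HR2.esQ2 P.s.re P.s.nsq P.b n bu gu bl gl P.Elo P.Ehi

/-- the bound of the means at the point -/
theorem ok (P : AP) (h1 : P.c1 = true) (h2 : P.c2 = true) (h3 : P.c3 = true)
    (h4 : P.c4 = true) {m : ℕ} {bu gu bl gl : ℚ} (h5 : P.c5 m bu gu bl gl = true)
    {t : Tab} {bas : List Mo} {prs : List (Mo × Mo)} {Bt : List (List (List ℕ))}
    {n W K : ℕ} (ht : TabOK t bas prs Bt n W K) (C : Cert) (h : check t n W K C = true)
    (hP : C.P = P.par) (hqf : C.qf = qfM C.P P.MZ) (heta : 0 < C.eta) : PtOK P.par := by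
  have h1' := h1
  simp only [c1, Bool.and_eq_true, decide_eq_true_eq] at h1
  obtain ⟨⟨⟨⟨⟨⟨⟨⟨⟨⟨⟨⟨⟨⟨-, -⟩, -⟩, hs0⟩, hs1⟩, hb0⟩, -⟩, hσ⟩, -⟩, -⟩, -⟩, -⟩, -⟩, -⟩, -⟩ := h1
  have hnsq : ‖P.sC‖ ^ 2 = ((P.s.nsq : ℚ) : ℝ) := (GQ.nsq_eq P.s).symm
  have hb : (0 : ℝ) < P.bR := by
    rw [bR]
    exact_mod_cast hb0
  have hsne : P.sC ≠ 0 := by
    intro h0
    rw [h0, norm_zero] at hnsq
    have : ((P.s.nsq : ℚ) : ℝ) = 0 := by rw [← hnsq]; norm_num
    have h2 : P.s.nsq = 0 := by exact_mod_cast this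
    rw [h2] at hs0
    exact lt_irrefl _ hs0
  have hslt : ‖P.sC‖ < 1 := by
    have : ((P.s.nsq : ℚ) : ℝ) ≤ ((49 / 100 : ℚ) : ℝ) := by exact_mod_cast hs1
    rw [← hnsq] at this
    push_cast at this
    nlinarith [norm_nonneg P.sC]
  have hre : P.sC.re = ((P.s.re : ℚ) : ℝ) := by
    rw [sC, GQ.toC_re]
  have hσ' : (0 : ℝ) < P.bR + 1 - 2 * P.sC.re := by
    rw [hre, bR]
    exact_mod_cast hσ
  obtain ⟨hE1, hE2, -⟩ := Pool.Agent.Helper53.HR2.esQ2_sound hre hnsq hsne hslt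
    (b := P.b) hb hσ' h5
  obtain ⟨C0, hC0⟩ := P.bound h1' h2 h3 h4 hE1 hE2 ht C h hP hqf heta
  have key := mean_of_LS hb hC0
  rw [P.sC_eq, P.bR_eq] at key
  exact ⟨(P.bn : ℝ) / P.bd * C0, key⟩

end AP

end Pool.Agent.Helper65.HR2
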