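import Pool.Agent.Helper65.HR2.Fast2

/-!
MP_16b0ee, project HR2: fast evaluation of the matrix of the cross functional by products of lists
of natural numbers.
-/

set_option autoImplicit false

open scoped ComplexConjugate

namespace Pool.Agent.Helper65.HR2

open Pool.Agent.Helper24.HR2

/-- scalar product of lists of natural numbers -/
noncomputable def dotN : List ℕ → List ℕ → ℕ :=
  List.rec (motive := fun _ => List ℕ → ℕ) (fun _ => 0)
    (fun a _ ih v => List.rec (motive := fun _ => ℕ) 0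
      (fun b t _ => Nat.add (Nat.mul a b) (ih t)) v)

theorem dotN_eq (u : List ℕ) : ∀ (v : List ℕ) (n : ℕ), u.length ≤ n →
    dotN u v = ∑ i ∈ Finset.range n, u.getD i 0 * v.getD i 0 := by
  induction u with
  | nil =>
    intro v n _
    change 0 = _
    simp
  | cons a u ih =>
    intro v n hn
    obtain ⟨m, rfl⟩ : ∃ m, n = m + 1 := by
      rcases n with _ | m
      · simp at hn
      · exact ⟨m, rfl⟩
    have hm : u.length ≤ m := by simpa using hn
    rcases v with _ | ⟨b, v⟩
    · change 0 = _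
      simp
    · change a * b + dotN u v = _
      rw [ih v m hm, Finset.sum_range_succ']
      simp
      ring

/-- dropping the first elements -/
noncomputable def dropN : ℕ → List ℕ → List ℕ :=
  Nat.rec (motive := fun _ => List ℕ → List ℕ) (fun l => l)
    (fun _ ih l => List.rec (motive := fun _ => List ℕ) [] (fun _ t _ => ih t) l)

theorem dropN_nil (i : ℕ) : dropN i [] = [] := by
  cases i <;> rfl

theorem dropN_getD (i : ℕ) : ∀ (l : List ℕ) (j : ℕ), (dropN i l).getD j 0 = l.getD (i + j) 0 := by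
  induction i with
  | zero =>
    intro l j
    rw [Nat.zero_add]
    rfl
  | succ i ih =>
    intro l j
    rcases l with _ | ⟨a, l⟩
    · change ([] : List ℕ).getD j 0 = _
      simp
    · change (dropN i l).getD j 0 = _
      rw [ih l j, Nat.succ_add]
      rfl

/-- the first elements -/
noncomputable def takeN : ℕ → List ℕ → List ℕ :=
  Nat.rec (motive := fun _ => List ℕ → List ℕ) (fun _ => [])
    (fun _ ih l => List.rec (motive := fun _ => List ℕ) [] (fun a t _ => a :: ih t) l)

theorem takeN_length (i : ℕ) : ∀ l : List ℕ, (takeN i l).length ≤ i := by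
  induction i with
  | zero => intro l; exact le_rfl
  | succ i ih =>
    intro l
    rcases l with _ | ⟨a, l⟩
    · exact Nat.zero_le _
    · change (a :: takeN i l).length ≤ _
      rw [List.length_cons]
      exact Nat.succ_le_succ (ih l)

theorem takeN_getD (i : ℕ) : ∀ (l : List ℕ) (j : ℕ), j < i →
    (takeN i l).getD j 0 = l.getD j 0 := by
  induction i with
  | zero => intro l j h; omega
  | succ i ih =>
    intro l j h
    rcases l with _ | ⟨a, l⟩
    · rfl
    · change (a :: takeN i l).getD j 0 = _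
      rcases j with _ | j
      · rfl
      · rw [List.getD_cons_succ, List.getD_cons_succ]
        exact ih l j (by omega)

/-- `c * w + s` elementwise; `s` may be shorter -/
noncomputable def axN (c : ℕ) : List ℕ → List ℕ → List ℕ :=
  List.rec (motive := fun _ => List ℕ → List ℕ) (fun _ => [])
    (fun a _ ih s => List.rec (motive := fun _ => List ℕ) (Nat.mul c a :: ih [])
      (fun b t _ => Nat.add (Nat.mul c a) b :: ih t) s)

theorem axN_length (c : ℕ) (w : List ℕ) : ∀ s, (axN c w s).length = w.length := by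
  induction w with
  | nil => intro s; rfl
  | cons a w ih =>
    intro s
    rcases s with _ | ⟨b, s⟩
    · change (c * a :: axN c w []).length = _
      rw [List.length_cons, ih, List.length_cons]
    · change ((c * a + b) :: axN c w s).length = _
      rw [List.length_cons, ih, List.length_cons]

theorem axN_getD (c : ℕ) (w : List ℕ) : ∀ (s : List ℕ) (i : ℕ), i < w.length →
    (axN c w s).getD i 0 = c * w.getD i 0 + s.getD i 0 := by
  induction w with
  | nil => intro s i h; simp at h
  | cons a w ih =>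
    intro s i h
    rcases s with _ | ⟨b, s⟩
    · change (c * a :: axN c w []).getD i 0 = _
      rcases i with _ | i
      · simp
      · rw [List.getD_cons_succ, ih [] i (by simpa using h), List.getD_cons_succ]
        simp
    · change ((c * a + b) :: axN c w s).getD i 0 = _
      rcases i with _ | i
      · simp
      · rw [List.getD_cons_succ, ih s i (by simpa using h), List.getD_cons_succ,
          List.getD_cons_succ]

/-- scalar products with the shifts of a list -/
noncomputable def convN (u : List ℕ) : ℕ → List ℕ → List ℕ :=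
  Nat.rec (motive := fun _ => List ℕ → List ℕ) (fun _ => [])
    (fun _ ih v => dotN u v :: ih (List.rec (motive := fun _ => List ℕ) [] (fun _ t _ => t) v))

theorem convN_length (u : List ℕ) (n : ℕ) : ∀ v, (convN u n v).length = n := by
  induction n with
  | zero => intro v; rfl
  | succ n ih =>
    intro v
    change (dotN u v :: convN u n _).length = _
    rw [List.length_cons, ih]

theorem convN_getD (u : List ℕ) (n : ℕ) : ∀ (v : List ℕ) (i : ℕ), i < n →
    (convN u n v).getD i 0 = dotN u (dropN i v) := by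
  induction n with
  | zero => intro v i h; omega
  | succ n ih =>
    intro v i h
    change (dotN u v :: convN u n (List.rec (motive := fun _ => List ℕ) [] (fun _ t _ => t) v)).getD
      i 0 = _
    rcases i with _ | i
    · rfl
    · rw [List.getD_cons_succ, ih _ i (by omega)]
      rcases v with _ | ⟨a, v⟩
      · change dotN u (dropN i []) = dotN u (dropN (i + 1) [])
        rw [dropN_nil, dropN_nil]
      · rfl

/-- the natural numerator of a non-negative `q` over the denominator `L` -/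
noncomputable def nmN (L : ℕ) (q : ℚ) : ℕ := Nat.mul (Int.toNat q.num) (Nat.div L q.den)

theorem nmN_eq {L : ℕ} (hL : 0 < L) {q : ℚ} (h : q.den ∣ L) (hq : 0 ≤ q) :
    (nmN L q : ℚ) / L = q := by
  have h1 := nmr_eq hL h
  have h2 : ((nmN L q : ℕ) : ℤ) = nmr L q := by
    have h3 : ((q.num.toNat : ℕ) : ℤ) = q.num := Int.toNat_of_nonneg (Rat.num_nonneg.2 hq)
    rw [nmN, nmr]
    change ((q.num.toNat * (L / q.den) : ℕ) : ℤ) = q.num * ((L / q.den : ℕ) : ℤ)
    rw [Nat.cast_mul, h3]
  have h4 : ((nmN L q : ℕ) : ℚ) = ((nmr L q : ℤ) : ℚ) := by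
    rw [← h2, Int.cast_natCast]
  rw [h4]
  exact h1

/-- natural numerators of a non-negative function -/
noncomputable def svN (f : ℕ → ℚ) (n : ℕ) : List ℕ := tabG (fun i => nmN (lcd f n) (f i)) n

theorem svN_length (f : ℕ → ℚ) (n : ℕ) : (svN f n).length = n := tabG_length _ _

theorem svN_get (f : ℕ → ℚ) (n : ℕ) {i : ℕ} (hi : i < n) (hf : 0 ≤ f i) :
    ((svN f n).getD i 0 : ℚ) / lcd f n = f i := by
  rw [svN, tabG_getD _ _ hi]
  exact nmN_eq (lcd_pos f n) (den_dvd_lcd f n hi) hf

/-! the matrix of the cross functional -/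

section cross

variable (r b : ℚ) (D : ℕ) (p : ℕ → ℕ → ℚ) (J : ℕ)

/-- numerators of the weights -/
noncomputable def wNs : List ℕ := svN (wQ b) (Nat.succ (Nat.add D J))

/-- numerators of the moments -/
noncomputable def gNs : List ℕ := svN (gmQ r b) (Nat.mul 2 J)

/-- positive parts of a row of the kernel -/
noncomputable def pPo (j : ℕ) : List ℕ :=
  tabG (fun m => Int.toNat (nmr (lcd2 p D D) (p j m))) D

/-- negative parts of a row of the kernel -/
noncomputable def pNe (j : ℕ) : List ℕ :=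
  tabG (fun m => Int.toNat (Int.neg (nmr (lcd2 p D D) (p j m)))) D

/-- negative part of the cross function -/
noncomputable def cNe (l : ℕ) : List ℕ :=
  tabG (fun j => dotN (pPo D p j) (dropN (Nat.succ l) (wNs b D J))) D

/-- positive part of the cross function -/
noncomputable def cPo (l : ℕ) : List ℕ :=
  axN (lcd2 p D D) (takeN J (dropN (Nat.succ l) (wNs b D J)))
    (tabG (fun j => dotN (pNe D p j) (dropN (Nat.succ l) (wNs b D J))) D)

/-- positive parts of the moments of the cross function -/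
noncomputable def vPo (k : ℕ) : List ℕ := convN (cPo b D p J k) J (gNs r b J)

/-- negative parts of the moments of the cross function -/
noncomputable def vNe (k : ℕ) : List ℕ := convN (cNe b D p J k) J (gNs r b J)

/-- numerators of the matrix -/
noncomputable def wwI (l k : ℕ) : ℤ :=
  Int.subNatNat (Nat.add (dotN (cPo b D p J l) (vPo r b D p J k))
      (dotN (cNe b D p J l) (vNe r b D p J k)))
    (Nat.add (dotN (vNe r b D p J k) (cPo b D p J l)) (dotN (cNe b D p J l) (vPo r b D p J k)))

theorem getD_of_le (l : List ℕ) {i : ℕ} (h : l.length ≤ i) : l.getD i 0 = 0 := by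
  rw [List.getD_eq_getElem?_getD, List.getElem?_eq_none h]
  rfl

theorem toNat_sub (x : ℤ) : ((Int.toNat x : ℕ) : ℤ) - ((Int.toNat (-x) : ℕ) : ℤ) = x := by
  omega

theorem wQ_nonneg (hb : 0 < b) (k : ℕ) : 0 ≤ wQ b k := by
  rw [wQ]
  positivity

theorem gmQ_nonneg (hr : 0 < r + 1) (hb : 0 < b) (n : ℕ) : 0 ≤ gmQ r b n := by
  induction n with
  | zero => simp [gmQ]
  | succ n ih =>
    rw [gmQ]
    have h1 : (0 : ℚ) ≤ n := Nat.cast_nonneg n
    have h2 : 0 ≤ 2 * r + 2 + n := by linarith
    have h3 : 0 ≤ b + 3 + n := by linarith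
    positivity

/-- the cross function, integral -/
noncomputable def ci (l j : ℕ) : ℤ :=
  ((cPo b D p J l).getD j 0 : ℤ) - ((cNe b D p J l).getD j 0 : ℤ)

/-- its moments, integral -/
noncomputable def vi (k i : ℕ) : ℤ :=
  ((vPo r b D p J k).getD i 0 : ℤ) - ((vNe r b D p J k).getD i 0 : ℤ)

theorem wNs_get (hb : 0 < b) {i : ℕ} (hi : i < D + J + 1) :
    ((wNs b D J).getD i 0 : ℚ) = wQ b i * lcd (wQ b) (D + J + 1) := by
  have h := svN_get (wQ b) (D + J + 1) hi (wQ_nonneg b hb i)
  have h2 : (0 : ℚ) < lcd (wQ b) (D + J + 1) := by exact_mod_cast lcd_pos _ _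
  rw [← h, div_mul_cancel₀ _ h2.ne']
  rfl

theorem gNs_get (hr : 0 < r + 1) (hb : 0 < b) {i : ℕ} (hi : i < 2 * J) :
    ((gNs r b J).getD i 0 : ℚ) = gmQ r b i * lcd (gmQ r b) (2 * J) := by
  have h := svN_get (gmQ r b) (2 * J) hi (gmQ_nonneg r b hr hb i)
  have h2 : (0 : ℚ) < lcd (gmQ r b) (2 * J) := by exact_mod_cast lcd_pos _ _
  rw [← h, div_mul_cancel₀ _ h2.ne']
  rfl

theorem wNs_length : (wNs b D J).length = D + J + 1 := svN_length _ _

theorem dropN_length (i : ℕ) : ∀ l : List ℕ, (dropN i l).length = l.length - i := by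
  induction i with
  | zero => intro l; rfl
  | succ i ih =>
    intro l
    rcases l with _ | ⟨a, l⟩
    · simp [dropN_nil]
    · change (dropN i l).length = _
      rw [ih, List.length_cons]
      omega

theorem takeN_length_eq (i : ℕ) : ∀ l : List ℕ, i ≤ l.length → (takeN i l).length = i := by
  induction i with
  | zero => intro l _; rfl
  | succ i ih =>
    intro l h
    rcases l with _ | ⟨a, l⟩
    · simp at h
    · change (a :: takeN i l).length = _
      rw [List.length_cons, ih l (by simpa using h)]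

theorem ci_eq (hb : 0 < b) (hDJ : D ≤ J) {l j : ℕ} (hl : l < D + 1) (hj : j < J) :
    (ci b D p J l j : ℚ) = cJQ b D p l j
      * ((lcd2 p D D : ℚ) * lcd (wQ b) (D + J + 1)) := by
  have hlen : (takeN J (dropN (Nat.succ l) (wNs b D J))).length = J := by
    apply takeN_length_eq
    rw [dropN_length, wNs_length]
    change J ≤ D + J + 1 - (l + 1)
    omega
  have hLp : (0 : ℚ) < (lcd2 p D D : ℚ) := by exact_mod_cast lcd2_pos p D D
  have hdot : ∀ (q : ℕ → ℕ), dotN (tabG q D) (dropN (Nat.succ l) (wNs b D J))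
      = ∑ m ∈ Finset.range D, q m * (wNs b D J).getD (l + 1 + m) 0 := by
    intro q
    rw [dotN_eq _ _ D (by rw [tabG_length])]
    refine Finset.sum_congr rfl (fun m hm => ?_)
    rw [tabG_getD _ _ (Finset.mem_range.1 hm), dropN_getD]
  rw [ci, cPo, axN_getD _ _ _ _ (by rw [hlen]; exact hj), takeN_getD _ _ _ hj, dropN_getD, cNe,
    cJQ]
  rw [show l.succ + j = l + 1 + j from rfl]
  have hw : ((wNs b D J).getD (l + 1 + j) 0 : ℚ)
      = 1 / ((b + l + 1 + j) * (b + l + 2 + j)) * lcd (wQ b) (D + J + 1) := by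
    rw [wNs_get b D J hb (by omega), wQ]
    push_cast
    congr 2
    ring
  by_cases hjD : j < D
  · rw [tabG_getD _ _ hjD, tabG_getD _ _ hjD, if_pos hjD, pNe, pPo, hdot,
      hdot]
    have hsum : ((∑ m ∈ Finset.range D, Int.toNat (Int.neg (nmr (lcd2 p D D) (p j m)))
          * (wNs b D J).getD (l + 1 + m) 0 : ℕ) : ℚ)
        - ((∑ m ∈ Finset.range D, Int.toNat (nmr (lcd2 p D D) (p j m))
          * (wNs b D J).getD (l + 1 + m) 0 : ℕ) : ℚ)
        = - (sm (fun l' => p j l' * wQ b (l + l' + 1)) D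
          * ((lcd2 p D D : ℚ) * lcd (wQ b) (D + J + 1))) := by
      rw [sm_rat, Finset.sum_mul, ← Finset.sum_neg_distrib]
      push_cast
      rw [← Finset.sum_sub_distrib]
      refine Finset.sum_congr rfl (fun m hm => ?_)
      have hm' := Finset.mem_range.1 hm
      rw [wNs_get b D J hb (by omega)]
      have h1 := toNat_sub (nmr (lcd2 p D D) (p j m))
      have h2 := nmr_eq (lcd2_pos p D D) (den_dvd_lcd2 p D D hjD hm')
      have h3 : ((Int.toNat (nmr (lcd2 p D D) (p j m)) : ℕ) : ℚ)
          - ((Int.toNat (Int.neg (nmr (lcd2 p D D) (p j m))) : ℕ) : ℚ)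
          = p j m * (lcd2 p D D : ℚ) := by
        have h4 : ((nmr (lcd2 p D D) (p j m) : ℤ) : ℚ) = p j m * (lcd2 p D D : ℚ) := by
          field_simp at h2
          linarith
        have h5 : ((Int.toNat (nmr (lcd2 p D D) (p j m)) : ℕ) : ℚ)
            - ((Int.toNat (-nmr (lcd2 p D D) (p j m)) : ℕ) : ℚ)
            = ((nmr (lcd2 p D D) (p j m) : ℤ) : ℚ) := by exact_mod_cast h1
        rw [← h4]
        exact h5
      rw [show l + 1 + m = l + m + 1 from by ring]
      linear_combination (-(wQ b (l + m + 1) * (lcd (wQ b) (D + J + 1) : ℚ))) * h3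
    push_cast at hsum ⊢
    rw [hw]
    linear_combination hsum
  · have t1 : ∀ f : ℕ → ℕ, (tabG f D).getD j 0 = 0 := fun f =>
      getD_of_le _ (by rw [tabG_length]; omega)
    rw [if_neg hjD, t1, t1]
    push_cast
    rw [hw]
    ring

theorem vi_eq (hr : 0 < r + 1) (hb : 0 < b) (hDJ : D ≤ J) {k i : ℕ} (hk : k < D + 1)
    (hi : i < J) : (vi r b D p J k i : ℚ) = vQ r b D p J k i
      * ((lcd2 p D D : ℚ) * lcd (wQ b) (D + J + 1) * lcd (gmQ r b) (2 * J)) := by
  have hlenP : (cPo b D p J k).length = J := by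
    rw [cPo, axN_length]
    apply takeN_length_eq
    rw [dropN_length, wNs_length]
    change J ≤ D + J + 1 - (k + 1)
    omega
  have hlenN : (cNe b D p J k).length ≤ J := by
    rw [cNe, tabG_length]
    exact hDJ
  rw [vi, vPo, vNe, convN_getD _ _ _ _ hi, convN_getD _ _ _ _ hi,
    dotN_eq _ _ J hlenP.le, dotN_eq _ _ J hlenN, vQ, sm_rat, Finset.sum_mul]
  push_cast
  rw [← Finset.sum_sub_distrib]
  refine Finset.sum_congr rfl (fun j hj => ?_)
  have hj' := Finset.mem_range.1 hj
  have h1 := ci_eq b D p J hb hDJ hk hj'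
  rw [ci] at h1
  push_cast at h1
  rw [dropN_getD, gNs_get r b J hr hb (by omega)]
  linear_combination (gmQ r b (i + j) * (lcd (gmQ r b) (2 * J) : ℚ)) * h1

theorem wwI_eq (hr : 0 < r + 1) (hb : 0 < b) (hDJ : D ≤ J) {l k : ℕ} (hl : l < D + 1)
    (hk : k < D + 1) : (wwI r b D p J l k : ℚ)
      = sm (fun i => cJQ b D p l i * vQ r b D p J k i) J
        * ((lcd2 p D D : ℚ) * lcd (wQ b) (D + J + 1)
          * ((lcd2 p D D : ℚ) * lcd (wQ b) (D + J + 1) * lcd (gmQ r b) (2 * J))) := by
  have hlenP : (cPo b D p J l).length ≤ J := by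
    rw [cPo, axN_length]
    exact takeN_length _ _
  have hlenN : (cNe b D p J l).length ≤ J := by
    rw [cNe, tabG_length]
    exact hDJ
  have hlenV : (vNe r b D p J k).length ≤ J := by
    rw [vNe, convN_length]
  have e : wwI r b D p J l k = ((dotN (cPo b D p J l) (vPo r b D p J k)
      + dotN (cNe b D p J l) (vNe r b D p J k) : ℕ) : ℤ)
      - ((dotN (vNe r b D p J k) (cPo b D p J l) + dotN (cNe b D p J l) (vPo r b D p J k) : ℕ) : ℤ) :=
    Int.subNatNat_eq_coe
  rw [e, dotN_eq _ _ J hlenP, dotN_eq _ _ J hlenN, dotN_eq _ _ J hlenV, dotN_eq _ _ J hlenN,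
    sm_rat, Finset.sum_mul]
  push_cast
  rw [← Finset.sum_add_distrib, ← Finset.sum_add_distrib, ← Finset.sum_sub_distrib]
  refine Finset.sum_congr rfl (fun i hi => ?_)
  have hi' := Finset.mem_range.1 hi
  have h1 := ci_eq b D p J hb hDJ hl hi'
  have h2 := vi_eq r b D p J hr hb hDJ hk hi'
  rw [ci] at h1
  rw [vi] at h2
  push_cast at h1 h2
  calc _ = (((cPo b D p J l).getD i 0 : ℚ) - ((cNe b D p J l).getD i 0 : ℚ))
        * (((vPo r b D p J k).getD i 0 : ℚ) - ((vNe r b D p J k).getD i 0 : ℚ)) := by ring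
    _ = _ := by
      rw [h1, h2]
      ring

/-- the tail on the diagonal -/
noncomputable def tlQ (th : ℚ) (l : ℕ) : ℚ := (1 + 1 / th) * gmQ r b (2 * J)
  * sm (fun l' => 1 / (b + l' + 1 + J)) (D + 1) * (1 / (b + l + 1 + J))

/-- denominator of the products -/
noncomputable def wwD : ℕ := Nat.mul (Nat.mul (lcd2 p D D) (lcd (wQ b) (Nat.succ (Nat.add D J))))
  (Nat.mul (Nat.mul (lcd2 p D D) (lcd (wQ b) (Nat.succ (Nat.add D J)))) (lcd (gmQ r b) (Nat.mul 2 J)))

/-- entries of the matrix of the cross functional over the common denominator -/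
noncomputable def wwE (th : ℚ) (l k : ℕ) : ℤ :=
  Int.add (Int.mul (Int.mul (1 + th).num (Int.ofNat (lcd (tlQ r b D J th) (Nat.succ D))))
      (bif Nat.ble l k then wwI r b D p J l k else wwI r b D p J k l))
    (bif Nat.beq l k then Int.mul (nmr (lcd (tlQ r b D J th) (Nat.succ D)) (tlQ r b D J th l))
      (Int.ofNat (Nat.mul (1 + th).den (wwD r b D p J))) else 0)

/-- the matrix of the cross functional -/
noncomputable def wwM (th : ℚ) : RM :=
  ⟨Nat.mul (Nat.mul (1 + th).den (lcd (tlQ r b D J th) (Nat.succ D))) (wwD r b D p J),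
    tabG (fun l => tabG (fun k => wwE r b D p J th l k) (Nat.succ D)) (Nat.succ D)⟩

theorem wq_symm (l k : ℕ) : sm (fun i => cJQ b D p l i * vQ r b D p J k i) J
    = sm (fun i => cJQ b D p k i * vQ r b D p J l i) J := by
  rw [sm_rat, sm_rat]
  simp only [vQ, sm_rat, Finset.mul_sum]
  rw [Finset.sum_comm]
  refine Finset.sum_congr rfl (fun i _ => Finset.sum_congr rfl (fun j _ => ?_))
  rw [add_comm i j]
  ring

theorem wwE_eq (hr : 0 < r + 1) (hb : 0 < b) (hDJ : D ≤ J) (th : ℚ) {l k : ℕ} (hl : l < D + 1)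
    (hk : k < D + 1) : (wwE r b D p J th l k : ℚ) / ((wwM r b D p J th).den : ℕ)
      = WQ r b D p J th l k := by
  have hL : 0 < lcd (tlQ r b D J th) (D + 1) := lcd_pos _ _
  have hL' : (0 : ℚ) < (lcd (tlQ r b D J th) (D + 1) : ℚ) := by exact_mod_cast hL
  have h1 : (((1 + th).num : ℤ) : ℚ) = (1 + th) * ((1 + th).den : ℚ) := by
    have := Rat.num_div_den (1 + th)
    have h2 : (((1 + th).den : ℕ) : ℚ) ≠ 0 := by exact_mod_cast (1 + th).den_pos.ne'
    field_simp at this
    linarith
  have hden : (0 : ℚ) < ((1 + th).den : ℚ) := by exact_mod_cast (1 + th).den_pos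
  have hD : (0 : ℚ) < (wwD r b D p J : ℚ) := by
    have a1 := lcd2_pos p D D
    have a2 := lcd_pos (wQ b) (Nat.succ (Nat.add D J))
    have a3 := lcd_pos (gmQ r b) (Nat.mul 2 J)
    exact_mod_cast Nat.mul_pos (Nat.mul_pos a1 a2) (Nat.mul_pos (Nat.mul_pos a1 a2) a3)
  have hDe : (wwD r b D p J : ℚ) = (lcd2 p D D : ℚ) * lcd (wQ b) (D + J + 1)
      * ((lcd2 p D D : ℚ) * lcd (wQ b) (D + J + 1) * lcd (gmQ r b) (2 * J)) := by
    have : wwD r b D p J = lcd2 p D D * lcd (wQ b) (D + J + 1)
      * (lcd2 p D D * lcd (wQ b) (D + J + 1) * lcd (gmQ r b) (2 * J)) := rfl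
    rw [this]
    push_cast
    ring
  have hw : ((bif Nat.ble l k then wwI r b D p J l k else wwI r b D p J k l : ℤ) : ℚ)
      = sm (fun i => cJQ b D p l i * vQ r b D p J k i) J * (wwD r b D p J : ℚ) := by
    rw [hDe]
    cases h : Nat.ble l k
    · rw [cond_false, wwI_eq r b D p J hr hb hDJ hk hl, wq_symm]
    · rw [cond_true, wwI_eq r b D p J hr hb hDJ hl hk]
  have hden2 : (((wwM r b D p J th).den : ℕ) : ℚ)
      = ((1 + th).den : ℚ) * (lcd (tlQ r b D J th) (D + 1) : ℚ) * (wwD r b D p J : ℚ) := by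
    rw [← Nat.cast_mul, ← Nat.cast_mul]
    rfl
  have ht := nmr_eq hL (den_dvd_lcd (tlQ r b D J th) (D + 1) hl)
  have ht' : ((nmr (lcd (tlQ r b D J th) (D + 1)) (tlQ r b D J th l) : ℤ) : ℚ)
      = tlQ r b D J th l * (lcd (tlQ r b D J th) (D + 1) : ℚ) := by
    field_simp at ht
    linarith
  rw [hden2, div_eq_iff (by positivity), wwE]
  have e1 : ∀ x y : ℤ, ((Int.add x y : ℤ) : ℚ) = (x : ℚ) + (y : ℚ) := fun x y => by
    change ((x + y : ℤ) : ℚ) = _
    push_cast
    ring
  have e2 : ∀ x y : ℤ, ((Int.mul x y : ℤ) : ℚ) = (x : ℚ) * (y : ℚ) := fun x y => by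
    change ((x * y : ℤ) : ℚ) = _
    push_cast
    ring
  have e3 : ∀ n : ℕ, ((Int.ofNat n : ℤ) : ℚ) = (n : ℚ) := fun n => Int.cast_natCast n
  rw [e1, e2, e2, hw, h1, e3, WQ]
  cases h : Nat.beq l k
  · have hne : l ≠ k := Nat.ne_of_beq_eq_false h
    rw [cond_false, if_neg hne]
    push_cast
    ring
  · have he : l = k := Nat.eq_of_beq_eq_true h
    have e4 : ((nmr (lcd (tlQ r b D J th) D.succ) (tlQ r b D J th l) : ℤ) : ℚ)
        = tlQ r b D J th l * (lcd (tlQ r b D J th) (D + 1) : ℚ) := ht'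
    rw [cond_true, if_pos he, e2, e3, e4,
      show Nat.mul (1 + th).den (wwD r b D p J) = (1 + th).den * wwD r b D p J from rfl,
      show D.succ = D + 1 from rfl, tlQ]
    push_cast
    ring

end cross

theorem mv_get' (L : ℕ) (a : ℕ → ℕ → ℤ) (m m' : ℕ) (v : SV) {i : ℕ} (hi : i < m) :
    (mv ⟨L, tabG (fun i => tabG (fun j => a i j) m') m⟩ v).get i
      = ∑ j ∈ Finset.range m', ((a i j : ℚ) / L) * v.get j := by
  rw [SV.get, mv_num]
  have h1 : ((tabG (fun i => tabG (fun j => a i j) m') m).map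
      (fun row => dotI row v.num)).getD i 0 = dotI (tabG (fun j => a i j) m') v.num := by
    rw [List.getD_eq_getElem?_getD, List.getElem?_map, tabG_getElem _ _ hi]
    rfl
  rw [h1, dotI_eq _ _ m' (by rw [tabG_length])]
  have h2 : (((mv ⟨L, tabG (fun i => tabG (fun j => a i j) m') m⟩ v).den : ℕ) : ℚ)
      = (L : ℚ) * v.den := by
    rw [← Nat.cast_mul]
    rfl
  rw [h2]
  push_cast
  rw [Finset.sum_div]
  refine Finset.sum_congr rfl (fun j hj => ?_)
  rw [tabG_getD _ _ (Finset.mem_range.1 hj), ← div_mul_div_comm, SV.get]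

theorem mvc_get' (L : ℕ) (a : ℕ → ℕ → ℤ) (m m' : ℕ) (v : SV × SV) {i : ℕ} (hi : i < m) :
    (cget (mvc ⟨L, tabG (fun i => tabG (fun j => a i j) m') m⟩ v) i).toC
      = ∑ j ∈ Finset.range m', ((((a i j : ℚ) / L : ℚ) : ℝ) : ℂ) * (cget v j).toC := by
  rw [cget, mvc]
  simp only
  rw [mv_get' _ _ _ _ _ hi, mv_get' _ _ _ _ _ hi]
  apply Complex.ext
  · rw [GQ.toC_re, Complex.re_sum]
    push_cast
    refine Finset.sum_congr rfl (fun j _ => ?_)
    simp [GQ.toC, cget]
  · rw [GQ.toC_im, Complex.im_sum]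
    push_cast
    refine Finset.sum_congr rfl (fun j _ => ?_)
    simp [GQ.toC, cget]

end Pool.Agent.Helper65.HR2
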