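import Pool.Agent.Helper65.HR2.Mat

/-!
MP_16b0ee, project HR2: the hypotheses of the core theorem at one point, checked by the kernel in
exact rational arithmetic.
-/

set_option autoImplicit false

open MeasureTheory Set
open scoped ComplexConjugate Real

namespace Pool.Agent.Helper65.HR2

open Pool.Agent.Helper24.HR2

/-- the data at one point. `s = (s1 + s2 i) / sd`, `b = bn / bd`, the coefficients of the kernel are
`p / pd`, the test vectors are `T / td`, the matrix of the form is given by the Gaussian integers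
`M` and the integer `N` (see `AP.Qf`) -/
structure AP where
  /-- numerator of the real part of `s` -/
  s1 : ℤ
  /-- numerator of the imaginary part of `s` -/
  s2 : ℤ
  /-- denominator of `s` -/
  sd : ℕ
  /-- numerator of `b` -/
  bn : ℕ
  /-- denominator of `b` -/
  bd : ℕ
  /-- degree of the kernel -/
  D : ℕ
  /-- numerators of the kernel -/
  p : List (List ℤ)
  /-- denominator of the kernel -/
  pd : ℕ
  /-- numerators of the test vectors -/
  T : List (List (ℤ × ℤ))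
  /-- denominator of the test vectors -/
  td : ℕ
  /-- the matrix of the form -/
  M : List (List (ℤ × ℤ))
  /-- the scale of the form -/
  N : ℕ
  /-- bound of the Hilbert-Schmidt norm -/
  eps : ℚ
  /-- first weight -/
  kap : ℚ
  /-- second weight -/
  tau : ℚ
  /-- third weight -/
  th : ℚ
  /-- number of terms of the series -/
  J1 : ℕ
  /-- number of terms of the inverse factorial series -/
  M1 : ℕ
  /-- number of terms of the cross functions -/
  J2 : ℕ
  /-- lower bound of the series -/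
  Slo : ℚ
  /-- upper bound of the series -/
  Shi : ℚ
  /-- lower bound of the main constant -/
  Elo : ℚ
  /-- upper bound of the main constant -/
  Ehi : ℚ

namespace AP

/-- the exponent -/
def s (P : AP) : GQ := ⟨mkRat P.s1 P.sd, mkRat P.s2 P.sd⟩

/-- the parameter `b` -/
def b (P : AP) : ℚ := mkRat P.bn P.bd

/-- the coefficients of the kernel -/
def pf (P : AP) (n l : ℕ) : ℚ := mkRat ((P.p.getD n []).getD l 0) P.pd

/-- the test vectors -/
def Tf (P : AP) (n r : ℕ) : GQ :=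
  ⟨mkRat ((P.T.getD n []).getD r (0, 0)).1 P.td, mkRat ((P.T.getD n []).getD r (0, 0)).2 P.td⟩

/-- the entries of the integral matrix -/
def Mf (P : AP) (r t : ℕ) : GQ :=
  ⟨(((P.M.getD r []).getD t (0, 0)).1 : ℚ), (((P.M.getD r []).getD t (0, 0)).2 : ℚ)⟩

/-- the scales of the moments -/
def xs (P : AP) : ℕ → ℚ
  | 0 => 1
  | 1 => 1 / (2 * P.sd)
  | _ => 1 / (4 * P.sd ^ 2)

/-- the Pochhammer symbol -/
def pochQ (x : ℚ) : ℕ → ℚ
  | 0 => 1
  | n + 1 => pochQ x n * (x + n)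

/-- the scale of the entries of the form -/
def fac (P : AP) (r t : ℕ) : ℚ :=
  P.N * (P.b * (P.b + 1) * (P.b + 2)) / pochQ P.b (2 * r + 2 * t) * (P.xs r * P.xs t)

/-- the matrix of the form -/
def Qf (P : AP) (r t : ℕ) : GQ := (P.Mf r t).sc (1 / P.fac r t)

/-- the elementary conditions -/
def c1 (P : AP) : Bool :=
  decide (0 < P.sd) && decide (0 < P.bd) && decide (0 < P.N) && decide (0 < P.s.nsq) &&
  decide (P.s.nsq ≤ 49 / 100) && decide (0 < P.b) && decide (P.b ≤ 1) &&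
  decide (0 < P.b + 1 - 2 * P.s.re) && decide (4 * P.s.nsq < (P.b + 1) ^ 2) &&
  decide (P.D ≤ 9) && decide (P.D ≤ P.J2) && decide (0 < P.kap) && decide (0 < P.tau) &&
  decide (0 < P.th) && decide ((1 + P.kap) * P.eps + P.tau < 1)

/-- the value of the Hilbert-Schmidt norm at a corner -/
def hsc (P : AP) (E S : ℚ) : Bool :=
  decide (E * ((hsQ P.s.re P.b P.D P.pf).1 + (hsQ P.s.re P.b P.D P.pf).2 * S) ≤ P.eps)

/-- the Hilbert-Schmidt norm -/
def c2 (P : AP) : Bool :=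
  P.hsc P.Elo P.Slo && P.hsc P.Elo P.Shi && P.hsc P.Ehi P.Slo && P.hsc P.Ehi P.Shi

/-- the enclosure of the series -/
def c3 (P : AP) : Bool := s0C P.s.re P.b P.J1 P.M1 P.Slo P.Shi

/-- the exponent as a complex number -/
noncomputable def sC (P : AP) : ℂ := P.s.toC

/-- the parameter `b` as a real number -/
noncomputable def bR (P : AP) : ℝ := (P.b : ℝ)

/-- the kernel with real coefficients -/
noncomputable def pR (P : AP) (n l : ℕ) : ℝ := (P.pf n l : ℝ)

/-- the test vectors -/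
noncomputable def TC (P : AP) (n r : ℕ) : ℂ := (P.Tf n r).toC

/-- the matrix of the form -/
noncomputable def QC (P : AP) (r t : ℕ) : ℂ := (P.Qf r t).toC

end AP

theorem corner {E S E1 E2 S1 S2 m a0 a1 : ℝ} (hE1 : E1 ≤ E) (hE2 : E ≤ E2) (hS1 : S1 ≤ S)
    (hS2 : S ≤ S2) (h1 : 0 ≤ m - E1 * (a0 + S1 * a1)) (h2 : 0 ≤ m - E1 * (a0 + S2 * a1))
    (h3 : 0 ≤ m - E2 * (a0 + S1 * a1)) (h4 : 0 ≤ m - E2 * (a0 + S2 * a1)) :
    0 ≤ m - E * (a0 + S * a1) := by
  have k1 : 0 ≤ m - E1 * (a0 + S * a1) := by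
    rcases le_total 0 (E1 * a1) with h | h
    · nlinarith [mul_nonneg h (sub_nonneg.2 hS2)]
    · nlinarith [mul_nonneg (neg_nonneg.2 h) (sub_nonneg.2 hS1)]
  have k2 : 0 ≤ m - E2 * (a0 + S * a1) := by
    rcases le_total 0 (E2 * a1) with h | h
    · nlinarith [mul_nonneg h (sub_nonneg.2 hS2)]
    · nlinarith [mul_nonneg (neg_nonneg.2 h) (sub_nonneg.2 hS1)]
  rcases le_total 0 (a0 + S * a1) with h | h
  · nlinarith [mul_nonneg h (sub_nonneg.2 hE2)]
  · nlinarith [mul_nonneg (neg_nonneg.2 h) (sub_nonneg.2 hE1)]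

namespace AP

theorem ncross_nonneg (s : ℂ) (b : ℝ) (D : ℕ) (p : ℕ → ℕ → ℝ) (F : ℕ → ℂ) :
    0 ≤ Ncross s b D p F := by
  have ha : ∀ x ∈ Ioo (0 : ℝ) 1, 0 ≤ alp s b x := by
    intro x hx
    exact mul_nonneg (Real.rpow_nonneg (by linarith [hx.2]) _) (Real.rpow_nonneg hx.1.le _)
  refine mul_nonneg (one_div_nonneg.2 ?_) ?_
  · exact setIntegral_nonneg measurableSet_Ioo ha
  · exact setIntegral_nonneg measurableSet_Ioo (fun x hx => mul_nonneg (ha x hx) (by positivity))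

/-- the hypothesis on the Hilbert-Schmidt norm -/
theorem hs_le (P : AP) (h1 : P.c1 = true) (h2 : P.c2 = true) (h3 : P.c3 = true)
    (hE1 : (P.Elo : ℝ) ≤ Es P.sC P.bR) (hE2 : Es P.sC P.bR ≤ (P.Ehi : ℝ)) :
    Es P.sC P.bR * HSn P.sC P.bR P.D P.pR ≤ (P.eps : ℝ) := by
  simp only [c1, Bool.and_eq_true, decide_eq_true_eq] at h1
  obtain ⟨⟨⟨⟨⟨⟨⟨⟨⟨⟨⟨⟨⟨⟨-, -⟩, -⟩, hq0⟩, hq1⟩, hb0⟩, hb1⟩, hσ⟩, -⟩, -⟩, hDJ⟩, hk⟩, hta⟩, hth⟩, -⟩ := h1
  simp only [c2, hsc, Bool.and_eq_true, decide_eq_true_eq] at h2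
  obtain ⟨⟨⟨k1, k2⟩, k3⟩, k4⟩ := h2
  have hb' : (0 : ℝ) < (P.b : ℝ) := by exact_mod_cast hb0
  have hr : P.sC.re = (P.s.re : ℝ) := rfl
  have hσ' : (0 : ℝ) < (P.b : ℝ) + 1 - 2 * P.sC.re := by
    rw [hr]
    exact_mod_cast hσ
  have hn : ‖P.sC‖ ^ 2 ≤ 49 / 100 := by
    rw [sC, ← GQ.nsq_eq]
    have := (Rat.cast_le (K := ℝ)).2 hq1
    push_cast at this
    exact this
  have hs : -1 < P.sC.re := by
    have h5 : ‖P.sC‖ ≤ 7 / 10 := by nlinarith [norm_nonneg P.sC]
    have h6 := Complex.abs_re_le_norm P.sC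
    have h7 := neg_abs_le P.sC.re
    linarith
  obtain ⟨hS1, hS2⟩ := s0C_sound (s := P.sC) hr hs hb' hσ' h3
  have k1' := (Rat.cast_le (K := ℝ)).2 k1
  have k2' := (Rat.cast_le (K := ℝ)).2 k2
  have k3' := (Rat.cast_le (K := ℝ)).2 k3
  have k4' := (Rat.cast_le (K := ℝ)).2 k4
  push_cast at k1' k2' k3' k4'
  have h := corner (E := Es P.sC P.bR) (S := SS P.sC P.bR 0 1) (m := (P.eps : ℝ))
    (a0 := ((hsQ P.s.re P.b P.D P.pf).1 : ℝ)) (a1 := ((hsQ P.s.re P.b P.D P.pf).2 : ℝ))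
    hE1 hE2 hS1 hS2 (by linarith) (by linarith) (by linarith) (by linarith)
  have e : HSn P.sC P.bR P.D P.pR = av (SS P.sC P.bR 0 1) (hsQ P.s.re P.b P.D P.pf) :=
    hsQ_eq hr hs hb' hσ' P.D P.pf
  rw [e, av]
  linarith

end AP

end Pool.Agent.Helper65.HR2
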