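import Pool.Agent.Helper65.HR2.Fast2

/-!
MP_16b0ee, project HR2: families of vectors (the columns of a matrix applied to the moments) and
their Hermitian products.
-/

set_option autoImplicit false

open scoped ComplexConjugate

namespace Pool.Agent.Helper65.HR2

open Pool.Agent.Helper24.HR2

/-- the functionals given by a family of columns -/
noncomputable def fnl (K : ℕ) (A : ℕ → SV × SV) (g : ℕ → ℂ) (i : ℕ) : ℂ :=
  ∑ t ∈ Finset.range K, (cget (A t) i).toC * g t

theorem fnl_cvec (K : ℕ) (f : ℕ → ℕ → GQ) (m : ℕ) (g : ℕ → ℂ) {i : ℕ} (hi : i < m) :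
    fnl K (fun t => cvec (fun n => f n t) m) g i
      = ∑ t ∈ Finset.range K, (f i t).toC * g t := by
  rw [fnl]
  refine Finset.sum_congr rfl (fun t _ => ?_)
  rw [cvec_get _ _ hi]

theorem fnl_mvc (K : ℕ) (f : ℕ → ℕ → ℚ) (m m' : ℕ) (A : ℕ → SV × SV) (g : ℕ → ℂ) {i : ℕ}
    (hi : i < m) : fnl K (fun t => mvc (rm f m m') (A t)) g i
      = ∑ j ∈ Finset.range m', ((f i j : ℝ) : ℂ) * fnl K A g j := by
  rw [fnl]
  have h : ∀ t ∈ Finset.range K, (cget (mvc (rm f m m') (A t)) i).toC * g t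
      = ∑ j ∈ Finset.range m', ((f i j : ℝ) : ℂ) * ((cget (A t) j).toC * g t) := by
    intro t _
    rw [mvc_get _ _ _ _ hi, Finset.sum_mul]
    exact Finset.sum_congr rfl (fun j _ => by ring)
  rw [Finset.sum_congr rfl h, Finset.sum_comm]
  refine Finset.sum_congr rfl (fun j _ => ?_)
  rw [fnl, Finset.mul_sum]

/-- dropping the first entries -/
noncomputable def cdrop (j : ℕ) (u : SV × SV) : SV × SV := (sdrop j u.1, sdrop j u.2)

theorem fnl_cdrop (K j : ℕ) (A : ℕ → SV × SV) (g : ℕ → ℂ) (i : ℕ) :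
    fnl K (fun t => cdrop j (A t)) g i = fnl K A g (j + i) := by
  rw [fnl, fnl]
  refine Finset.sum_congr rfl (fun t _ => ?_)
  rw [cget, cdrop, cget]
  simp only
  rw [sdrop_get, sdrop_get]

/-- both parts have at most `n` entries -/
def SL (n : ℕ) (u : SV × SV) : Prop := u.1.num.length ≤ n ∧ u.2.num.length ≤ n

theorem SL_cvec (f : ℕ → GQ) (n : ℕ) : SL n (cvec f n) := by
  constructor
  · rw [cvec, sv_length]
  · rw [cvec, sv_length]

theorem SL_mvc (f : ℕ → ℕ → ℚ) (m m' : ℕ) (v : SV × SV) : SL m (mvc (rm f m m') v) := by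
  constructor
  · rw [mvc, mv_length]
  · rw [mvc, mv_length]

theorem ipF_eq (K n : ℕ) (B A : ℕ → SV × SV) (hB : ∀ r, SL n (B r)) (g : ℕ → ℂ) :
    hF K (fun r t => (ip (B r) (A t)).toC) g
      = ∑ i ∈ Finset.range n, (fnl K A g i * conj (fnl K B g i)).re := by
  have h : (fun r t => (ip (B r) (A t)).toC)
      = fun r t => ∑ i ∈ Finset.range n, (cget (A t) i).toC * conj (cget (B r) i).toC := by
    funext r t
    rw [ip_eq _ _ n (hB r).1 (hB r).2]
    exact Finset.sum_congr rfl (fun i _ => mul_comm _ _)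
  rw [h, hF_sum]
  refine Finset.sum_congr rfl (fun i _ => ?_)
  rw [hF_prod]
  rfl

end Pool.Agent.Helper65.HR2
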