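import Pool.Agent.Helper65.HR2.PsdZ
import Pool.Agent.Helper65.HR2.Vec

/-!
MP_16b0ee, project HR2: Hermitian forms with Gaussian integral entries over one common denominator;
families of vectors with one common denominator.
-/

set_option autoImplicit false

open scoped ComplexConjugate

namespace Pool.Agent.Helper65.HR2

open Pool.Agent.Helper24.HR2

/-- the complex number -/
noncomputable def GZ.toC (x : GZ) : ℂ := x.toQ.toC

theorem GZ.toC_eq (x : GZ) : x.toC = ⟨(x.re : ℝ), (x.im : ℝ)⟩ := by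
  rw [GZ.toC, GZ.toQ]
  apply Complex.ext
  · rw [GQ.toC_re]
    push_cast
    rfl
  · rw [GQ.toC_im]
    push_cast
    rfl

/-- both parts have the denominator `a` -/
def DN (a : ℕ) (u : SV × SV) : Prop := u.1.den = a ∧ u.2.den = a

/-- the integral weight of a term -/
noncomputable def wgt (L : ℕ) (q : ℚ) (d : ℕ) : ℤ :=
  Int.mul q.num (Int.ofNat (Nat.div L (Nat.mul q.den d)))

theorem wgt_eq {L : ℕ} {q : ℚ} {d : ℕ} (hL : 0 < L) (h : Nat.mul q.den d ∣ L) :
    (wgt L q d : ℝ) = (L : ℝ) * ((q : ℝ) / (d : ℝ)) := by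
  obtain ⟨k, hk⟩ := h
  have hp : 0 < Nat.mul q.den d := by
    rcases Nat.eq_zero_or_pos (Nat.mul q.den d) with h | h
    · rw [h, zero_mul] at hk
      omega
    · exact h
  have hd : 0 < d := by
    rcases Nat.eq_zero_or_pos d with h | h
    · rw [h] at hp
      exact absurd hp (by simp)
    · exact h
  have h1 : Nat.div L (Nat.mul q.den d) = k := by
    rw [hk]
    exact Nat.mul_div_cancel_left k hp
  have h2 : (wgt L q d : ℝ) = (q.num : ℝ) * (k : ℝ) := by
    rw [wgt, h1]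
    change ((q.num * (k : ℤ) : ℤ) : ℝ) = _
    push_cast
    ring
  have h3 : (L : ℝ) = (q.den : ℝ) * (d : ℝ) * (k : ℝ) := by
    have : L = q.den * d * k := hk
    rw [this]
    push_cast
    ring
  have h4 : (q : ℝ) = (q.num : ℝ) / (q.den : ℝ) := by
    have := Rat.num_div_den q
    have h5 : ((q.num : ℚ) / (q.den : ℚ) : ℚ) = q := this
    calc (q : ℝ) = (((q.num : ℚ) / (q.den : ℚ) : ℚ) : ℝ) := by rw [h5]
      _ = _ := by push_cast; ring
  have h6 : (q.den : ℝ) ≠ 0 := by exact_mod_cast q.den_pos.ne'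
  have h7 : (d : ℝ) ≠ 0 := by exact_mod_cast hd.ne'
  rw [h2, h3, h4]
  field_simp

/-- twice the Hermitian part -/
noncomputable def hz (z : ℕ → ℕ → GZ) (i j : ℕ) : GZ :=
  GZ.rec (motive := fun _ => GZ)
    (fun a b => GZ.rec (motive := fun _ => GZ)
      (fun c d => ⟨Int.add a c, Int.sub b d⟩) (z j i)) (z i j)

theorem hz_eq (z : ℕ → ℕ → GZ) (i j : ℕ) :
    (hz z i j).toC = (z i j).toC + conj (z j i).toC := by
  have e : hz z i j = ⟨Int.add (z i j).re (z j i).re, Int.sub (z i j).im (z j i).im⟩ := rfl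
  have e1 : ∀ x y : ℤ, ((Int.add x y : ℤ) : ℝ) = (x : ℝ) + (y : ℝ) := fun x y => by
    change ((x + y : ℤ) : ℝ) = _
    push_cast
    ring
  have e3 : ∀ x y : ℤ, ((Int.sub x y : ℤ) : ℝ) = (x : ℝ) - (y : ℝ) := fun x y => by
    change ((x - y : ℤ) : ℝ) = _
    push_cast
    ring
  rw [e, GZ.toC_eq, GZ.toC_eq, GZ.toC_eq]
  apply Complex.ext
  · rw [Complex.add_re, Complex.conj_re]
    simp only [e1]
  · rw [Complex.add_im, Complex.conj_im]
    simp only [e3]
    ring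

theorem hz_hF (K : ℕ) (z : ℕ → ℕ → GZ) (g : ℕ → ℂ) :
    uf K (fun i j => (hz z i j).toQ) g = 2 * hF K (fun r t => (z r t).toC) g := by
  have h1 := hrm_eq K (fun i j => (z i j).toQ) g
  have h2 : uf K (fun i j => (hz z i j).toQ) g
      = uf K (fun i j => (hrm (fun i j => (z i j).toQ) i j).sc 2) g := by
    refine uf_congr K _ _ g (fun i j _ _ => ?_)
    have h3 := hz_eq z i j
    rw [GZ.toC] at h3
    rw [h3, GQ.toC_sc, hrm_toC]
    change _ = (((2 : ℚ) : ℝ) : ℂ) * (1 / 2 * ((z i j).toC + conj (z j i).toC))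
    push_cast
    ring
  rw [h2, uf_sc, ← h1]
  push_cast
  rfl

/-- integral combination of four matrices -/
noncomputable def comb4Z (x0 x1 x2 x3 : ℤ) (a b c d : GZ) : GZ :=
  ⟨Int.sub (Int.mul x0 a.re) (Int.add (Int.mul x1 b.re)
      (Int.add (Int.mul x2 c.re) (Int.mul x3 d.re))),
    Int.sub (Int.mul x0 a.im) (Int.add (Int.mul x1 b.im)
      (Int.add (Int.mul x2 c.im) (Int.mul x3 d.im)))⟩

/-- check of positivity of `A - E (B + S C + M D)` -/
noncomputable def chkZ (K : ℕ) (A B C D : ℕ → ℕ → GZ) (E S M : ℚ) : Bool :=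
  psdL K (triU (fun i j => comb4Z
    (Int.ofNat (Nat.mul E.den (Nat.mul S.den M.den)))
    (Int.mul E.num (Int.ofNat (Nat.mul S.den M.den)))
    (Int.mul E.num (Int.mul S.num (Int.ofNat M.den)))
    (Int.mul E.num (Int.mul M.num (Int.ofNat S.den))) (A i j) (B i j) (C i j) (D i j)) K)

theorem hF_congr (K : ℕ) (F G : ℕ → ℕ → ℂ) (g : ℕ → ℂ)
    (h : ∀ r t, r < K → t < K → F r t = G r t) : hF K F g = hF K G g := by
  rw [hF, hF]
  refine Finset.sum_congr rfl (fun r hr => Finset.sum_congr rfl (fun t ht => ?_))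
  rw [h r t (Finset.mem_range.1 hr) (Finset.mem_range.1 ht)]

theorem chkZ_uf (K : ℕ) (A B C D : ℕ → ℕ → GZ) (E S M : ℚ)
    (h : chkZ K A B C D E S M = true) (g : ℕ → ℂ) :
    0 ≤ uf K (fun i j => (A i j).toQ) g - (E : ℝ) * (uf K (fun i j => (B i j).toQ) g
      + (S : ℝ) * uf K (fun i j => (C i j).toQ) g
      + (M : ℝ) * uf K (fun i j => (D i j).toQ) g) := by
  have h2 := psdT_U K _ h
  have h3 := psdU_sound K _ h2 g
  have hEd : (0 : ℝ) < (E.den : ℝ) := by exact_mod_cast E.den_pos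
  have hSd : (0 : ℝ) < (S.den : ℝ) := by exact_mod_cast S.den_pos
  have hMd : (0 : ℝ) < (M.den : ℝ) := by exact_mod_cast M.den_pos
  obtain ⟨T, hT⟩ : ∃ T : ℚ, T = (E.den : ℚ) * ((S.den : ℚ) * M.den) := ⟨_, rfl⟩
  have e1 : ∀ x y : ℤ, ((Int.add x y : ℤ) : ℚ) = (x : ℚ) + (y : ℚ) := fun x y => by
    change ((x + y : ℤ) : ℚ) = _
    push_cast
    ring
  have e2 : ∀ x y : ℤ, ((Int.mul x y : ℤ) : ℚ) = (x : ℚ) * (y : ℚ) := fun x y => by
    change ((x * y : ℤ) : ℚ) = _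
    push_cast
    ring
  have e3 : ∀ x y : ℤ, ((Int.sub x y : ℤ) : ℚ) = (x : ℚ) - (y : ℚ) := fun x y => by
    change ((x - y : ℤ) : ℚ) = _
    push_cast
    ring
  have e4 : ∀ n : ℕ, ((Int.ofNat n : ℤ) : ℚ) = (n : ℚ) := fun n => Int.cast_natCast n
  have e5 : ∀ n m : ℕ, ((Nat.mul n m : ℕ) : ℚ) = (n : ℚ) * (m : ℚ) := fun n m => by
    change ((n * m : ℕ) : ℚ) = _
    push_cast
    ring
  have e7 : ∀ q : ℚ, (q.num : ℚ) = q * q.den := by
    intro q
    have := Rat.num_div_den q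
    have h2 : ((q.den : ℕ) : ℚ) ≠ 0 := by exact_mod_cast q.den_pos.ne'
    field_simp at this
    linarith
  have h4 : uf K (fun i j => (comb4Z
    (Int.ofNat (Nat.mul E.den (Nat.mul S.den M.den)))
    (Int.mul E.num (Int.ofNat (Nat.mul S.den M.den)))
    (Int.mul E.num (Int.mul S.num (Int.ofNat M.den)))
    (Int.mul E.num (Int.mul M.num (Int.ofNat S.den))) (A i j) (B i j) (C i j)
      (D i j)).toQ) g
      = uf K (fun i j => (((A i j).toQ).sub (((((B i j).toQ).add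
        (((C i j).toQ).sc S)).add (((D i j).toQ).sc M)).sc E)).sc T) g := by
    refine uf_congr K _ _ g (fun i j hij hj => ?_)
    congr 1
    simp only [comb4Z, GZ.toQ, e1, e2, e3, e4, e5, e7 E, e7 S, e7 M, hT]
    simp only [GQ.sub, GQ.sc, GQ.add]
    congr 1 <;> ring
  rw [h4, uf_sc] at h3
  have hT1 : (0 : ℝ) < (T : ℝ) := by
    rw [hT]
    push_cast
    positivity
  have h5 := nonneg_of_mul_nonneg_right h3 hT1
  -- splitting
  have s1 : ∀ P Q : ℕ → ℕ → GQ, uf K (fun i j => (P i j).sub (Q i j)) g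
      = uf K P g - uf K Q g := by
    intro P Q
    have := uf_comb K 1 P Q g
    rw [Rat.cast_one, one_mul] at this
    rw [← this]
    refine uf_congr K _ _ g (fun i j _ _ => ?_)
    rw [GQ.toC_sub, GQ.toC_sub, GQ.toC_sc]
    push_cast
    ring
  have s2 : ∀ P Q : ℕ → ℕ → GQ, uf K (fun i j => (P i j).add (Q i j)) g
      = uf K P g + uf K Q g := by
    intro P Q
    have := s1 P (fun i j => (Q i j).sc (-1))
    rw [uf_sc] at this
    push_cast at this
    have h6 : uf K (fun i j => (P i j).add (Q i j)) g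
        = uf K (fun i j => (P i j).sub ((Q i j).sc (-1))) g := by
      refine uf_congr K _ _ g (fun i j _ _ => ?_)
      rw [GQ.toC_sub, GQ.toC_add, GQ.toC_sc]
      push_cast
      ring
    rw [h6, this]
    ring
  rw [s1, uf_sc, s2, s2, uf_sc, uf_sc] at h5
  exact h5

/-- common denominator of a family -/
noncomputable def lcdC (f : ℕ → ℕ → GQ) (K n : ℕ) : ℕ :=
  Nat.lcm (lcd2 (fun i t => (f i t).re) K n) (lcd2 (fun i t => (f i t).im) K n)

theorem lcdC_pos (f : ℕ → ℕ → GQ) (K n : ℕ) : 0 < lcdC f K n :=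
  Nat.lcm_pos (lcd2_pos _ _ _) (lcd2_pos _ _ _)

/-- a family of vectors with one common denominator -/
noncomputable def cvecU (f : ℕ → ℕ → GQ) (K n t : ℕ) : SV × SV :=
  (⟨lcdC f K n, tabG (fun i => nmr (lcdC f K n) (f i t).re) n⟩,
    ⟨lcdC f K n, tabG (fun i => nmr (lcdC f K n) (f i t).im) n⟩)

theorem DN_cvecU (f : ℕ → ℕ → GQ) (K n t : ℕ) : DN (lcdC f K n) (cvecU f K n t) := ⟨rfl, rfl⟩

theorem SL_cvecU (f : ℕ → ℕ → GQ) (K n t : ℕ) : SL n (cvecU f K n t) := by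
  constructor
  · rw [cvecU, tabG_length]
  · rw [cvecU, tabG_length]

theorem cvecU_get (f : ℕ → ℕ → GQ) (K n : ℕ) {i t : ℕ} (hi : i < n) (ht : t < K) :
    cget (cvecU f K n t) i = f i t := by
  have h1 : (f i t).re.den ∣ lcdC f K n :=
    (den_dvd_lcd2 (fun i t => (f i t).re) K n hi ht).trans (Nat.dvd_lcm_left _ _)
  have h2 : (f i t).im.den ∣ lcdC f K n :=
    (den_dvd_lcd2 (fun i t => (f i t).im) K n hi ht).trans (Nat.dvd_lcm_right _ _)
  rw [cget, SV.get, SV.get, cvecU]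
  simp only
  rw [tabG_getD _ _ hi, tabG_getD _ _ hi, nmr_eq (lcdC_pos _ _ _) h1,
    nmr_eq (lcdC_pos _ _ _) h2]

theorem fnl_cvecU (K : ℕ) (f : ℕ → ℕ → GQ) (m : ℕ) (g : ℕ → ℂ) {i : ℕ} (hi : i < m) :
    fnl K (cvecU f K m) g i = ∑ t ∈ Finset.range K, (f i t).toC * g t := by
  rw [fnl]
  refine Finset.sum_congr rfl (fun t ht => ?_)
  rw [cvecU_get _ _ _ hi (Finset.mem_range.1 ht)]

theorem DN_mvc {a : ℕ} (X : RM) {v : SV × SV} (h : DN a v) : DN (Nat.mul X.den a) (mvc X v) := by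
  obtain ⟨h1, h2⟩ := h
  constructor
  · change Nat.mul X.den v.1.den = _
    rw [h1]
  · change Nat.mul X.den v.2.den = _
    rw [h2]

theorem DN_cdrop {a : ℕ} (j : ℕ) {v : SV × SV} (h : DN a v) : DN a (cdrop j v) := h

end Pool.Agent.Helper65.HR2
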