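import Pool.Agent.Helper65.HR2.Form2
import Pool.Agent.Helper65.HR2.Fast3
import Pool.Agent.Helper65.HR2.ZForm
import Pool.Agent.Helper65.HR2.Point

/-!
MP_16b0ee, project HR2: the pieces of the forms at one point, as families of vectors evaluated in
integer arithmetic.
-/

set_option autoImplicit false

open MeasureTheory Set
open scoped ComplexConjugate Real

namespace Pool.Agent.Helper65.HR2

open Pool.Agent.Helper24.HR2

/-- the data at one point: the data of `AP` (with `N` rows of test vectors and `K` moments) and the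
enclosure of the Gram constant -/
structure AP2 where
  /-- the data -/
  P : AP
  /-- number of moments -/
  K : ℕ
  /-- number of test functions -/
  N : ℕ
  /-- lower bound of the Gram constant -/
  Mlo : ℚ
  /-- upper bound of the Gram constant -/
  Mhi : ℚ

namespace AP2

/-- test vectors -/
noncomputable def Tc (X : AP2) (t : ℕ) : SV × SV := cvecU X.P.Tf X.K X.N t

/-- the functionals -/
noncomputable def muc (X : AP2) (t : ℕ) : SV × SV := cvecU (muQ X.P.s) X.K X.N t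

/-- moments of the test vectors -/
noncomputable def Gc (X : AP2) (t : ℕ) : SV × SV :=
  mvc (rm (fun i j => gmQ X.P.s.re X.P.b (i + j)) X.N X.N) (X.Tc t)

/-- projections -/
noncomputable def Uc (X : AP2) (t : ℕ) : SV × SV :=
  mvc (rm (fun l n => X.P.pf n l) X.P.D X.P.D) (X.Gc t)

/-- Gram matrix, constant part -/
noncomputable def Mc0 (X : AP2) (t : ℕ) : SV × SV :=
  mvc (rm (fun i j => (mmQ X.P.s.re X.P.b i j).c0) X.N X.N) (X.Tc t)

/-- Gram matrix, first part -/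
noncomputable def Mc1 (X : AP2) (t : ℕ) : SV × SV :=
  mvc (rm (fun i j => (mmQ X.P.s.re X.P.b i j).c1) X.N X.N) (X.Tc t)

/-- Gram matrix, second part -/
noncomputable def Mc2 (X : AP2) (t : ℕ) : SV × SV :=
  mvc (rm (fun i j => (mmQ X.P.s.re X.P.b i j).c2) X.N X.N) (X.Tc t)

/-- differences of the series, constant part -/
noncomputable def Sc0 (X : AP2) (t : ℕ) : SV × SV :=
  mvc (rm (fun l n => (ssQ X.P.s.re X.P.b n l).1 - (ssQ X.P.s.re X.P.b n (l + 1)).1)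
    (X.P.D + 1) X.N) (X.Tc t)

/-- differences of the series, linear part -/
noncomputable def Sc1 (X : AP2) (t : ℕ) : SV × SV :=
  mvc (rm (fun l n => (ssQ X.P.s.re X.P.b n l).2 - (ssQ X.P.s.re X.P.b n (l + 1)).2)
    (X.P.D + 1) X.N) (X.Tc t)

/-- weighted projections -/
noncomputable def Wc (X : AP2) (t : ℕ) : SV × SV :=
  mvc (rm (fun l m => wQ X.P.b (l + m + 1)) (X.P.D + 1) X.P.D) (X.Uc t)

/-- the inner function -/
noncomputable def Pc (X : AP2) (t : ℕ) : SV × SV :=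
  cvecU (phQ X.P.s X.P.D X.P.pf) X.K (X.P.D + 1) t

/-- its main part -/
noncomputable def Dc (X : AP2) (t : ℕ) : SV × SV :=
  mvc (rm (fun l k => wQ X.P.b (l + k)) (X.P.D + 1) (X.P.D + 1)) (X.Pc t)

/-- its cross part -/
noncomputable def Cc (X : AP2) (t : ℕ) : SV × SV :=
  mvc (wwM X.P.s.re X.P.b X.P.D X.P.pf X.P.J2 X.P.th) (X.Pc t)

section pieces

variable (X : AP2) (g : ℕ → ℂ)

theorem fTc {n : ℕ} (hn : n < X.N) : fnl X.K X.Tc g n = Tg X.K X.P.TC g n := by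
  have := fnl_cvecU X.K X.P.Tf X.N g hn
  rw [Tg]
  exact this

theorem fmuc {n : ℕ} (hn : n < X.N) : fnl X.K X.muc g n = muS X.P.sC X.K g n := by
  have := fnl_cvecU X.K (muQ X.P.s) X.N g hn
  rw [AP.sC, muQ_eq]
  exact this

theorem fPc {l : ℕ} (hl : l < X.P.D + 1) : fnl X.K X.Pc g l
    = FF X.P.sC X.P.D X.P.pR (muS X.P.sC X.K g) l := by
  have := fnl_cvecU X.K (phQ X.P.s X.P.D X.P.pf) (X.P.D + 1) g hl
  have h2 := phQ_eq X.P.s X.P.D X.P.pf X.K g l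
  exact this.trans h2.symm

theorem fGc {n : ℕ} (hn : n < X.N) : fnl X.K X.Gc g n
    = ∑ k ∈ Finset.range X.N, ((Gm X.P.sC X.P.bR (n + k) : ℝ) : ℂ)
      * Tg X.K X.P.TC g k := by
  have := fnl_mvc X.K (fun i j => gmQ X.P.s.re X.P.b (i + j)) X.N X.N X.Tc g hn
  refine this.trans (Finset.sum_congr rfl (fun k hk => ?_))
  rw [X.fTc g (Finset.mem_range.1 hk)]
  congr 2
  exact gmQ_eq (s := X.P.sC) rfl (n + k)

theorem fUc (hD : X.P.D ≤ X.N) {l : ℕ} (hl : l < X.P.D) : fnl X.K X.Uc g l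
    = UU X.P.sC X.P.bR X.N X.P.D X.P.pR (Tg X.K X.P.TC g) l := by
  have := fnl_mvc X.K (fun l n => X.P.pf n l) X.P.D X.P.D X.Gc g hl
  refine this.trans ?_
  rw [UU]
  have h1 : ∀ n ∈ Finset.range X.P.D, ((X.P.pf n l : ℝ) : ℂ) * fnl X.K X.Gc g n
      = ∑ k ∈ Finset.range X.N, ((X.P.pR n l * Gm X.P.sC X.P.bR (k + n) : ℝ) : ℂ)
        * Tg X.K X.P.TC g k := by
    intro n hn
    rw [X.fGc g (lt_of_lt_of_le (Finset.mem_range.1 hn) hD), Finset.mul_sum]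
    refine Finset.sum_congr rfl (fun k _ => ?_)
    rw [add_comm n k, AP.pR]
    push_cast
    ring
  rw [Finset.sum_congr rfl h1, Finset.sum_comm]
  refine Finset.sum_congr rfl (fun k _ => ?_)
  rw [← Finset.sum_mul, pil]
  push_cast
  rfl

theorem fWc (hD : X.P.D ≤ X.N) {l : ℕ} (hl : l < X.P.D + 1) : fnl X.K X.Wc g l
    = ∑ m ∈ Finset.range X.P.D, ((1 / ((X.P.bR + l + m + 1) * (X.P.bR + l + m + 2)) : ℝ) : ℂ)
      * UU X.P.sC X.P.bR X.N X.P.D X.P.pR (Tg X.K X.P.TC g) m := by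
  have := fnl_mvc X.K (fun l m => wQ X.P.b (l + m + 1)) (X.P.D + 1) X.P.D X.Uc g hl
  refine this.trans (Finset.sum_congr rfl (fun m hm => ?_))
  rw [X.fUc g hD (Finset.mem_range.1 hm)]
  congr 2
  rw [wQ, AP.bR]
  push_cast
  congr 1
  ring

theorem fSc {l : ℕ} (hl : l < X.P.D + 1) (hs : -1 < X.P.sC.re) (hb : 0 < (X.P.b : ℝ))
    (hσ : 0 < (X.P.b : ℝ) + 1 - 2 * X.P.sC.re) :
    fnl X.K X.Sc0 g l + ((SS X.P.sC X.P.bR 0 1 : ℝ) : ℂ) * fnl X.K X.Sc1 g l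
      = VV X.P.sC X.P.bR X.N (Tg X.K X.P.TC g) l := by
  have h0 := fnl_mvc X.K (fun l n => (ssQ X.P.s.re X.P.b n l).1
    - (ssQ X.P.s.re X.P.b n (l + 1)).1) (X.P.D + 1) X.N X.Tc g hl
  have h1 := fnl_mvc X.K (fun l n => (ssQ X.P.s.re X.P.b n l).2
    - (ssQ X.P.s.re X.P.b n (l + 1)).2) (X.P.D + 1) X.N X.Tc g hl
  have e0 : fnl X.K X.Sc0 g l = _ := h0
  have e1 : fnl X.K X.Sc1 g l = _ := h1
  rw [e0, e1, VV, Finset.mul_sum, ← Finset.sum_add_distrib]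
  refine Finset.sum_congr rfl (fun n hn => ?_)
  rw [X.fTc g (Finset.mem_range.1 hn)]
  have e2 : SS X.P.sC X.P.bR n l = _ := ssQ_eq (s := X.P.sC) rfl hs hb hσ n l
  have e3 : SS X.P.sC X.P.bR n (l + 1) = _ := ssQ_eq (s := X.P.sC) rfl hs hb hσ n (l + 1)
  rw [e2, e3, av, av]
  have e4 : SS X.P.sC X.P.bR 0 1 = SS X.P.sC (X.P.b : ℝ) 0 1 := rfl
  rw [e4]
  push_cast
  ring

theorem fMc {n : ℕ} (hn : n < X.N) (hs : -1 < X.P.sC.re) (hb : 0 < (X.P.b : ℝ))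
    (hσ : 0 < (X.P.b : ℝ) + 1 - 2 * X.P.sC.re) :
    fnl X.K X.Mc0 g n + ((SS X.P.sC X.P.bR 0 1 : ℝ) : ℂ) * fnl X.K X.Mc1 g n
        + ((MM X.P.sC X.P.bR 0 0 : ℝ) : ℂ) * fnl X.K X.Mc2 g n
      = ∑ k ∈ Finset.range X.N, ((MM X.P.sC X.P.bR n k : ℝ) : ℂ) * Tg X.K X.P.TC g k := by
  have e0 : fnl X.K X.Mc0 g n = _ :=
    fnl_mvc X.K (fun i j => (mmQ X.P.s.re X.P.b i j).c0) X.N X.N X.Tc g hn
  have e1 : fnl X.K X.Mc1 g n = _ :=
    fnl_mvc X.K (fun i j => (mmQ X.P.s.re X.P.b i j).c1) X.N X.N X.Tc g hn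
  have e2 : fnl X.K X.Mc2 g n = _ :=
    fnl_mvc X.K (fun i j => (mmQ X.P.s.re X.P.b i j).c2) X.N X.N X.Tc g hn
  rw [e0, e1, e2, Finset.mul_sum, Finset.mul_sum, ← Finset.sum_add_distrib,
    ← Finset.sum_add_distrib]
  refine Finset.sum_congr rfl (fun k hk => ?_)
  rw [X.fTc g (Finset.mem_range.1 hk)]
  have e3 : MM X.P.sC X.P.bR n k = _ := mmQ_eq (s := X.P.sC) rfl hs hb hσ n k
  rw [e3, tv]
  have e4 : SS X.P.sC X.P.bR 0 1 = SS X.P.sC (X.P.b : ℝ) 0 1 := rfl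
  have e5 : MM X.P.sC X.P.bR 0 0 = MM X.P.sC (X.P.b : ℝ) 0 0 := rfl
  rw [e4, e5]
  push_cast
  ring

theorem fDc {l : ℕ} (hl : l < X.P.D + 1) : fnl X.K X.Dc g l
    = ∑ k ∈ Finset.range (X.P.D + 1), ((1 / ((X.P.bR + l + k) * (X.P.bR + l + k + 1)) : ℝ) : ℂ)
      * FF X.P.sC X.P.D X.P.pR (muS X.P.sC X.K g) k := by
  have := fnl_mvc X.K (fun l k => wQ X.P.b (l + k)) (X.P.D + 1) (X.P.D + 1) X.Pc g hl
  refine this.trans (Finset.sum_congr rfl (fun k hk => ?_))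
  rw [X.fPc g (Finset.mem_range.1 hk)]
  congr 2
  rw [wQ, AP.bR]
  push_cast
  congr 1
  ring

end pieces

section forms

variable (X : AP2) (g : ℕ → ℂ)

theorem fm_lin : hF X.K (fun r t => (ip (X.Tc r) (X.muc t)).toC) g * 2
    = linF X.P.sC X.K X.N g (Tg X.K X.P.TC g) := by
  rw [ipF_eq X.K X.N X.Tc X.muc (fun r => SL_cvecU _ _ _ _), linF, mul_comm, Complex.re_sum]
  congr 1
  refine Finset.sum_congr rfl (fun n hn => ?_)
  rw [X.fTc g (Finset.mem_range.1 hn), X.fmuc g (Finset.mem_range.1 hn), mul_comm]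

theorem fm_gam : hF X.K (fun r t => (ip (X.Tc r) (X.Gc t)).toC) g
    = gamF X.P.sC X.P.bR X.N (Tg X.K X.P.TC g) := by
  rw [ipF_eq X.K X.N X.Tc X.Gc (fun r => SL_cvecU _ _ _ _), gamF]
  refine Finset.sum_congr rfl (fun n hn => ?_)
  rw [X.fTc g (Finset.mem_range.1 hn), X.fGc g (Finset.mem_range.1 hn), Finset.sum_mul,
    Complex.re_sum]
  refine Finset.sum_congr rfl (fun k _ => ?_)
  rw [mul_assoc, Complex.re_ofReal_mul, re_symm]

theorem fm_D : hF X.K (fun r t => (ip (X.Pc r) (X.Dc t)).toC) g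
    = Nmain X.P.bR X.P.D (FF X.P.sC X.P.D X.P.pR (muS X.P.sC X.K g)) := by
  rw [ipF_eq X.K (X.P.D + 1) X.Pc X.Dc (fun r => SL_cvecU _ _ _ _), Nmain]
  refine Finset.sum_congr rfl (fun l hl => ?_)
  rw [X.fPc g (Finset.mem_range.1 hl), X.fDc g (Finset.mem_range.1 hl), Finset.sum_mul,
    Complex.re_sum]
  refine Finset.sum_congr rfl (fun k _ => ?_)
  rw [mul_assoc, Complex.re_ofReal_mul, re_symm, one_div_mul_eq_div]

theorem fm_C (hs : -1 < X.P.sC.re) (hb : 0 < X.P.b) (hDJ : X.P.D ≤ X.P.J2) :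
    hF X.K (fun r t => (ip (X.Pc r) (X.Cc t)).toC) g
    = hF X.K (fun i j => (bil (X.P.D + 1) (X.P.D + 1) (WQ X.P.s.re X.P.b X.P.D X.P.pf X.P.J2 X.P.th)
        (phQ X.P.s X.P.D X.P.pf) (phQ X.P.s X.P.D X.P.pf) i j).toC) g := by
  rw [ipF_eq X.K (X.P.D + 1) X.Pc X.Cc (fun r => SL_cvecU _ _ _ _), bil_eq]
  refine Finset.sum_congr rfl (fun l hl => ?_)
  have hl' := Finset.mem_range.1 hl
  have hr1 : 0 < X.P.s.re + 1 := by
    have h1 : X.P.sC.re = ((X.P.s.re : ℚ) : ℝ) := rfl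
    rw [h1] at hs
    have h2 : (0 : ℝ) < ((X.P.s.re + 1 : ℚ) : ℝ) := by
      push_cast
      linarith
    exact_mod_cast h2
  have e1 : fnl X.K X.Cc g l = ∑ k ∈ Finset.range (X.P.D + 1),
      (((WQ X.P.s.re X.P.b X.P.D X.P.pf X.P.J2 X.P.th l k : ℚ) : ℝ) : ℂ) * fnl X.K X.Pc g k := by
    rw [fnl]
    have h : ∀ t ∈ Finset.range X.K, (cget (X.Cc t) l).toC * g t
        = ∑ j ∈ Finset.range (X.P.D + 1),
          (((WQ X.P.s.re X.P.b X.P.D X.P.pf X.P.J2 X.P.th l j : ℚ) : ℝ) : ℂ)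
            * ((cget (X.Pc t) j).toC * g t) := by
      intro t _
      have h1 := mvc_get' (wwM X.P.s.re X.P.b X.P.D X.P.pf X.P.J2 X.P.th).den
        (wwE X.P.s.re X.P.b X.P.D X.P.pf X.P.J2 X.P.th) (X.P.D + 1) (X.P.D + 1) (X.Pc t) hl'
      have h2 : (cget (X.Cc t) l).toC = _ := h1
      rw [h2, Finset.sum_mul]
      refine Finset.sum_congr rfl (fun j hj => ?_)
      rw [wwE_eq _ _ _ _ _ hr1 hb hDJ _ hl' (Finset.mem_range.1 hj)]
      ring
    rw [Finset.sum_congr rfl h, Finset.sum_comm]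
    refine Finset.sum_congr rfl (fun j _ => ?_)
    rw [fnl, Finset.mul_sum]
  have e2 : ∀ i, i ∈ Finset.range (X.P.D + 1) → fnl X.K X.Pc g i
      = ∑ t ∈ Finset.range X.K, (phQ X.P.s X.P.D X.P.pf i t).toC * g t := fun i hi =>
    fnl_cvecU X.K (phQ X.P.s X.P.D X.P.pf) (X.P.D + 1) g (Finset.mem_range.1 hi)
  rw [e1, Finset.sum_mul, Complex.re_sum]
  refine Finset.sum_congr rfl (fun k hk => ?_)
  rw [mul_assoc, Complex.re_ofReal_mul, re_symm, e2 l hl, e2 k hk]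

end forms

end AP2

end Pool.Agent.Helper65.HR2
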