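import Pool.Agent.Helper65.HR2.Mat

/-!
MP_16b0ee, project HR2: vectors of rational numbers with a common denominator; scalar products by
integer arithmetic, for fast evaluation in the kernel.
-/

set_option autoImplicit false

open scoped ComplexConjugate

namespace Pool.Agent.Helper65.HR2

/-- scalar product of lists of integers -/
noncomputable def dotI : List ℤ → List ℤ → ℤ :=
  List.rec (motive := fun _ => List ℤ → ℤ) (fun _ => 0)
    (fun a _ ih v => List.rec (motive := fun _ => ℤ) 0
      (fun b t _ => Int.add (Int.mul a b) (ih t)) v)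

theorem dotI_nil (v : List ℤ) : dotI [] v = 0 := rfl

theorem dotI_cons_nil (a : ℤ) (u : List ℤ) : dotI (a :: u) [] = 0 := rfl

theorem dotI_cons (a b : ℤ) (u v : List ℤ) : dotI (a :: u) (b :: v) = a * b + dotI u v := rfl

theorem dotI_eq (u : List ℤ) : ∀ (v : List ℤ) (n : ℕ), u.length ≤ n →
    dotI u v = ∑ i ∈ Finset.range n, u.getD i 0 * v.getD i 0 := by
  induction u with
  | nil =>
    intro v n _
    rw [dotI_nil]
    simp
  | cons a u ih =>
    intro v n hn
    obtain ⟨m, rfl⟩ : ∃ m, n = m + 1 := by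
      rcases n with _ | m
      · simp at hn
      · exact ⟨m, rfl⟩
    have hm : u.length ≤ m := by simpa using hn
    rcases v with _ | ⟨b, v⟩
    · rw [dotI_cons_nil]
      simp
    · rw [dotI_cons, ih v m hm, Finset.sum_range_succ']
      simp
      ring

/-- dropping the first elements -/
noncomputable def dropI : ℕ → List ℤ → List ℤ :=
  Nat.rec (motive := fun _ => List ℤ → List ℤ) (fun l => l)
    (fun _ ih l => List.rec (motive := fun _ => List ℤ) [] (fun _ t _ => ih t) l)

theorem dropI_getD (i : ℕ) : ∀ (l : List ℤ) (j : ℕ), (dropI i l).getD j 0 = l.getD (i + j) 0 := by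
  induction i with
  | zero =>
    intro l j
    rw [Nat.zero_add]
    rfl
  | succ i ih =>
    intro l j
    rcases l with _ | ⟨a, l⟩
    · change ([] : List ℤ).getD j 0 = _
      simp
    · change (dropI i l).getD j 0 = _
      rw [ih l j, Nat.succ_add]
      rfl

theorem dropI_length (i : ℕ) : ∀ l : List ℤ, (dropI i l).length ≤ l.length := by
  induction i with
  | zero => intro l; exact le_rfl
  | succ i ih =>
    intro l
    rcases l with _ | ⟨a, l⟩
    · exact le_rfl
    · change (dropI i l).length ≤ _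
      exact (ih l).trans (by simp)

/-- a vector with a common denominator -/
structure SV where
  /-- denominator -/
  den : ℕ
  /-- numerators -/
  num : List ℤ

/-- an entry -/
def SV.get (v : SV) (i : ℕ) : ℚ := (v.num.getD i 0 : ℚ) / v.den

/-- dropping the first entries -/
noncomputable def sdrop (i : ℕ) (v : SV) : SV := ⟨v.den, dropI i v.num⟩

theorem sdrop_get (i : ℕ) (v : SV) (j : ℕ) : (sdrop i v).get j = v.get (i + j) := by
  rw [SV.get, SV.get, sdrop, dropI_getD]

/-- scalar product -/
noncomputable def sdot (u v : SV) : ℚ := mkRat (dotI u.num v.num) (Nat.mul u.den v.den)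

theorem sdot_eq (u v : SV) (n : ℕ) (h : u.num.length ≤ n) :
    sdot u v = ∑ i ∈ Finset.range n, u.get i * v.get i := by
  rw [sdot, Rat.mkRat_eq_div, dotI_eq _ _ n h]
  simp only [SV.get]
  rw [show ((Nat.mul u.den v.den : ℕ) : ℚ) = (u.den : ℚ) * v.den from by
    rw [← Nat.cast_mul]; rfl]
  push_cast
  rw [Finset.sum_div]
  refine Finset.sum_congr rfl (fun i _ => ?_)
  rw [div_mul_div_comm]

/-- the least common denominator -/
noncomputable def lcd (f : ℕ → ℚ) : ℕ → ℕ :=
  Nat.rec (motive := fun _ => ℕ) 1 (fun n ih => Nat.lcm ih (f n).den)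

theorem lcd_pos (f : ℕ → ℚ) (n : ℕ) : 0 < lcd f n := by
  induction n with
  | zero => exact Nat.one_pos
  | succ n ih => exact Nat.lcm_pos ih (f n).den_pos

theorem den_dvd_lcd (f : ℕ → ℚ) (n : ℕ) {i : ℕ} (hi : i < n) : (f i).den ∣ lcd f n := by
  induction n with
  | zero => omega
  | succ n ih =>
    change (f i).den ∣ Nat.lcm (lcd f n) (f n).den
    rcases Nat.lt_succ_iff_lt_or_eq.1 hi with h | h
    · exact (ih h).trans (Nat.dvd_lcm_left _ _)
    · rw [h]
      exact Nat.dvd_lcm_right _ _

/-- the numerator of `q` over the denominator `L` -/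
noncomputable def nmr (L : ℕ) (q : ℚ) : ℤ := Int.mul q.num (Int.ofNat (Nat.div L q.den))

theorem nmr_eq {L : ℕ} (hL : 0 < L) {q : ℚ} (h : q.den ∣ L) : (nmr L q : ℚ) / L = q := by
  obtain ⟨k, rfl⟩ := h
  have hk : Nat.div (q.den * k) q.den = k := Nat.mul_div_cancel_left k q.den_pos
  have e : nmr (q.den * k) q = q.num * (k : ℤ) := by
    rw [nmr, hk]
    rfl
  rw [e]
  have hk0 : (k : ℚ) ≠ 0 := by
    intro h0
    have : k = 0 := by exact_mod_cast h0
    rw [this] at hL
    simp at hL
  have hd : (q.den : ℚ) ≠ 0 := by exact_mod_cast q.den_pos.ne'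
  push_cast
  rw [mul_div_mul_right _ _ hk0]
  exact Rat.num_div_den q

/-- list of the values of a function (the indices are literals in the kernel) -/
noncomputable def tabG {α : Type} (f : ℕ → α) (n : ℕ) : List α :=
  Nat.rec (motive := fun _ => List α → List α) (fun acc => acc)
    (fun k ih acc => ih (f k :: acc)) n []

theorem tabG_eq {α : Type} (f : ℕ → α) (n : ℕ) : tabG f n = (List.range n).map f := by
  have h : ∀ (n : ℕ) (acc : List α), (Nat.rec (motive := fun _ => List α → List α)
      (fun acc => acc) (fun k ih acc => ih (f k :: acc)) n acc : List α)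
      = (List.range n).map f ++ acc := by
    intro n
    induction n with
    | zero => intro acc; rfl
    | succ n ih =>
      intro acc
      change (Nat.rec (motive := fun _ => List α → List α)
        (fun acc => acc) (fun k ih acc => ih (f k :: acc)) n (f n :: acc) : List α) = _
      rw [ih, List.range_succ, List.map_append, List.append_assoc]
      rfl
  rw [tabG, h, List.append_nil]

theorem tabG_length {α : Type} (f : ℕ → α) (n : ℕ) : (tabG f n).length = n := by
  rw [tabG_eq, List.length_map, List.length_range]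

theorem tabG_getElem {α : Type} (f : ℕ → α) (n : ℕ) {j : ℕ} (h : j < n) :
    (tabG f n)[j]? = some (f j) := by
  rw [tabG_eq, List.getElem?_map, List.getElem?_range h]
  rfl

theorem tabG_getD {α : Type} (f : ℕ → α) (n : ℕ) {j : ℕ} (h : j < n) (d : α) :
    (tabG f n).getD j d = f j := by
  rw [List.getD_eq_getElem?_getD, tabG_getElem f n h]
  rfl

/-- a vector from a function -/
noncomputable def sv (f : ℕ → ℚ) (n : ℕ) : SV :=
  ⟨lcd f n, tabG (fun i => nmr (lcd f n) (f i)) n⟩

theorem sv_length (f : ℕ → ℚ) (n : ℕ) : (sv f n).num.length = n := tabG_length _ _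

theorem sv_get (f : ℕ → ℚ) (n : ℕ) {i : ℕ} (hi : i < n) : (sv f n).get i = f i := by
  rw [SV.get, sv]
  simp only
  rw [tabG_getD _ _ hi]
  exact nmr_eq (lcd_pos f n) (den_dvd_lcd f n hi)

/-- a vector given by scalar products with a vector and with its shifts -/
noncomputable def conv (n : ℕ) (c g : SV) : SV :=
  ⟨Nat.mul c.den g.den, tabG (fun i => dotI c.num (dropI i g.num)) n⟩

theorem conv_length (n : ℕ) (c g : SV) : (conv n c g).num.length = n := tabG_length _ _

theorem conv_get (n : ℕ) (c g : SV) {i : ℕ} (hi : i < n) :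
    (conv n c g).get i = sdot c (sdrop i g) := by
  rw [SV.get, conv]
  simp only
  rw [tabG_getD _ _ hi, sdot, Rat.mkRat_eq_div, sdrop]

/-- a matrix with a common denominator -/
structure RM where
  /-- denominator -/
  den : ℕ
  /-- rows -/
  rows : List (List ℤ)

/-- the least common denominator of a matrix -/
noncomputable def lcd2 (f : ℕ → ℕ → ℚ) (m' : ℕ) : ℕ → ℕ :=
  Nat.rec (motive := fun _ => ℕ) 1 (fun n ih => Nat.lcm ih (lcd (f n) m'))

theorem lcd2_pos (f : ℕ → ℕ → ℚ) (m' n : ℕ) : 0 < lcd2 f m' n := by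
  induction n with
  | zero => exact Nat.one_pos
  | succ n ih => exact Nat.lcm_pos ih (lcd_pos (f n) m')

theorem den_dvd_lcd2 (f : ℕ → ℕ → ℚ) (m' n : ℕ) {i j : ℕ} (hi : i < n) (hj : j < m') :
    (f i j).den ∣ lcd2 f m' n := by
  induction n with
  | zero => omega
  | succ n ih =>
    change (f i j).den ∣ Nat.lcm (lcd2 f m' n) (lcd (f n) m')
    rcases Nat.lt_succ_iff_lt_or_eq.1 hi with h | h
    · exact (ih h).trans (Nat.dvd_lcm_left _ _)
    · rw [h]
      exact (den_dvd_lcd (f n) m' hj).trans (Nat.dvd_lcm_right _ _)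

/-- a matrix from a function -/
noncomputable def rm (f : ℕ → ℕ → ℚ) (m m' : ℕ) : RM :=
  ⟨lcd2 f m' m, tabG (fun i => tabG (fun j => nmr (lcd2 f m' m) (f i j)) m') m⟩

/-- product of a matrix and a vector -/
noncomputable def mv (X : RM) (v : SV) : SV :=
  ⟨Nat.mul X.den v.den, List.rec (motive := fun _ => List ℤ) []
    (fun row _ ih => dotI row v.num :: ih) X.rows⟩

theorem mv_num (X : RM) (v : SV) : (mv X v).num = X.rows.map (fun row => dotI row v.num) := by
  rw [mv]
  simp only
  induction X.rows with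
  | nil => rfl
  | cons a l ih =>
    rw [List.map_cons, ← ih]

theorem mv_get (f : ℕ → ℕ → ℚ) (m m' : ℕ) (v : SV) {i : ℕ} (hi : i < m) :
    (mv (rm f m m') v).get i = ∑ j ∈ Finset.range m', f i j * v.get j := by
  rw [SV.get, mv_num]
  have h1 : ((rm f m m').rows.map (fun row => dotI row v.num)).getD i 0
      = dotI (tabG (fun j => nmr (lcd2 f m' m) (f i j)) m') v.num := by
    rw [List.getD_eq_getElem?_getD, List.getElem?_map, rm]
    simp only
    rw [tabG_getElem _ _ hi]
    rfl
  rw [h1, dotI_eq _ _ m' (by rw [tabG_length])]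
  have h2 : (((mv (rm f m m') v).den : ℕ) : ℚ) = (lcd2 f m' m : ℚ) * v.den := by
    rw [← Nat.cast_mul]
    rfl
  rw [h2]
  push_cast
  rw [Finset.sum_div]
  refine Finset.sum_congr rfl (fun j hj => ?_)
  have hj' := Finset.mem_range.1 hj
  rw [tabG_getD _ _ hj', ← div_mul_div_comm,
    nmr_eq (lcd2_pos f m' m) (den_dvd_lcd2 f m' m hi hj'), SV.get]

theorem mv_length (f : ℕ → ℕ → ℚ) (m m' : ℕ) (v : SV) : (mv (rm f m m') v).num.length = m := by
  rw [mv_num, List.length_map, rm]
  exact tabG_length _ _

end Pool.Agent.Helper65.HR2
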