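import Pool.Agent.Helper65.HR2.Fast

/-!
MP_16b0ee, project HR2: fast evaluation of the matrices of the forms.
-/

set_option autoImplicit false

open scoped ComplexConjugate

namespace Pool.Agent.Helper65.HR2

open Pool.Agent.Helper24.HR2

/-- a vector of Gaussian rationals -/
noncomputable def cvec (f : ℕ → GQ) (n : ℕ) : SV × SV :=
  (sv (fun i => (f i).re) n, sv (fun i => (f i).im) n)

/-- an entry -/
def cget (u : SV × SV) (i : ℕ) : GQ := ⟨u.1.get i, u.2.get i⟩

theorem cvec_get (f : ℕ → GQ) (n : ℕ) {i : ℕ} (hi : i < n) : cget (cvec f n) i = f i := by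
  rw [cget, cvec]
  simp only
  rw [sv_get _ _ hi, sv_get _ _ hi]

/-- the Hermitian product -/
noncomputable def ip (u v : SV × SV) : GQ :=
  ⟨sdot u.1 v.1 + sdot u.2 v.2, sdot u.1 v.2 - sdot u.2 v.1⟩

theorem ip_eq (u v : SV × SV) (n : ℕ) (h1 : u.1.num.length ≤ n) (h2 : u.2.num.length ≤ n) :
    (ip u v).toC = ∑ i ∈ Finset.range n, conj (cget u i).toC * (cget v i).toC := by
  rw [ip, sdot_eq _ _ n h1, sdot_eq _ _ n h2, sdot_eq _ _ n h1, sdot_eq _ _ n h2]
  apply Complex.ext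
  · rw [GQ.toC_re, Complex.re_sum]
    push_cast
    rw [← Finset.sum_add_distrib]
    refine Finset.sum_congr rfl (fun i _ => ?_)
    simp [GQ.toC, cget]
  · rw [GQ.toC_im, Complex.im_sum]
    push_cast
    rw [← Finset.sum_sub_distrib]
    refine Finset.sum_congr rfl (fun i _ => ?_)
    simp [GQ.toC, cget]
    ring

/-- product of a real matrix and a complex vector -/
noncomputable def mvc (X : RM) (v : SV × SV) : SV × SV := (mv X v.1, mv X v.2)

theorem mvc_get (f : ℕ → ℕ → ℚ) (m m' : ℕ) (v : SV × SV) {i : ℕ} (hi : i < m) :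
    (cget (mvc (rm f m m') v) i).toC
      = ∑ j ∈ Finset.range m', ((f i j : ℝ) : ℂ) * (cget v j).toC := by
  rw [cget, mvc]
  simp only
  rw [mv_get _ _ _ _ hi, mv_get _ _ _ _ hi]
  apply Complex.ext
  · rw [GQ.toC_re, Complex.re_sum]
    push_cast
    refine Finset.sum_congr rfl (fun j _ => ?_)
    simp [GQ.toC, cget]
  · rw [GQ.toC_im, Complex.im_sum]
    push_cast
    refine Finset.sum_congr rfl (fun j _ => ?_)
    simp [GQ.toC, cget]

/-- fast form of `bil` -/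
noncomputable def bilF (m m' : ℕ) (w : ℕ → ℕ → ℚ) (A B : ℕ → ℕ → GQ) (r t : ℕ) : GQ :=
  ip (cvec (fun k => B k r) m') (mvc (rm (fun k l => w l k) m' m) (cvec (fun l => A l t) m))

theorem bilF_eq (m m' : ℕ) (w : ℕ → ℕ → ℚ) (A B : ℕ → ℕ → GQ) (r t : ℕ) :
    (bilF m m' w A B r t).toC = (bil m m' w A B r t).toC := by
  rw [bilF, ip_eq _ _ m' (by rw [cvec, sv_length]) (by rw [cvec, sv_length])]
  have h1 : ∀ k ∈ Finset.range m', conj (cget (cvec (fun k => B k r) m') k).toC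
      * (cget (mvc (rm (fun k l => w l k) m' m) (cvec (fun l => A l t) m)) k).toC
      = ∑ l ∈ Finset.range m, (A l t).toC * (((w l k : ℝ) : ℂ) * conj (B k r).toC) := by
    intro k hk
    have hk' := Finset.mem_range.1 hk
    rw [cvec_get _ _ hk', mvc_get _ _ _ _ hk', Finset.mul_sum]
    refine Finset.sum_congr rfl (fun l hl => ?_)
    rw [cvec_get _ _ (Finset.mem_range.1 hl)]
    ring
  rw [Finset.sum_congr rfl h1, Finset.sum_comm, bil, smG_eq]
  refine Finset.sum_congr rfl (fun l _ => ?_)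
  rw [GQ.toC_mul, smG_eq, Finset.mul_sum]
  refine Finset.sum_congr rfl (fun k _ => ?_)
  rw [GQ.toC_sc, GQ.toC_cj]

/-- fast form of `linM` -/
noncomputable def linF' (s : GQ) (N : ℕ) (T : ℕ → ℕ → GQ) (r t : ℕ) : GQ :=
  (ip (cvec (fun n => T n r) N) (cvec (fun n => muQ s n t) N)).sc 2

theorem linF'_eq (s : GQ) (N : ℕ) (T : ℕ → ℕ → GQ) (r t : ℕ) :
    (linF' s N T r t).toC = (linM s N T r t).toC := by
  rw [linF', linM, GQ.toC_sc, GQ.toC_sc, smG_eq,
    ip_eq _ _ N (by rw [cvec, sv_length]) (by rw [cvec, sv_length])]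
  congr 1
  refine Finset.sum_congr rfl (fun n hn => ?_)
  have hn' := Finset.mem_range.1 hn
  rw [cvec_get _ _ hn', cvec_get _ _ hn', GQ.toC_mul, GQ.toC_cj, mul_comm]

/-- the moments as a vector -/
noncomputable def gmV (r b : ℚ) (J : ℕ) : SV := sv (gmQ r b) (Nat.mul 2 J)

/-- the cross functions as vectors -/
noncomputable def cJV (b : ℚ) (D : ℕ) (p : ℕ → ℕ → ℚ) (J l : ℕ) : SV := sv (cJQ b D p l) J

/-- fast form of `WQ` -/
noncomputable def WF (r b : ℚ) (D : ℕ) (p : ℕ → ℕ → ℚ) (J : ℕ) (th : ℚ) (l k : ℕ) : ℚ :=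
  (1 + th) * sdot (cJV b D p J l) (conv J (cJV b D p J k) (gmV r b J))
    + if l = k then (1 + 1 / th) * gmQ r b (2 * J)
      * sm (fun l' => 1 / (b + l' + 1 + J)) (D + 1) * (1 / (b + l + 1 + J)) else 0

theorem sm_rat (f : ℕ → ℚ) (n : ℕ) : sm f n = ∑ i ∈ Finset.range n, f i := by
  induction n with
  | zero => simp [sm]
  | succ n ih => rw [sm, Finset.sum_range_succ, ← ih]

theorem WF_eq (r b : ℚ) (D : ℕ) (p : ℕ → ℕ → ℚ) (J : ℕ) (th : ℚ) (l k : ℕ) :
    WF r b D p J th l k = WQ r b D p J th l k := by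
  rw [WF, WQ]
  congr 2
  rw [sdot_eq _ _ J (by rw [cJV, sv_length]), sm_rat]
  refine Finset.sum_congr rfl (fun i hi => ?_)
  have hi' := Finset.mem_range.1 hi
  rw [conv_get _ _ _ hi', cJV, sv_get _ _ hi', cJV, sdot_eq _ _ J (by rw [sv_length]), vQ, sm_rat]
  congr 1
  refine Finset.sum_congr rfl (fun j hj => ?_)
  have hj' := Finset.mem_range.1 hj
  rw [sv_get _ _ hj', sdrop_get, gmV, sv_get _ _ (show i + j < Nat.mul 2 J from by
    change i + j < 2 * J
    omega), mul_comm]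

/-- fast form of the coefficients of the kernel times the moments -/
noncomputable def pgF (r b : ℚ) (D : ℕ) (p : ℕ → ℕ → ℚ) (L n l : ℕ) : ℚ :=
  sdot (sv (fun n' => p n' l) D) (sdrop n (sv (gmQ r b) L))

theorem pgF_eq (r b : ℚ) (D : ℕ) (p : ℕ → ℕ → ℚ) {L n : ℕ} (h : n + D ≤ L) (l : ℕ) :
    pgF r b D p L n l = pgQ r b D p n l := by
  rw [pgF, pgQ, sdot_eq _ _ D (by rw [sv_length]), sm_rat]
  refine Finset.sum_congr rfl (fun j hj => ?_)
  have hj' := Finset.mem_range.1 hj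
  rw [sv_get _ _ hj', sdrop_get, sv_get _ _ (by omega)]

end Pool.Agent.Helper65.HR2
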