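import Pool.Agent.Helper65.HR2.Ser
import Pool.Agent.Helper24.HR2.NumM
import Pool.Agent.Helper24.HR2.NumM2

/-!
MP_16b0ee, project HR2: the Gram matrix of the kernel on the powers in exact rational arithmetic;
all entries are affine in `SS s b 0 1` and `MM s b 0 0`.
-/

set_option autoImplicit false

open scoped ComplexConjugate

namespace Pool.Agent.Helper65.HR2

open Pool.Agent.Helper24.HR2

/-- affine functions of the two series -/
structure Tr where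
  /-- constant coefficient -/
  c0 : ℚ
  /-- coefficient of `SS s b 0 1` -/
  c1 : ℚ
  /-- coefficient of `MM s b 0 0` -/
  c2 : ℚ

/-- the value -/
def tv (S M : ℝ) (x : Tr) : ℝ := (x.c0 : ℝ) + (x.c1 : ℝ) * S + (x.c2 : ℝ) * M

/-- one step of the recursion -/
def mmStep (r b : ℚ) (n k : ℕ) (x : Tr) : Tr :=
  ⟨((4 * r - b + n + k + 1) * x.c0
      + ((b + 2 + k) * gmQ r b k * ((ssQ r b n 0).1 - (ssQ r b n 1).1)
        - (k + 1) * gmQ r b n * ((ssQ r b k 0).1 - (ssQ r b k 1).1))) / (b + 3 + n + k),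
    ((4 * r - b + n + k + 1) * x.c1
      + ((b + 2 + k) * gmQ r b k * ((ssQ r b n 0).2 - (ssQ r b n 1).2)
        - (k + 1) * gmQ r b n * ((ssQ r b k 0).2 - (ssQ r b k 1).2))) / (b + 3 + n + k),
    (4 * r - b + n + k + 1) * x.c2 / (b + 3 + n + k)⟩

/-- the first column -/
def mm0 (r b : ℚ) : ℕ → Tr
  | 0 => ⟨0, 0, 1⟩
  | k + 1 => mmStep r b k 0 (mm0 r b k)

/-- the Gram matrix -/
def mmQ (r b : ℚ) : ℕ → ℕ → Tr
  | 0, k => mm0 r b k
  | n + 1, k => mmStep r b n k (mmQ r b n k)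

theorem mmStep_eq {s : ℂ} {r b : ℚ} (hr : s.re = r) (hs : -1 < s.re) (hb : 0 < (b : ℝ))
    (hσ : 0 < (b : ℝ) + 1 - 2 * s.re) (n k : ℕ) (x : Tr)
    (hx : MM s b n k = tv (SS s b 0 1) (MM s b 0 0) x) :
    MM s b (n + 1) k = tv (SS s b 0 1) (MM s b 0 0) (mmStep r b n k x) := by
  have h1 := MM_rec hs hb hσ n k
  rw [hx, ssQ_eq hr hs hb hσ n 0, ssQ_eq hr hs hb hσ n 1, ssQ_eq hr hs hb hσ k 0,
    ssQ_eq hr hs hb hσ k 1, ← gmQ_eq hr k, ← gmQ_eq hr n, hr] at h1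
  have hn : ((b : ℝ) + 3 + n + k) ≠ 0 := by positivity
  have h2 : MM s b (n + 1) k = ((4 * (r : ℝ) - b + n + k + 1)
        * tv (SS s b 0 1) (MM s b 0 0) x
      + (b + 2 + k) * ((gmQ r b k : ℚ) : ℝ) * (av (SS s b 0 1) (ssQ r b n 0)
        - av (SS s b 0 1) (ssQ r b n 1))
      - (k + 1) * ((gmQ r b n : ℚ) : ℝ) * (av (SS s b 0 1) (ssQ r b k 0)
        - av (SS s b 0 1) (ssQ r b k 1))) / ((b : ℝ) + 3 + n + k) := by
    rw [eq_div_iff hn, mul_comm]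
    exact h1
  rw [h2]
  simp only [tv, av, mmStep]
  push_cast
  rw [div_eq_iff hn]
  field_simp
  ring

theorem mm0_eq {s : ℂ} {r b : ℚ} (hr : s.re = r) (hs : -1 < s.re) (hb : 0 < (b : ℝ))
    (hσ : 0 < (b : ℝ) + 1 - 2 * s.re) (k : ℕ) :
    MM s b k 0 = tv (SS s b 0 1) (MM s b 0 0) (mm0 r b k) := by
  induction k with
  | zero => simp [tv, mm0]
  | succ k ih => exact mmStep_eq hr hs hb hσ k 0 _ ih

theorem mmQ_eq {s : ℂ} {r b : ℚ} (hr : s.re = r) (hs : -1 < s.re) (hb : 0 < (b : ℝ))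
    (hσ : 0 < (b : ℝ) + 1 - 2 * s.re) (n k : ℕ) :
    MM s b n k = tv (SS s b 0 1) (MM s b 0 0) (mmQ r b n k) := by
  induction n with
  | zero =>
    rw [MM_symm, mm0_eq hr hs hb hσ k, mmQ]
  | succ n ih => exact mmStep_eq hr hs hb hσ n k _ ih

end Pool.Agent.Helper65.HR2
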