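import Pool.Agent.Helper65.HR2.Vec
import Pool.Agent.Helper65.HR2.Tab2

/-!
MP_16b0ee, project HR2: the pieces of the second form as products of families of vectors.
-/

set_option autoImplicit false

open scoped ComplexConjugate

namespace Pool.Agent.Helper65.HR2

open Pool.Agent.Helper24.HR2

theorem re_prod (N N' : ℕ) (a c : ℕ → ℝ) (y z : ℕ → ℂ) :
    ((∑ n ∈ Finset.range N, (a n : ℂ) * y n) * conj (∑ k ∈ Finset.range N', (c k : ℂ) * z k)).re
      = ∑ n ∈ Finset.range N, ∑ k ∈ Finset.range N', a n * c k * (y n * conj (z k)).re := by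
  rw [map_sum, Finset.sum_mul_sum, Complex.re_sum]
  refine Finset.sum_congr rfl (fun n _ => ?_)
  rw [Complex.re_sum]
  refine Finset.sum_congr rfl (fun k _ => ?_)
  rw [map_mul, Complex.conj_ofReal, show (a n : ℂ) * y n * ((c k : ℂ) * conj (z k))
    = ((a n * c k : ℝ) : ℂ) * (y n * conj (z k)) from by push_cast; ring, Complex.re_ofReal_mul]

theorem re_symm (x y : ℂ) : (x * conj y).re = (y * conj x).re := by
  simp only [Complex.mul_re, Complex.conj_re, Complex.conj_im]
  ring

/-- the coefficients of the projection as a functional -/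
noncomputable def UU (s : ℂ) (b : ℝ) (N D : ℕ) (p : ℕ → ℕ → ℝ) (y : ℕ → ℂ) (l : ℕ) : ℂ :=
  ∑ n ∈ Finset.range N, ((pil s b D p n l : ℝ) : ℂ) * y n

/-- the differences of the series as a functional -/
noncomputable def VV (s : ℂ) (b : ℝ) (N : ℕ) (y : ℕ → ℂ) (l : ℕ) : ℂ :=
  ∑ n ∈ Finset.range N, ((SS s b n l - SS s b n (l + 1) : ℝ) : ℂ) * y n

theorem gamR_eq {s : ℂ} (hs : -1 < s.re) {b : ℝ} (hb : 0 < b) (hσ : 0 < b + 1 - 2 * s.re)
    (N D : ℕ) (p : ℕ → ℕ → ℝ) (y : ℕ → ℂ) : gamR s b N D p y
      = (∑ n ∈ Finset.range N, ∑ k ∈ Finset.range N, MM s b n k * (y n * conj (y k)).re)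
        - 2 * ∑ l ∈ Finset.range D, (VV s b N y (l + 1) * conj (UU s b N D p y l)).re
        + ∑ l ∈ Finset.range D, ∑ l' ∈ Finset.range D, 1 / ((b + l + l' + 2) * (b + l + l' + 3))
          * (UU s b N D p y l' * conj (UU s b N D p y l)).re := by
  have h1 : ∀ l, (VV s b N y (l + 1) * conj (UU s b N D p y l)).re
      = ∑ n ∈ Finset.range N, ∑ k ∈ Finset.range N,
        (SS s b n (l + 1) - SS s b n (l + 2)) * pil s b D p k l * (y n * conj (y k)).re := by
    intro l
    rw [VV, UU, re_prod]
  have h1' : ∀ l, (VV s b N y (l + 1) * conj (UU s b N D p y l)).re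
      = ∑ n ∈ Finset.range N, ∑ k ∈ Finset.range N,
        (SS s b k (l + 1) - SS s b k (l + 2)) * pil s b D p n l * (y n * conj (y k)).re := by
    intro l
    rw [h1, Finset.sum_comm]
    refine Finset.sum_congr rfl (fun n _ => Finset.sum_congr rfl (fun k _ => ?_))
    rw [re_symm (y k) (y n)]
  have h2 : ∀ l l', (UU s b N D p y l' * conj (UU s b N D p y l)).re
      = ∑ n ∈ Finset.range N, ∑ k ∈ Finset.range N,
        pil s b D p n l * pil s b D p k l' * (y n * conj (y k)).re := by
    intro l l'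
    rw [re_symm, UU, UU, re_prod]
  have e1 : 2 * ∑ l ∈ Finset.range D, (VV s b N y (l + 1) * conj (UU s b N D p y l)).re
      = ∑ n ∈ Finset.range N, ∑ k ∈ Finset.range N,
        ((∑ l ∈ Finset.range D, pil s b D p k l * (SS s b n (l + 1) - SS s b n (l + 2)))
          + ∑ l ∈ Finset.range D, pil s b D p n l * (SS s b k (l + 1) - SS s b k (l + 2)))
          * (y n * conj (y k)).re := by
    have e2 : ∑ l ∈ Finset.range D, (VV s b N y (l + 1) * conj (UU s b N D p y l)).re
        = ∑ n ∈ Finset.range N, ∑ k ∈ Finset.range N,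
          (∑ l ∈ Finset.range D, pil s b D p k l * (SS s b n (l + 1) - SS s b n (l + 2)))
          * (y n * conj (y k)).re := by
      simp only [h1]
      rw [Finset.sum_comm]
      refine Finset.sum_congr rfl (fun n _ => ?_)
      rw [Finset.sum_comm]
      refine Finset.sum_congr rfl (fun k _ => ?_)
      rw [Finset.sum_mul]
      exact Finset.sum_congr rfl (fun l _ => by ring)
    have e3 : ∑ l ∈ Finset.range D, (VV s b N y (l + 1) * conj (UU s b N D p y l)).re
        = ∑ n ∈ Finset.range N, ∑ k ∈ Finset.range N,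
          (∑ l ∈ Finset.range D, pil s b D p n l * (SS s b k (l + 1) - SS s b k (l + 2)))
          * (y n * conj (y k)).re := by
      simp only [h1']
      rw [Finset.sum_comm]
      refine Finset.sum_congr rfl (fun n _ => ?_)
      rw [Finset.sum_comm]
      refine Finset.sum_congr rfl (fun k _ => ?_)
      rw [Finset.sum_mul]
      exact Finset.sum_congr rfl (fun l _ => by ring)
    rw [two_mul]
    nth_rewrite 1 [e2]
    rw [e3]
    rw [← Finset.sum_add_distrib]
    refine Finset.sum_congr rfl (fun n _ => ?_)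
    rw [← Finset.sum_add_distrib]
    exact Finset.sum_congr rfl (fun k _ => by ring)
  have e4 : ∑ l ∈ Finset.range D, ∑ l' ∈ Finset.range D,
        1 / ((b + l + l' + 2) * (b + l + l' + 3))
          * (UU s b N D p y l' * conj (UU s b N D p y l)).re
      = ∑ n ∈ Finset.range N, ∑ k ∈ Finset.range N,
        (∑ l ∈ Finset.range D, ∑ l' ∈ Finset.range D, pil s b D p n l * pil s b D p k l'
          / ((b + l + l' + 2) * (b + l + l' + 3))) * (y n * conj (y k)).re := by
    simp only [h2, Finset.mul_sum, Finset.sum_mul]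
    rw [Finset.sum_comm' (t' := Finset.range D) (s' := fun _ => Finset.range D)
      (by intro x z; tauto)]
    calc ∑ l' ∈ Finset.range D, ∑ l ∈ Finset.range D, ∑ n ∈ Finset.range N,
          ∑ k ∈ Finset.range N, 1 / ((b + l + l' + 2) * (b + l + l' + 3))
            * (pil s b D p n l * pil s b D p k l' * (y n * conj (y k)).re)
        = ∑ l ∈ Finset.range D, ∑ n ∈ Finset.range N, ∑ k ∈ Finset.range N,
          ∑ l' ∈ Finset.range D, 1 / ((b + l + l' + 2) * (b + l + l' + 3))
            * (pil s b D p n l * pil s b D p k l' * (y n * conj (y k)).re) := by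
          rw [Finset.sum_comm]
          refine Finset.sum_congr rfl (fun l _ => ?_)
          rw [Finset.sum_comm]
          refine Finset.sum_congr rfl (fun n _ => ?_)
          rw [Finset.sum_comm]
      _ = ∑ n ∈ Finset.range N, ∑ k ∈ Finset.range N, ∑ l ∈ Finset.range D,
          ∑ l' ∈ Finset.range D, 1 / ((b + l + l' + 2) * (b + l + l' + 3))
            * (pil s b D p n l * pil s b D p k l' * (y n * conj (y k)).re) := by
          rw [Finset.sum_comm]
          refine Finset.sum_congr rfl (fun n _ => ?_)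
          rw [Finset.sum_comm]
      _ = _ := by
          refine Finset.sum_congr rfl (fun n _ => Finset.sum_congr rfl (fun k _ =>
            Finset.sum_congr rfl (fun l _ => Finset.sum_congr rfl (fun l' _ => ?_))))
          ring
  rw [e1, e4, gamR, ← Finset.sum_sub_distrib, ← Finset.sum_add_distrib]
  refine Finset.sum_congr rfl (fun n _ => ?_)
  rw [← Finset.sum_sub_distrib, ← Finset.sum_add_distrib]
  refine Finset.sum_congr rfl (fun k _ => ?_)
  rw [MR_eq hs hb hσ]
  ring

theorem Nx_eq2 {s : ℂ} (hs : -1 < s.re) {b : ℝ} (hb : 0 < b) (hσ : 0 < b + 1 - 2 * s.re)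
    (D N : ℕ) (p : ℕ → ℕ → ℝ) (F y : ℕ → ℂ) : Nx s b D N p F y
      = 2 * ∑ l ∈ Finset.range (D + 1), ((VV s b N y l
        - ∑ m ∈ Finset.range D, ((1 / ((b + l + m + 1) * (b + l + m + 2)) : ℝ) : ℂ)
          * UU s b N D p y m) * conj (F l)).re := by
  rw [Nx]
  congr 1
  refine Finset.sum_congr rfl (fun l _ => ?_)
  have h1 : VV s b N y l
        - ∑ m ∈ Finset.range D, ((1 / ((b + l + m + 1) * (b + l + m + 2)) : ℝ) : ℂ)
          * UU s b N D p y m
      = ∑ n ∈ Finset.range N, ((xln s b D p l n : ℝ) : ℂ) * y n := by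
    rw [VV]
    simp only [UU, Finset.mul_sum]
    rw [Finset.sum_comm, ← Finset.sum_sub_distrib]
    refine Finset.sum_congr rfl (fun n _ => ?_)
    have h2 : xln s b D p l n = SS s b n l - SS s b n (l + 1)
        - ∑ m ∈ Finset.range D, 1 / ((b + l + m + 1) * (b + l + m + 2)) * pil s b D p n m := by
      rw [xln_eq hs hb hσ, Finset.sum_comm]
      congr 1
      refine Finset.sum_congr rfl (fun m _ => ?_)
      rw [pil, Finset.mul_sum]
      exact Finset.sum_congr rfl (fun n' _ => by ring)
    rw [h2]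
    push_cast
    rw [sub_mul _ (∑ m ∈ Finset.range D, _) (y n), Finset.sum_mul]
    congr 1
    exact Finset.sum_congr rfl (fun m _ => by ring)
  rw [h1, Finset.sum_mul, Complex.re_sum]
  refine Finset.sum_congr rfl (fun n _ => ?_)
  rw [mul_assoc, Complex.re_ofReal_mul, mul_comm (conj (F l))]

end Pool.Agent.Helper65.HR2
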