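import Mathlib
import Pool.Agent.Helper24.HR2.Defs

/-!
MP_16b0ee, project HR2: exact rational arithmetic for the area form at one point. Gaussian
rationals, finite sums, Hermitian forms of order three.
-/

set_option autoImplicit false

open scoped ComplexConjugate

namespace Pool.Agent.Helper65.HR2

open Pool.Agent.Helper24.HR2

/-- Gaussian rationals -/
structure GQ where
  /-- real part -/
  re : ℚ
  /-- imaginary part -/
  im : ℚ

namespace GQ

/-- zero -/
def zero : GQ := ⟨0, 0⟩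

/-- sum -/
def add (x y : GQ) : GQ := ⟨x.re + y.re, x.im + y.im⟩

/-- difference -/
def sub (x y : GQ) : GQ := ⟨x.re - y.re, x.im - y.im⟩

/-- product -/
def mul (x y : GQ) : GQ := ⟨x.re * y.re - x.im * y.im, x.re * y.im + x.im * y.re⟩

/-- conjugate -/
def cj (x : GQ) : GQ := ⟨x.re, -x.im⟩

/-- product with a rational number -/
def sc (q : ℚ) (x : GQ) : GQ := ⟨q * x.re, q * x.im⟩

/-- square of the modulus -/
def nsq (x : GQ) : ℚ := x.re * x.re + x.im * x.im

/-- inverse -/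
def inv (x : GQ) : GQ := ⟨x.re / x.nsq, -x.im / x.nsq⟩

/-- the complex number -/
noncomputable def toC (x : GQ) : ℂ := ⟨(x.re : ℝ), (x.im : ℝ)⟩

theorem toC_re (x : GQ) : x.toC.re = (x.re : ℝ) := rfl

theorem toC_im (x : GQ) : x.toC.im = (x.im : ℝ) := rfl

theorem toC_zero : zero.toC = 0 := by
  apply Complex.ext <;> simp [toC, zero]

theorem toC_add (x y : GQ) : (x.add y).toC = x.toC + y.toC := by
  apply Complex.ext <;> simp [toC, add]

theorem toC_sub (x y : GQ) : (x.sub y).toC = x.toC - y.toC := by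
  apply Complex.ext <;> simp [toC, sub]

theorem toC_mul (x y : GQ) : (x.mul y).toC = x.toC * y.toC := by
  apply Complex.ext <;> simp [toC, mul]

theorem toC_cj (x : GQ) : x.cj.toC = conj x.toC := by
  apply Complex.ext <;> simp [toC, cj]

theorem toC_sc (q : ℚ) (x : GQ) : (x.sc q).toC = ((q : ℝ) : ℂ) * x.toC := by
  apply Complex.ext <;> simp [toC, sc]

theorem toC_mk (q : ℚ) : (GQ.mk q 0).toC = ((q : ℝ) : ℂ) := by
  apply Complex.ext <;> simp [toC]

theorem nsq_eq (x : GQ) : ((x.nsq : ℚ) : ℝ) = ‖x.toC‖ ^ 2 := by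
  rw [← Complex.normSq_eq_norm_sq, Complex.normSq_apply, toC_re, toC_im, nsq]
  push_cast
  ring

theorem toC_inv (x : GQ) : x.inv.toC = (x.toC)⁻¹ := by
  have h : Complex.normSq x.toC = ((x.nsq : ℚ) : ℝ) := by
    rw [Complex.normSq_apply, toC_re, toC_im, nsq]
    push_cast
    ring
  apply Complex.ext
  · rw [Complex.inv_re, h, toC_re, toC_re, inv]
    push_cast
    ring
  · rw [Complex.inv_im, h, toC_im, toC_im, inv]
    push_cast
    ring

end GQ

/-- finite sums of rational numbers -/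
def sm (f : ℕ → ℚ) : ℕ → ℚ
  | 0 => 0
  | n + 1 => sm f n + f n

theorem sm_eq (f : ℕ → ℚ) (n : ℕ) : ((sm f n : ℚ) : ℝ) = ∑ i ∈ Finset.range n, (f i : ℝ) := by
  induction n with
  | zero => simp [sm]
  | succ n ih => rw [sm, Finset.sum_range_succ, ← ih]; push_cast; ring

/-- finite sums of Gaussian rationals -/
def smG (f : ℕ → GQ) : ℕ → GQ
  | 0 => GQ.zero
  | n + 1 => (smG f n).add (f n)

theorem smG_eq (f : ℕ → GQ) (n : ℕ) : (smG f n).toC = ∑ i ∈ Finset.range n, (f i).toC := by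
  induction n with
  | zero => simp [smG, GQ.toC_zero]
  | succ n ih => rw [smG, Finset.sum_range_succ, ← ih, GQ.toC_add]

/-! Hermitian forms -/

theorem hF_add (K : ℕ) (P Q : ℕ → ℕ → ℂ) (g : ℕ → ℂ) :
    hF K (fun r t => P r t + Q r t) g = hF K P g + hF K Q g := by
  simp only [hF, add_mul, Complex.add_re, Finset.sum_add_distrib]

theorem hF_sub (K : ℕ) (P Q : ℕ → ℕ → ℂ) (g : ℕ → ℂ) :
    hF K (fun r t => P r t - Q r t) g = hF K P g - hF K Q g := by
  simp only [hF, sub_mul, Complex.sub_re, Finset.sum_sub_distrib]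

theorem hF_smul (K : ℕ) (a : ℝ) (P : ℕ → ℕ → ℂ) (g : ℕ → ℂ) :
    hF K (fun r t => (a : ℂ) * P r t) g = a * hF K P g := by
  simp only [hF, mul_assoc, Complex.re_ofReal_mul, Finset.mul_sum]

theorem hF_sum (K : ℕ) {ι : Type} (S : Finset ι) (P : ι → ℕ → ℕ → ℂ) (g : ℕ → ℂ) :
    hF K (fun r t => ∑ i ∈ S, P i r t) g = ∑ i ∈ S, hF K (P i) g := by
  classical
  induction S using Finset.induction_on with
  | empty => simp [hF]
  | insert a S ha ih =>
    simp only [Finset.sum_insert ha]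
    rw [hF_add, ih]

/-- the form of a product of two linear functionals -/
theorem hF_prod (K : ℕ) (A B : ℕ → ℂ) (g : ℕ → ℂ) :
    hF K (fun r t => A t * conj (B r)) g
      = ((∑ t ∈ Finset.range K, A t * g t) * conj (∑ r ∈ Finset.range K, B r * g r)).re := by
  rw [hF, map_sum, Finset.sum_mul_sum, Finset.sum_comm, Complex.re_sum]
  refine Finset.sum_congr rfl (fun r _ => ?_)
  rw [Complex.re_sum]
  refine Finset.sum_congr rfl (fun t _ => ?_)
  rw [map_mul]
  congr 1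
  ring

/-- the check of positivity of a Hermitian form of order three -/
def psd (M : ℕ → ℕ → GQ) : Bool :=
  let h0 := (M 0 0).re
  let h1 := (M 1 1).re
  let h2 := (M 2 2).re
  let u := ((M 0 1).add (M 1 0).cj).sc (1 / 2)
  let v := ((M 0 2).add (M 2 0).cj).sc (1 / 2)
  let w := ((M 1 2).add (M 2 1).cj).sc (1 / 2)
  let d := h0 * h1 - u.nsq
  let f := h0 * h2 - v.nsq
  let e := (w.sc h0).sub (u.cj.mul v)
  decide (0 < h0) && (decide (0 < d) && decide (0 ≤ d * f - e.nsq))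

theorem psd_real {h0 h1 h2 u u' v v' w w' : ℝ} (hh : 0 < h0)
    (hd : 0 < h0 * h1 - (u * u + u' * u'))
    (hf : 0 ≤ (h0 * h1 - (u * u + u' * u')) * (h0 * h2 - (v * v + v' * v'))
      - ((h0 * w - (u * v + u' * v')) * (h0 * w - (u * v + u' * v'))
        + (h0 * w' - (u * v' - u' * v)) * (h0 * w' - (u * v' - u' * v))))
    (x0 y0 x1 y1 x2 y2 : ℝ) :
    0 ≤ h0 * (x0 ^ 2 + y0 ^ 2) + h1 * (x1 ^ 2 + y1 ^ 2) + h2 * (x2 ^ 2 + y2 ^ 2)
      + 2 * (u * (x1 * x0 + y1 * y0) - u' * (y1 * x0 - x1 * y0))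
      + 2 * (v * (x2 * x0 + y2 * y0) - v' * (y2 * x0 - x2 * y0))
      + 2 * (w * (x2 * x1 + y2 * y1) - w' * (y2 * x1 - x2 * y1)) := by
  set d := h0 * h1 - (u * u + u' * u') with hdd
  set f := h0 * h2 - (v * v + v' * v') with hff
  set e := h0 * w - (u * v + u' * v') with he
  set e' := h0 * w' - (u * v' - u' * v) with he'
  set q := h0 * (x0 ^ 2 + y0 ^ 2) + h1 * (x1 ^ 2 + y1 ^ 2) + h2 * (x2 ^ 2 + y2 ^ 2)
      + 2 * (u * (x1 * x0 + y1 * y0) - u' * (y1 * x0 - x1 * y0))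
      + 2 * (v * (x2 * x0 + y2 * y0) - v' * (y2 * x0 - x2 * y0))
      + 2 * (w * (x2 * x1 + y2 * y1) - w' * (y2 * x1 - x2 * y1)) with hq
  have key : h0 * d * q = d * ((h0 * x0 + (u * x1 - u' * y1) + (v * x2 - v' * y2)) ^ 2
      + (h0 * y0 + (u * y1 + u' * x1) + (v * y2 + v' * x2)) ^ 2)
      + ((d * x1 + (e * x2 - e' * y2)) ^ 2 + (d * y1 + (e * y2 + e' * x2)) ^ 2)
      + (d * f - (e * e + e' * e')) * (x2 ^ 2 + y2 ^ 2) := by
    rw [hq, hdd, hff, he, he']
    ring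
  have h3 : 0 ≤ h0 * d * q := by
    rw [key]
    have := hd.le
    positivity
  have h4 : 0 < h0 * d := mul_pos hh hd
  exact nonneg_of_mul_nonneg_right h3 h4

theorem psd_sound (M : ℕ → ℕ → GQ) (h : psd M = true) (g : ℕ → ℂ) :
    0 ≤ hF 3 (fun r t => (M r t).toC) g := by
  simp only [psd, Bool.and_eq_true, GQ.nsq, GQ.add, GQ.cj, GQ.sc, GQ.sub, GQ.mul] at h
  obtain ⟨h1, h2, h3⟩ := h
  replace h1 := of_decide_eq_true h1
  replace h2 := of_decide_eq_true h2
  replace h3 := of_decide_eq_true h3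
  have h1' : (0 : ℝ) < ((M 0 0).re : ℝ) := by exact_mod_cast h1
  have h2' := (Rat.cast_lt (K := ℝ)).2 h2
  have h3' := (Rat.cast_le (K := ℝ)).2 h3
  push_cast at h2' h3'
  have := psd_real (h0 := ((M 0 0).re : ℝ)) (h1 := ((M 1 1).re : ℝ)) (h2 := ((M 2 2).re : ℝ))
    (u := (((M 0 1).re : ℝ) + (M 1 0).re) / 2) (u' := (((M 0 1).im : ℝ) - (M 1 0).im) / 2)
    (v := (((M 0 2).re : ℝ) + (M 2 0).re) / 2) (v' := (((M 0 2).im : ℝ) - (M 2 0).im) / 2)
    (w := (((M 1 2).re : ℝ) + (M 2 1).re) / 2) (w' := (((M 1 2).im : ℝ) - (M 2 1).im) / 2)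
    h1' (lt_of_lt_of_eq h2' (by ring)) (le_of_le_of_eq h3' (by ring)) (g 0).re (g 0).im
    (g 1).re (g 1).im (g 2).re (g 2).im
  have e : hF 3 (fun r t => (M r t).toC) g
      = ((M 0 0).re : ℝ) * ((g 0).re ^ 2 + (g 0).im ^ 2)
        + ((M 1 1).re : ℝ) * ((g 1).re ^ 2 + (g 1).im ^ 2)
        + ((M 2 2).re : ℝ) * ((g 2).re ^ 2 + (g 2).im ^ 2)
      + 2 * ((((M 0 1).re : ℝ) + (M 1 0).re) / 2 * ((g 1).re * (g 0).re + (g 1).im * (g 0).im)
        - (((M 0 1).im : ℝ) - (M 1 0).im) / 2 * ((g 1).im * (g 0).re - (g 1).re * (g 0).im))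
      + 2 * ((((M 0 2).re : ℝ) + (M 2 0).re) / 2 * ((g 2).re * (g 0).re + (g 2).im * (g 0).im)
        - (((M 0 2).im : ℝ) - (M 2 0).im) / 2 * ((g 2).im * (g 0).re - (g 2).re * (g 0).im))
      + 2 * ((((M 1 2).re : ℝ) + (M 2 1).re) / 2 * ((g 2).re * (g 1).re + (g 2).im * (g 1).im)
        - (((M 1 2).im : ℝ) - (M 2 1).im) / 2 * ((g 2).im * (g 1).re - (g 2).re * (g 1).im)) := by
    simp only [hF, Finset.sum_range_succ, Finset.sum_range_zero, Complex.mul_re, Complex.mul_im,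
      Complex.conj_re, Complex.conj_im, GQ.toC_re, GQ.toC_im]
    ring
  rw [e]
  exact this

end Pool.Agent.Helper65.HR2
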