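import Pool.Agent.Helper65.HR2.PointF
import Pool.Agent.Helper12.HR2.Bridge
import Pool.Agent.Helper24.HR2.CoreS

/-!
MP_16b0ee, project HR2: the bound at one point from the two kernel checks.
-/

set_option autoImplicit false

open scoped ComplexConjugate

namespace Pool.Agent.Helper65.HR2

open Pool.Agent.Helper24.HR2
open Pool.Agent.Helper12.HR2

namespace AP

/-- the parameters of the certificate -/
def par (P : AP) : Par := ⟨P.s1, P.s2, P.sd, P.bn, P.bd⟩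

/-- the matrix of the certificate -/
def MZ (P : AP) (r t : ℕ) : ℤ × ℤ := (P.M.getD r []).getD t (0, 0)

theorem sC_eq (P : AP) : P.sC = ((P.s1 : ℂ) + P.s2 * Complex.I) / P.sd := by
  apply Complex.ext
  · rw [sC, GQ.toC_re, s, Rat.mkRat_eq_div, ← Complex.ofReal_natCast, Complex.div_ofReal_re]
    push_cast
    simp
  · rw [sC, GQ.toC_im, s, ← Complex.ofReal_natCast, Complex.div_ofReal_im]
    simp only [Rat.mkRat_eq_div]
    push_cast
    simp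

theorem bR_eq (P : AP) : P.bR = (P.bn : ℝ) / P.bd := by
  rw [bR, b, Rat.mkRat_eq_div]
  push_cast
  rfl

theorem pochQ_eq (x : ℚ) (n : ℕ) : ((pochQ x n : ℚ) : ℝ) = poch (x : ℝ) n := by
  induction n with
  | zero => simp [pochQ, poch]
  | succ n ih =>
    rw [pochQ, poch, Finset.prod_range_succ, ← poch, ← ih]
    push_cast
    ring

theorem pochQ_pos {x : ℚ} (hx : 0 < x) (n : ℕ) : 0 < pochQ x n := by
  induction n with
  | zero => simp [pochQ]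
  | succ n ih =>
    rw [pochQ]
    have : (0 : ℚ) ≤ n := Nat.cast_nonneg n
    positivity

theorem xs_eq (P : AP) {r : ℕ} (hr : r < 3) : ((P.xs r : ℚ) : ℝ) = xsc P.par r := by
  interval_cases r
  · simp [xs, xsc]
  · simp only [xs, xsc, par]
    push_cast
    rfl
  · simp only [xs, xsc, par]
    push_cast
    rfl

theorem QC_eq (P : AP) (h1 : P.c1 = true) {r t : ℕ} (hr : r < 3) (ht : t < 3) :
    (((P.N : ℝ) * (P.bR * (P.bR + 1) * (P.bR + 2) / poch P.bR (2 * r + 2 * t)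
      * (xsc P.par r * xsc P.par t)) : ℝ) : ℂ) * P.QC r t = gv (P.MZ r t) := by
  simp only [c1, Bool.and_eq_true, decide_eq_true_eq] at h1
  obtain ⟨⟨⟨⟨⟨⟨⟨⟨⟨⟨⟨⟨⟨⟨hsd, -⟩, hN⟩, -⟩, -⟩, hb0⟩, -⟩, -⟩, -⟩, -⟩, -⟩, -⟩, -⟩, -⟩, -⟩ := h1
  have hx : ∀ r, r < 3 → (0 : ℚ) < P.xs r := by
    intro r hr
    interval_cases r
    · simp [xs]
    · simp only [xs]
      positivity
    · simp only [xs]
      positivity
  have hfac : (0 : ℚ) < P.fac r t := by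
    rw [fac]
    have h2 := hx r hr
    have h3 := hx t ht
    have h4 := pochQ_pos hb0 (2 * r + 2 * t)
    positivity
  have e1 : ((P.N : ℝ) * (P.bR * (P.bR + 1) * (P.bR + 2) / poch P.bR (2 * r + 2 * t)
      * (xsc P.par r * xsc P.par t)) : ℝ) = ((P.fac r t : ℚ) : ℝ) := by
    rw [fac, ← xs_eq P hr, ← xs_eq P ht, bR, ← pochQ_eq]
    push_cast
    ring
  rw [e1, QC, Qf, GQ.toC_sc, ← mul_assoc, ← Complex.ofReal_mul, ← Rat.cast_mul,
    mul_one_div_cancel hfac.ne', Rat.cast_one, Complex.ofReal_one, one_mul]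
  apply Complex.ext
  · simp [GQ.toC, Mf, MZ, gv]
  · simp [GQ.toC, Mf, MZ, gv]

/-- the bound at the point -/
theorem bound (P : AP) (h1 : P.c1 = true) (h2 : P.c2 = true) (h3 : P.c3 = true)
    (h4 : P.c4 = true) (hE1 : (P.Elo : ℝ) ≤ Es P.sC P.bR) (hE2 : Es P.sC P.bR ≤ (P.Ehi : ℝ))
    {t : Tab} {bas : List Mo} {prs : List (Mo × Mo)} {Bt : List (List (List ℕ))}
    {n W K : ℕ} (ht : TabOK t bas prs Bt n W K) (C : Cert) (h : check t n W K C = true)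
    (hP : C.P = P.par) (hqf : C.qf = qfM C.P P.MZ) (heta : 0 < C.eta) :
    ∃ C0 : ℝ, ∀ (ρ : ℝ) (β H : ℂ → ℂ) (Φ : ℂ → ℂ → ℂ), Dat ρ β H Φ →
      LS P.sC H P.bR (fun _ => 1) ≤ C0 := by
  obtain ⟨k1, k2, k3, k4, k5, k6, k7, k8, k9, k10, k11, k12⟩ := P.hyps h1 h2 h3 h4 hE1 hE2
  have hN : (0 : ℝ) < (P.N : ℝ) := by
    simp only [c1, Bool.and_eq_true, decide_eq_true_eq] at h1
    obtain ⟨⟨⟨⟨⟨⟨⟨⟨⟨⟨⟨⟨⟨⟨-, -⟩, hN⟩, -⟩, -⟩, -⟩, -⟩, -⟩, -⟩, -⟩, -⟩, -⟩, -⟩, -⟩, -⟩ := h1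
    exact_mod_cast hN
  have hs : P.sC = ((C.P.p : ℂ) + C.P.q * Complex.I) / C.P.sr := by
    rw [hP]
    exact P.sC_eq
  have hb : P.bR = (C.P.bn : ℝ) / C.P.bd := by
    rw [hP]
    exact P.bR_eq
  have hc := hc_of_cert ht C h P.MZ hqf P.QC hN hs hb (by
    intro r hr t ht
    rw [hP]
    exact P.QC_eq h1 hr ht)
  refine core_s k1 k2 k3 k4 k5 k6 k7 P.pR P.TC P.QC k8 k9 k10 k11 k12 (relsC C P.N Bt)
    (η := (C.eta : ℝ) / P.N) ?_ hc
  have : (0 : ℝ) < (C.eta : ℝ) := by exact_mod_cast heta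
  positivity

end AP

end Pool.Agent.Helper65.HR2
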