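import Pool.Agent.Helper65.HR2.Fast3
import Pool.Agent.Helper65.HR2.ZForm

/-!
MP_16b0ee, project HR2: scalar products of vectors of natural numbers packed in one number;
complex vectors as four lists of natural numbers.
-/

set_option autoImplicit false

open scoped ComplexConjugate

namespace Pool.Agent.Helper65.HR2

open Pool.Agent.Helper24.HR2

/-- forward packing -/
noncomputable def pF (B : ℕ) : List ℕ → ℕ :=
  List.rec (motive := fun _ => ℕ) 0 (fun a _ ih => Nat.add a (Nat.mul B ih))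

/-- backward packing with accumulator -/
noncomputable def pRa (B : ℕ) : List ℕ → ℕ → ℕ :=
  List.rec (motive := fun _ => ℕ → ℕ) (fun acc => acc)
    (fun a _ ih acc => ih (Nat.mul (Nat.add acc a) B))

/-- backward packing -/
noncomputable def pR (B : ℕ) (l : List ℕ) : ℕ := pRa B l 0

/-- sum of a list -/
noncomputable def smN : List ℕ → ℕ :=
  List.rec (motive := fun _ => ℕ) 0 (fun a _ ih => Nat.add a ih)

theorem pF_nil (B : ℕ) : pF B [] = 0 := rfl

theorem pF_cons (B a : ℕ) (l : List ℕ) : pF B (a :: l) = a + B * pF B l := rfl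

theorem smN_nil : smN [] = 0 := rfl

theorem smN_cons (a : ℕ) (l : List ℕ) : smN (a :: l) = a + smN l := rfl

theorem pRa_eq (B : ℕ) (l : List ℕ) : ∀ acc, pRa B l acc = acc * B ^ l.length + pR B l := by
  induction l with
  | nil =>
    intro acc
    change acc = acc * B ^ 0 + 0
    simp
  | cons a l ih =>
    intro acc
    have h1 : pRa B (a :: l) acc = pRa B l ((acc + a) * B) := rfl
    have h2 : pR B (a :: l) = pRa B l ((0 + a) * B) := rfl
    rw [h1, h2, ih, ih, List.length_cons, pow_succ]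
    ring

theorem pR_nil (B : ℕ) : pR B [] = 0 := rfl

theorem pR_cons (B a : ℕ) (l : List ℕ) :
    pR B (a :: l) = a * B ^ (l.length + 1) + pR B l := by
  have h2 : pR B (a :: l) = pRa B l ((0 + a) * B) := rfl
  rw [h2, pRa_eq, pow_succ]
  ring

theorem pR_le {B : ℕ} (hB : 0 < B) (l : List ℕ) : pR B l ≤ smN l * B ^ l.length := by
  induction l with
  | nil => exact le_of_eq (by rw [pR_nil, smN_nil, zero_mul])
  | cons a l ih =>
    rw [pR_cons, smN_cons, List.length_cons, add_mul]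
    refine Nat.add_le_add_left (ih.trans ?_) _
    exact Nat.mul_le_mul_left _ (Nat.pow_le_pow_right hB (Nat.le_succ _))

theorem dotN_le (u : List ℕ) : ∀ v, dotN u v ≤ smN u * smN v := by
  induction u with
  | nil =>
    intro v
    exact Nat.zero_le _
  | cons a u ih =>
    intro v
    rcases v with _ | ⟨b, v⟩
    · exact Nat.zero_le _
    · have h1 : dotN (a :: u) (b :: v) = a * b + dotN u v := rfl
      have h2 := ih v
      rw [h1, smN_cons, smN_cons]
      nlinarith [Nat.zero_le (a * smN v), Nat.zero_le (smN u * b)]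

/-- the number `P` has the digit `c` at the place `n`, with room `S` -/
def Pk (B n P c S : ℕ) : Prop :=
  ∃ low high, P = low + B ^ n * (c + B * high) ∧ B * low ≤ S * B ^ n ∧ c ≤ S

theorem Pk.add {B n P c S P' c' S' : ℕ} (h : Pk B n P c S) (h' : Pk B n P' c' S') :
    Pk B n (P + P') (c + c') (S + S') := by
  obtain ⟨l, k, h1, h2, h3⟩ := h
  obtain ⟨l', k', h1', h2', h3'⟩ := h'
  refine ⟨l + l', k + k', ?_, ?_, Nat.add_le_add h3 h3'⟩
  · rw [h1, h1']
    ring
  · rw [mul_add, add_mul]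
    exact Nat.add_le_add h2 h2'

theorem pk {B : ℕ} (hB : 0 < B) (b : List ℕ) : ∀ a : List ℕ,
    Pk B b.length (pF B a * pR B b) (dotN a b) (smN a * smN b) := by
  induction b with
  | nil =>
    intro a
    have h : dotN a [] = 0 := by
      cases a <;> rfl
    refine ⟨0, 0, ?_, ?_, ?_⟩
    · rw [pR_nil, h]
      simp
    · rw [mul_zero]
      exact Nat.zero_le _
    · rw [h]
      exact Nat.zero_le _
  | cons y b ih =>
    intro a
    rcases a with _ | ⟨x, a⟩
    · refine ⟨0, 0, ?_, ?_, ?_⟩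
      · rw [pF_nil]
        change 0 * _ = 0 + _ * (0 + B * 0)
        simp
      · rw [mul_zero]
        exact Nat.zero_le _
      · exact Nat.zero_le _
    · obtain ⟨l, k, h1, h2, h3⟩ := ih a
      have h4 := pR_le hB b
      have h5 : dotN (x :: a) (y :: b) = x * y + dotN a b := rfl
      refine ⟨x * pR B b + B * l, pF B a * y + k, ?_, ?_, ?_⟩
      · rw [pF_cons, pR_cons, h5, List.length_cons]
        have e : (x + B * pF B a) * (y * B ^ (b.length + 1) + pR B b)
            = x * pR B b + B ^ (b.length + 1) * (x * y) + B ^ (b.length + 1) * (B * (pF B a * y))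
              + B * (pF B a * pR B b) := by ring
        rw [e, h1]
        ring
      · rw [smN_cons, smN_cons, List.length_cons]
        have e1 : B * (x * pR B b + B * l) = B * x * pR B b + B * (B * l) := by ring
        rw [e1]
        calc B * x * pR B b + B * (B * l)
            ≤ B * x * (smN b * B ^ b.length) + B * (smN a * smN b * B ^ b.length) :=
              Nat.add_le_add (Nat.mul_le_mul_left _ h4) (Nat.mul_le_mul_left _ h2)
          _ = (x + smN a) * smN b * B ^ (b.length + 1) := by ring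
          _ ≤ (x + smN a) * (y + smN b) * B ^ (b.length + 1) :=
              Nat.mul_le_mul_right _ (Nat.mul_le_mul_left _ (Nat.le_add_left _ _))
      · exact dotN_le _ _

/-- a digit -/
noncomputable def dig (B n P : ℕ) : ℕ := Nat.mod (Nat.div P (Nat.pow B n)) B

theorem Pk.dig {B n P c S : ℕ} (h : Pk B n P c S) (hS : S < B) : dig B n P = c := by
  obtain ⟨l, k, h1, h2, h3⟩ := h
  have hB : 0 < B := by omega
  have hp : 0 < B ^ n := Nat.pow_pos hB
  have h4 : l < B ^ n := by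
    have h5 : B * l < B * B ^ n := lt_of_le_of_lt h2 (Nat.mul_lt_mul_of_pos_right hS hp)
    exact Nat.lt_of_mul_lt_mul_left h5
  have h6 : P / B ^ n = c + B * k := by
    rw [h1, Nat.add_mul_div_left _ _ hp, Nat.div_eq_of_lt h4, zero_add]
  change P / B ^ n % B = c
  rw [h6, Nat.add_mul_mod_self_left, Nat.mod_eq_of_lt (lt_of_le_of_lt h3 hS)]

/-- a complex vector: positive and negative parts of the real and the imaginary parts -/
structure CV4 where
  /-- real part, positive -/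
  a : List ℕ
  /-- real part, negative -/
  b : List ℕ
  /-- imaginary part, positive -/
  c : List ℕ
  /-- imaginary part, negative -/
  d : List ℕ

/-- an entry -/
noncomputable def at4 (w : CV4) (i : ℕ) : ℂ :=
  ⟨(w.a.getD i 0 : ℝ) - (w.b.getD i 0 : ℝ), (w.c.getD i 0 : ℝ) - (w.d.getD i 0 : ℝ)⟩

/-- a complex number: positive and negative parts -/
structure G4 where
  /-- real part, positive -/
  a : ℕ
  /-- real part, negative -/
  b : ℕ
  /-- imaginary part, positive -/
  c : ℕ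
  /-- imaginary part, negative -/
  d : ℕ

/-- the complex number -/
noncomputable def G4.toC (x : G4) : ℂ := ⟨(x.a : ℝ) - x.b, (x.c : ℝ) - x.d⟩

/-- sum of all numbers of a vector -/
noncomputable def sum4 (w : CV4) : ℕ :=
  Nat.add (smN w.a) (Nat.add (smN w.b) (Nat.add (smN w.c) (smN w.d)))

/-- Hermitian product -/
noncomputable def ip4 (B n : ℕ) (u v : CV4) : G4 :=
  ⟨dig B n (Nat.add (Nat.mul (pF B u.a) (pR B v.a)) (Nat.add (Nat.mul (pF B u.b) (pR B v.b))
      (Nat.add (Nat.mul (pF B u.c) (pR B v.c)) (Nat.mul (pF B u.d) (pR B v.d))))),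
    dig B n (Nat.add (Nat.mul (pF B u.a) (pR B v.b)) (Nat.add (Nat.mul (pF B u.b) (pR B v.a))
      (Nat.add (Nat.mul (pF B u.c) (pR B v.d)) (Nat.mul (pF B u.d) (pR B v.c))))),
    dig B n (Nat.add (Nat.mul (pF B u.a) (pR B v.c)) (Nat.add (Nat.mul (pF B u.b) (pR B v.d))
      (Nat.add (Nat.mul (pF B u.c) (pR B v.b)) (Nat.mul (pF B u.d) (pR B v.a))))),
    dig B n (Nat.add (Nat.mul (pF B u.a) (pR B v.d)) (Nat.add (Nat.mul (pF B u.b) (pR B v.c))
      (Nat.add (Nat.mul (pF B u.c) (pR B v.a)) (Nat.mul (pF B u.d) (pR B v.b)))))⟩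

/-- the length of the four lists -/
def Len4 (n : ℕ) (w : CV4) : Prop :=
  w.a.length = n ∧ w.b.length = n ∧ w.c.length = n ∧ w.d.length = n

theorem dig4 {B n : ℕ} (hB : 0 < B) {x1 x2 x3 x4 y1 y2 y3 y4 : List ℕ} (h1 : y1.length = n)
    (h2 : y2.length = n) (h3 : y3.length = n) (h4 : y4.length = n)
    (hS : (smN x1 + (smN x2 + (smN x3 + smN x4))) * (smN y1 + (smN y2 + (smN y3 + smN y4))) < B) :
    dig B n (Nat.add (Nat.mul (pF B x1) (pR B y1)) (Nat.add (Nat.mul (pF B x2) (pR B y2))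
      (Nat.add (Nat.mul (pF B x3) (pR B y3)) (Nat.mul (pF B x4) (pR B y4)))))
      = dotN x1 y1 + (dotN x2 y2 + (dotN x3 y3 + dotN x4 y4)) := by
  have k1 := pk hB y1 x1
  have k2 := pk hB y2 x2
  have k3 := pk hB y3 x3
  have k4 := pk hB y4 x4
  rw [h1] at k1
  rw [h2] at k2
  rw [h3] at k3
  rw [h4] at k4
  refine (k1.add (k2.add (k3.add k4))).dig (lt_of_le_of_lt ?_ hS)
  generalize smN x1 = a1
  generalize smN x2 = a2
  generalize smN x3 = a3
  generalize smN x4 = a4
  generalize smN y1 = b1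
  generalize smN y2 = b2
  generalize smN y3 = b3
  generalize smN y4 = b4
  have e : (a1 + (a2 + (a3 + a4))) * (b1 + (b2 + (b3 + b4)))
      = (a1 * b1 + (a2 * b2 + (a3 * b3 + a4 * b4)))
        + (a1 * (b2 + b3 + b4) + a2 * (b1 + b3 + b4) + a3 * (b1 + b2 + b4)
          + a4 * (b1 + b2 + b3)) := by ring
  rw [e]
  exact Nat.le_add_right _ _

theorem ip4_eq {B n : ℕ} (hB : 0 < B) {u v : CV4} (hu : Len4 n u) (hv : Len4 n v)
    (hS : sum4 u * sum4 v < B) :
    (ip4 B n u v).toC = ∑ i ∈ Finset.range n, conj (at4 u i) * at4 v i := by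
  obtain ⟨u1, u2, u3, u4⟩ := hu
  obtain ⟨v1, v2, v3, v4⟩ := hv
  have hS1 : (smN u.a + (smN u.b + (smN u.c + smN u.d)))
      * (smN v.a + (smN v.b + (smN v.c + smN v.d))) < B := hS
  have e1 := dig4 hB (x1 := u.a) (x2 := u.b) (x3 := u.c) (x4 := u.d) v1 v2 v3 v4 hS1
  have e2 := dig4 hB (x1 := u.a) (x2 := u.b) (x3 := u.c) (x4 := u.d) v2 v1 v4 v3
    (lt_of_eq_of_lt (by ring) hS1)
  have e3 := dig4 hB (x1 := u.a) (x2 := u.b) (x3 := u.c) (x4 := u.d) v3 v4 v2 v1
    (lt_of_eq_of_lt (by ring) hS1)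
  have e4 := dig4 hB (x1 := u.a) (x2 := u.b) (x3 := u.c) (x4 := u.d) v4 v3 v1 v2
    (lt_of_eq_of_lt (by ring) hS1)
  rw [ip4, e1, e2, e3, e4, G4.toC]
  apply Complex.ext
  · rw [Complex.re_sum]
    simp only [dotN_eq _ _ n u1.le, dotN_eq _ _ n u2.le, dotN_eq _ _ n u3.le, dotN_eq _ _ n u4.le]
    push_cast
    rw [← Finset.sum_add_distrib, ← Finset.sum_add_distrib, ← Finset.sum_add_distrib,
      ← Finset.sum_add_distrib, ← Finset.sum_add_distrib, ← Finset.sum_add_distrib,
      ← Finset.sum_sub_distrib]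
    refine Finset.sum_congr rfl (fun i _ => ?_)
    simp only [at4, Complex.mul_re, Complex.conj_re, Complex.conj_im]
    ring
  · rw [Complex.im_sum]
    simp only [dotN_eq _ _ n u1.le, dotN_eq _ _ n u2.le, dotN_eq _ _ n u3.le, dotN_eq _ _ n u4.le]
    push_cast
    rw [← Finset.sum_add_distrib, ← Finset.sum_add_distrib, ← Finset.sum_add_distrib,
      ← Finset.sum_add_distrib, ← Finset.sum_add_distrib, ← Finset.sum_add_distrib,
      ← Finset.sum_sub_distrib]
    refine Finset.sum_congr rfl (fun i _ => ?_)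
    simp only [at4, Complex.mul_im, Complex.conj_re, Complex.conj_im]
    ring

/-- product of a real matrix (rows `P - N`) and a complex vector -/
noncomputable def mv4 (B : ℕ) (P N : ℕ → List ℕ) (m m' : ℕ) (v : CV4) : CV4 :=
  ⟨tabG (fun i => dig B m' (Nat.add (Nat.mul (pF B (P i)) (pR B v.a))
      (Nat.mul (pF B (N i)) (pR B v.b)))) m,
    tabG (fun i => dig B m' (Nat.add (Nat.mul (pF B (P i)) (pR B v.b))
      (Nat.mul (pF B (N i)) (pR B v.a)))) m,
    tabG (fun i => dig B m' (Nat.add (Nat.mul (pF B (P i)) (pR B v.c))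
      (Nat.mul (pF B (N i)) (pR B v.d)))) m,
    tabG (fun i => dig B m' (Nat.add (Nat.mul (pF B (P i)) (pR B v.d))
      (Nat.mul (pF B (N i)) (pR B v.c)))) m⟩

theorem Len4_mv4 (B : ℕ) (P N : ℕ → List ℕ) (m m' : ℕ) (v : CV4) : Len4 m (mv4 B P N m m' v) :=
  ⟨tabG_length _ _, tabG_length _ _, tabG_length _ _, tabG_length _ _⟩

theorem dig2 {B n : ℕ} (hB : 0 < B) {x1 x2 y1 y2 : List ℕ} (h1 : y1.length = n)
    (h2 : y2.length = n) {S : ℕ} (hS : smN y1 + smN y2 ≤ S) (hSB : (smN x1 + smN x2) * S < B) :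
    dig B n (Nat.add (Nat.mul (pF B x1) (pR B y1)) (Nat.mul (pF B x2) (pR B y2)))
      = dotN x1 y1 + dotN x2 y2 := by
  have k1 := pk hB y1 x1
  have k2 := pk hB y2 x2
  rw [h1] at k1
  rw [h2] at k2
  refine (k1.add k2).dig (lt_of_le_of_lt ?_ hSB)
  refine le_trans ?_ (Nat.mul_le_mul_left _ hS)
  generalize smN x1 = a1
  generalize smN x2 = a2
  generalize smN y1 = b1
  generalize smN y2 = b2
  have e : (a1 + a2) * (b1 + b2) = (a1 * b1 + a2 * b2) + (a1 * b2 + a2 * b1) := by ring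
  rw [e]
  exact Nat.le_add_right _ _

theorem mv4_at {B m m' : ℕ} (hB : 0 < B) {P N : ℕ → List ℕ} {v : CV4} (hv : Len4 m' v) {i : ℕ}
    (hi : i < m) (hP : (P i).length ≤ m') (hN : (N i).length ≤ m')
    (hS : (smN (P i) + smN (N i)) * sum4 v < B) :
    at4 (mv4 B P N m m' v) i = ∑ j ∈ Finset.range m',
      ((((P i).getD j 0 : ℝ) - ((N i).getD j 0 : ℝ) : ℝ) : ℂ) * at4 v j := by
  obtain ⟨v1, v2, v3, v4⟩ := hv
  have e0 : sum4 v = smN v.a + (smN v.b + (smN v.c + smN v.d)) := rfl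
  have e1 := dig2 hB (x1 := P i) (x2 := N i) v1 v2 (S := sum4 v) (by omega) hS
  have e2 := dig2 hB (x1 := P i) (x2 := N i) v2 v1 (S := sum4 v) (by omega) hS
  have e3 := dig2 hB (x1 := P i) (x2 := N i) v3 v4 (S := sum4 v) (by omega) hS
  have e4 := dig2 hB (x1 := P i) (x2 := N i) v4 v3 (S := sum4 v) (by omega) hS
  rw [at4, mv4]
  simp only
  rw [tabG_getD _ _ hi, tabG_getD _ _ hi, tabG_getD _ _ hi, tabG_getD _ _ hi, e1, e2, e3, e4,
    dotN_eq _ _ m' hP, dotN_eq _ _ m' hN, dotN_eq _ _ m' hP, dotN_eq _ _ m' hN,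
    dotN_eq _ _ m' hP, dotN_eq _ _ m' hN, dotN_eq _ _ m' hP, dotN_eq _ _ m' hN]
  apply Complex.ext
  · rw [Complex.re_sum]
    simp only [Nat.cast_add, Nat.cast_sum, Nat.cast_mul]
    rw [← Finset.sum_add_distrib, ← Finset.sum_add_distrib, ← Finset.sum_sub_distrib]
    refine Finset.sum_congr rfl (fun j _ => ?_)
    rw [Complex.re_ofReal_mul]
    simp only [at4]
    ring
  · rw [Complex.im_sum]
    simp only [Nat.cast_add, Nat.cast_sum, Nat.cast_mul]
    rw [← Finset.sum_add_distrib, ← Finset.sum_add_distrib, ← Finset.sum_sub_distrib]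
    refine Finset.sum_congr rfl (fun j _ => ?_)
    rw [Complex.im_ofReal_mul]
    simp only [at4]
    ring

/-- dropping the first entry -/
noncomputable def tlN (l : List ℕ) : List ℕ :=
  List.rec (motive := fun _ => List ℕ) [] (fun _ t _ => t) l

/-- dropping the first entries of a vector -/
noncomputable def tl4 (w : CV4) : CV4 := ⟨tlN w.a, tlN w.b, tlN w.c, tlN w.d⟩

theorem tlN_getD (l : List ℕ) (i : ℕ) : (tlN l).getD i 0 = l.getD (1 + i) 0 := by
  rcases l with _ | ⟨a, l⟩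
  · change ([] : List ℕ).getD i 0 = _
    simp
  · rw [add_comm]
    rfl

theorem tlN_length (l : List ℕ) : (tlN l).length = l.length - 1 := by
  rcases l with _ | ⟨a, l⟩
  · rfl
  · change l.length = _
    rw [List.length_cons]
    omega

theorem tl4_at (w : CV4) (i : ℕ) : at4 (tl4 w) i = at4 w (1 + i) := by
  rw [at4, at4, tl4]
  simp only [tlN_getD]

theorem Len4_tl4 {n : ℕ} {w : CV4} (h : Len4 (n + 1) w) : Len4 n (tl4 w) := by
  obtain ⟨h1, h2, h3, h4⟩ := h
  refine ⟨?_, ?_, ?_, ?_⟩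
  · rw [tl4]
    simp only [tlN_length, h1]
    omega
  · rw [tl4]
    simp only [tlN_length, h2]
    omega
  · rw [tl4]
    simp only [tlN_length, h3]
    omega
  · rw [tl4]
    simp only [tlN_length, h4]
    omega

theorem smN_tlN (l : List ℕ) : smN (tlN l) ≤ smN l := by
  rcases l with _ | ⟨a, l⟩
  · exact le_rfl
  · change smN l ≤ a + smN l
    omega

theorem sum4_tl4 (w : CV4) : sum4 (tl4 w) ≤ sum4 w := by
  have h1 := smN_tlN w.a
  have h2 := smN_tlN w.b
  have h3 := smN_tlN w.c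
  have h4 := smN_tlN w.d
  have e0 : sum4 w = smN w.a + (smN w.b + (smN w.c + smN w.d)) := rfl
  have e1 : sum4 (tl4 w) = smN (tlN w.a) + (smN (tlN w.b) + (smN (tlN w.c) + smN (tlN w.d))) := rfl
  omega

/-- the vector `w` over the denominator `a` is `u` -/
def Rel (a n : ℕ) (u : SV × SV) (w : CV4) : Prop :=
  (∀ i < n, (cget u i).toC = (((1 : ℝ) / (a : ℝ) : ℝ) : ℂ) * at4 w i) ∧ Len4 n w

theorem Rel_cdrop {a n : ℕ} {u : SV × SV} {w : CV4} (h : Rel a (n + 1) u w) :
    Rel a n (cdrop 1 u) (tl4 w) := by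
  refine ⟨fun i hi => ?_, Len4_tl4 h.2⟩
  have h1 : cget (cdrop 1 u) i = cget u (1 + i) := by
    rw [cget, cdrop, cget]
    simp only
    rw [sdrop_get, sdrop_get]
  rw [h1, tl4_at, h.1 (1 + i) (by omega)]

theorem ip_4 {a b B n : ℕ} {u v : SV × SV} {w z : CV4} (hB : 0 < B) (hu : Rel a n u w)
    (hl : SL n u) (hv : Rel b n v z) (hS : sum4 w * sum4 z < B) :
    (ip u v).toC = (((1 : ℝ) / ((a : ℝ) * (b : ℝ)) : ℝ) : ℂ) * (ip4 B n w z).toC := by
  rw [ip_eq u v n hl.1 hl.2, ip4_eq hB hu.2 hv.2 hS, Finset.mul_sum]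
  refine Finset.sum_congr rfl (fun i hi => ?_)
  have hi' := Finset.mem_range.1 hi
  rw [hu.1 i hi', hv.1 i hi', map_mul, Complex.conj_ofReal]
  push_cast
  ring

end Pool.Agent.Helper65.HR2
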