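import Pool.Agent.Helper65.HR2.Kro

/-!
MP_16b0ee, project HR2: families of complex vectors with one common denominator, evaluated with
natural numbers only.
-/

set_option autoImplicit false

open scoped ComplexConjugate

namespace Pool.Agent.Helper65.HR2

open Pool.Agent.Helper24.HR2

/-- positive part of an integer times `c` -/
noncomputable def zP (z : ℤ) (c : ℕ) : ℕ :=
  Int.rec (motive := fun _ => ℕ) (fun a => Nat.mul a c) (fun _ => 0) z

/-- negative part of an integer times `c` -/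
noncomputable def zN (z : ℤ) (c : ℕ) : ℕ :=
  Int.rec (motive := fun _ => ℕ) (fun _ => 0) (fun a => Nat.mul (Nat.succ a) c) z

theorem zPN (z : ℤ) (c : ℕ) : ((zP z c : ℕ) : ℤ) - ((zN z c : ℕ) : ℤ) = z * (c : ℤ) := by
  rcases z with a | a
  · change ((a * c : ℕ) : ℤ) - ((0 : ℕ) : ℤ) = (a : ℤ) * (c : ℤ)
    push_cast
    ring
  · change ((0 : ℕ) : ℤ) - (((a + 1) * c : ℕ) : ℤ) = _
    rw [Int.negSucc_eq]
    push_cast
    ring

/-- numerator, positive part -/
noncomputable def nP (L : ℕ) (q : ℚ) : ℕ := zP q.num (Nat.div L q.den)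

/-- numerator, negative part -/
noncomputable def nN (L : ℕ) (q : ℚ) : ℕ := zN q.num (Nat.div L q.den)

theorem nPN (L : ℕ) (q : ℚ) : ((nP L q : ℕ) : ℤ) - ((nN L q : ℕ) : ℤ) = nmr L q := by
  rw [nP, nN, zPN]
  rfl

theorem nPN_eq {L : ℕ} (hL : 0 < L) {q : ℚ} (h : q.den ∣ L) :
    ((nP L q : ℝ) - (nN L q : ℝ)) = (L : ℝ) * (q : ℝ) := by
  have h1 := nmr_eq hL h
  have hL' : ((L : ℕ) : ℚ) ≠ 0 := by exact_mod_cast hL.ne'
  have h2 : ((nmr L q : ℤ) : ℚ) = (L : ℚ) * q := by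
    field_simp at h1
    linarith
  have h3 : (((nmr L q : ℤ) : ℚ) : ℝ) = (((L : ℚ) * q : ℚ) : ℝ) := by rw [h2]
  rw [← nPN] at h3
  push_cast at h3
  exact h3

/-- a family of vectors -/
noncomputable def fam4 (f : ℕ → ℕ → GQ) (K n t : ℕ) : CV4 :=
  ⟨tabG (fun i => nP (lcdC f K n) (f i t).re) n, tabG (fun i => nN (lcdC f K n) (f i t).re) n,
    tabG (fun i => nP (lcdC f K n) (f i t).im) n, tabG (fun i => nN (lcdC f K n) (f i t).im) n⟩

theorem Rel_fam4 (f : ℕ → ℕ → GQ) {K n t : ℕ} (ht : t < K) :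
    Rel (lcdC f K n) n (cvecU f K n t) (fam4 f K n t) := by
  refine ⟨fun i hi => ?_, tabG_length _ _, tabG_length _ _, tabG_length _ _, tabG_length _ _⟩
  have h1 : (f i t).re.den ∣ lcdC f K n :=
    (den_dvd_lcd2 (fun i t => (f i t).re) K n hi ht).trans (Nat.dvd_lcm_left _ _)
  have h2 : (f i t).im.den ∣ lcdC f K n :=
    (den_dvd_lcd2 (fun i t => (f i t).im) K n hi ht).trans (Nat.dvd_lcm_right _ _)
  have hL : (0 : ℝ) < (lcdC f K n : ℝ) := by exact_mod_cast lcdC_pos f K n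
  rw [cvecU_get f K n hi ht, at4, fam4]
  simp only
  rw [tabG_getD _ _ hi, tabG_getD _ _ hi, tabG_getD _ _ hi, tabG_getD _ _ hi,
    nPN_eq (lcdC_pos f K n) h1, nPN_eq (lcdC_pos f K n) h2]
  apply Complex.ext
  · rw [Complex.re_ofReal_mul, GQ.toC_re]
    field_simp
  · rw [Complex.im_ofReal_mul, GQ.toC_im]
    field_simp

/-- sum of all numbers of a matrix -/
noncomputable def matS (P N : ℕ → List ℕ) : ℕ → ℕ :=
  Nat.rec (motive := fun _ => ℕ) 0 (fun i ih => Nat.add ih (Nat.add (smN (P i)) (smN (N i))))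

/-- sum of all numbers of a family -/
noncomputable def famS (A : ℕ → CV4) : ℕ → ℕ :=
  Nat.rec (motive := fun _ => ℕ) 0 (fun t ih => Nat.add ih (sum4 (A t)))

theorem le_matS (P N : ℕ → List ℕ) (m : ℕ) {i : ℕ} (hi : i < m) :
    smN (P i) + smN (N i) ≤ matS P N m := by
  induction m with
  | zero => omega
  | succ m ih =>
    have e : matS P N (m + 1) = matS P N m + (smN (P m) + smN (N m)) := rfl
    rcases Nat.lt_succ_iff_lt_or_eq.1 hi with h | h
    · have := ih h
      omega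
    · rw [h]
      omega

theorem le_famS (A : ℕ → CV4) (m : ℕ) {i : ℕ} (hi : i < m) : sum4 (A i) ≤ famS A m := by
  induction m with
  | zero => omega
  | succ m ih =>
    have e : famS A (m + 1) = famS A m + sum4 (A m) := rfl
    rcases Nat.lt_succ_iff_lt_or_eq.1 hi with h | h
    · have := ih h
      omega
    · rw [h]
      omega

/-- the base -/
noncomputable def bs (S T : ℕ) : ℕ := Nat.pow 2 (Nat.succ (Nat.log2 (Nat.mul S T)))

theorem bs_pos (S T : ℕ) : 0 < bs S T := Nat.pow_pos (by norm_num)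

theorem lt_bs {S T x y : ℕ} (hx : x ≤ S) (hy : y ≤ T) : x * y < bs S T := by
  refine lt_of_le_of_lt (Nat.mul_le_mul hx hy) ?_
  change S * T < 2 ^ (Nat.log2 (S * T) + 1)
  exact Nat.lt_log2_self

/-- rows of a matrix, positive parts -/
noncomputable def rwP (f : ℕ → ℕ → ℚ) (L m' i : ℕ) : List ℕ := tabG (fun j => nP L (f i j)) m'

/-- rows of a matrix, negative parts -/
noncomputable def rwN (f : ℕ → ℕ → ℚ) (L m' i : ℕ) : List ℕ := tabG (fun j => nN L (f i j)) m'

/-- product of a matrix and a family -/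
noncomputable def mvF (P N : ℕ → List ℕ) (m m' K : ℕ) (A : ℕ → CV4) (t : ℕ) : CV4 :=
  mv4 (bs (matS P N m) (famS A K)) P N m m' (A t)

/-- product of a rational matrix and a family of vectors of length `n` -/
noncomputable def mvR (f : ℕ → ℕ → ℚ) (m m' n K : ℕ) (A : ℕ → CV4) (t : ℕ) : CV4 :=
  mvF (rwP f (lcd2 f m' m) m') (rwN f (lcd2 f m' m) m') m n K A t

theorem Rel_mvF {X : RM} {f : ℕ → ℕ → ℚ} {P N : ℕ → List ℕ} {m m' n K a t : ℕ} {u : SV × SV}
    {A : ℕ → CV4} (hn : m' ≤ n) (ht : t < K) (h : Rel a n u (A t))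
    (hP : ∀ i < m, (P i).length = m') (hN : ∀ i < m, (N i).length = m')
    (hX : ∀ i < m, (cget (mvc X u) i).toC
      = ∑ j ∈ Finset.range m', ((f i j : ℝ) : ℂ) * (cget u j).toC)
    (hf : ∀ i < m, ∀ j < m', (f i j : ℝ)
      = (1 / (X.den : ℝ)) * (((P i).getD j 0 : ℝ) - ((N i).getD j 0 : ℝ))) :
    Rel (Nat.mul X.den a) m (mvc X u) (mvF P N m n K A t) := by
  refine ⟨fun i hi => ?_, Len4_mv4 _ _ _ _ _ _⟩
  have e : ((Nat.mul X.den a : ℕ) : ℝ) = (X.den : ℝ) * (a : ℝ) := by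
    change ((X.den * a : ℕ) : ℝ) = _
    push_cast
    ring
  have e2 : ∑ j ∈ Finset.range n,
      ((((P i).getD j 0 : ℝ) - ((N i).getD j 0 : ℝ) : ℝ) : ℂ) * at4 (A t) j
      = ∑ j ∈ Finset.range m',
      ((((P i).getD j 0 : ℝ) - ((N i).getD j 0 : ℝ) : ℝ) : ℂ) * at4 (A t) j := by
    refine (Finset.sum_subset (Finset.range_mono hn) (fun j _ hj => ?_)).symm
    have hj' : m' ≤ j := by
      by_contra hh
      exact hj (Finset.mem_range.2 (by omega))
    rw [getD_of_le _ (by rw [hP i hi]; exact hj'), getD_of_le _ (by rw [hN i hi]; exact hj')]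
    simp
  rw [hX i hi, mvF, mv4_at (bs_pos _ _) h.2 hi ((hP i hi).le.trans hn) ((hN i hi).le.trans hn)
    (lt_bs (le_matS P N m hi) (le_famS A K ht)), e, e2, Finset.mul_sum]
  refine Finset.sum_congr rfl (fun j hj => ?_)
  have hj' := Finset.mem_range.1 hj
  rw [hf i hi j hj', h.1 j (by omega)]
  push_cast
  ring

theorem Rel_mvR {f : ℕ → ℕ → ℚ} {m m' n K a t : ℕ} {u : SV × SV} {A : ℕ → CV4} (hn : m' ≤ n)
    (ht : t < K) (h : Rel a n u (A t)) :
    Rel (Nat.mul (rm f m m').den a) m (mvc (rm f m m') u) (mvR f m m' n K A t) := by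
  refine Rel_mvF (f := f) hn ht h (fun i _ => tabG_length _ _) (fun i _ => tabG_length _ _)
    (fun i hi => mvc_get f m m' u hi) (fun i hi j hj => ?_)
  have hL : (0 : ℝ) < (lcd2 f m' m : ℝ) := by exact_mod_cast lcd2_pos f m' m
  rw [rwP, rwN, tabG_getD _ _ hj, tabG_getD _ _ hj,
    nPN_eq (lcd2_pos f m' m) (den_dvd_lcd2 f m' m hi hj)]
  change _ = 1 / ((lcd2 f m' m : ℕ) : ℝ) * _
  field_simp

/-- Hermitian products of two families -/
noncomputable def ipF4 (K n : ℕ) (A A' : ℕ → CV4) (r t : ℕ) : G4 :=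
  ip4 (bs (famS A K) (famS A' K)) n (A r) (A' t)

theorem ip_F4 {K n a b r t : ℕ} {u v : SV × SV} {A A' : ℕ → CV4} (hr : r < K) (ht : t < K)
    (hu : Rel a n u (A r)) (hl : SL n u) (hv : Rel b n v (A' t)) :
    (ip u v).toC = (((1 : ℝ) / ((a : ℝ) * (b : ℝ)) : ℝ) : ℂ) * (ipF4 K n A A' r t).toC :=
  ip_4 (bs_pos _ _) hu hl hv (lt_bs (le_famS A K hr) (le_famS A' K ht))

/-- one term of a form: a rational coefficient, a denominator and a matrix -/
structure TZ4 where
  /-- coefficient -/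
  q : ℚ
  /-- denominator -/
  d : ℕ
  /-- matrix -/
  z : ℕ → ℕ → G4

/-- the weight of a term -/
noncomputable def wgC (L : ℕ) (T : TZ4) : ℕ := Nat.div L (Nat.mul T.q.den T.d)

/-- integral combination of terms over the common denominator `L` -/
noncomputable def zsum4 (L : ℕ) : List TZ4 → ℕ → ℕ → G4 :=
  List.rec (motive := fun _ => ℕ → ℕ → G4) (fun _ _ => ⟨0, 0, 0, 0⟩)
    (fun T _ ih i j =>
      G4.rec (motive := fun _ => G4)
        (fun a b c d => G4.rec (motive := fun _ => G4)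
          (fun a' b' c' d' =>
            ⟨Nat.add (Nat.add (Nat.mul (zP T.q.num (wgC L T)) a)
                (Nat.mul (zN T.q.num (wgC L T)) b)) a',
              Nat.add (Nat.add (Nat.mul (zP T.q.num (wgC L T)) b)
                (Nat.mul (zN T.q.num (wgC L T)) a)) b',
              Nat.add (Nat.add (Nat.mul (zP T.q.num (wgC L T)) c)
                (Nat.mul (zN T.q.num (wgC L T)) d)) c',
              Nat.add (Nat.add (Nat.mul (zP T.q.num (wgC L T)) d)
                (Nat.mul (zN T.q.num (wgC L T)) c)) d'⟩) (ih i j)) (T.z i j))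

theorem zsum4_nil (L i j : ℕ) : zsum4 L [] i j = ⟨0, 0, 0, 0⟩ := rfl

theorem zsum4_cons (L : ℕ) (T : TZ4) (l : List TZ4) (i j : ℕ) :
    zsum4 L (T :: l) i j =
      ⟨(zP T.q.num (wgC L T) * (T.z i j).a + zN T.q.num (wgC L T) * (T.z i j).b)
          + (zsum4 L l i j).a,
        (zP T.q.num (wgC L T) * (T.z i j).b + zN T.q.num (wgC L T) * (T.z i j).a)
          + (zsum4 L l i j).b,
        (zP T.q.num (wgC L T) * (T.z i j).c + zN T.q.num (wgC L T) * (T.z i j).d)
          + (zsum4 L l i j).c,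
        (zP T.q.num (wgC L T) * (T.z i j).d + zN T.q.num (wgC L T) * (T.z i j).c)
          + (zsum4 L l i j).d⟩ := rfl

/-- the rational value of a list of terms -/
noncomputable def tsum4 (l : List TZ4) (i j : ℕ) : ℂ :=
  (l.map (fun T => (((T.q : ℝ) / (T.d : ℝ) : ℝ) : ℂ) * (T.z i j).toC)).sum

/-- common denominator of the terms -/
noncomputable def lcdT4 : List TZ4 → ℕ :=
  List.rec (motive := fun _ => ℕ) 1 (fun T _ ih => Nat.lcm (Nat.mul T.q.den T.d) ih)

theorem lcdT4_dvd (l : List TZ4) {T : TZ4} (h : T ∈ l) : Nat.mul T.q.den T.d ∣ lcdT4 l := by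
  induction l with
  | nil => simp at h
  | cons T' l ih =>
    change _ ∣ Nat.lcm (Nat.mul T'.q.den T'.d) (lcdT4 l)
    rcases List.mem_cons.1 h with h | h
    · rw [h]
      exact Nat.dvd_lcm_left _ _
    · exact (ih h).trans (Nat.dvd_lcm_right _ _)

theorem zsum4_eq {L : ℕ} (hL : 0 < L) (l : List TZ4) (h : ∀ T ∈ l, Nat.mul T.q.den T.d ∣ L)
    (i j : ℕ) : (zsum4 L l i j).toC = ((L : ℝ) : ℂ) * tsum4 l i j := by
  induction l with
  | nil =>
    rw [zsum4_nil, tsum4, G4.toC]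
    simp
    rfl
  | cons T l ih =>
    have h1 := ih (fun T' hT' => h T' (List.mem_cons_of_mem _ hT'))
    have h2 := wgt_eq hL (h T (List.mem_cons_self ..))
    have h3 : tsum4 (T :: l) i j = (((T.q : ℝ) / (T.d : ℝ) : ℝ) : ℂ) * (T.z i j).toC
        + tsum4 l i j := by
      rw [tsum4, List.map_cons, List.sum_cons, tsum4]
    have h4 : ((zP T.q.num (wgC L T) : ℕ) : ℝ) - ((zN T.q.num (wgC L T) : ℕ) : ℝ)
        = (L : ℝ) * ((T.q : ℝ) / (T.d : ℝ)) := by
      rw [← h2]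
      have h5 := zPN T.q.num (wgC L T)
      have h6 : T.q.num * ((wgC L T : ℕ) : ℤ) = wgt L T.q T.d := rfl
      rw [h6] at h5
      exact_mod_cast h5
    rw [h3, mul_add, ← h1, ← mul_assoc, ← Complex.ofReal_mul, ← h4, zsum4_cons, G4.toC, G4.toC,
      G4.toC]
    generalize zP T.q.num (wgC L T) = x
    generalize zN T.q.num (wgC L T) = y
    apply Complex.ext
    · rw [Complex.add_re, Complex.re_ofReal_mul]
      push_cast
      ring
    · rw [Complex.add_im, Complex.im_ofReal_mul]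
      push_cast
      ring

/-- twice the Hermitian part, as Gaussian integer -/
noncomputable def hz4 (z : ℕ → ℕ → G4) (i j : ℕ) : GZ :=
  G4.rec (motive := fun _ => GZ)
    (fun a b c d => G4.rec (motive := fun _ => GZ)
      (fun a' b' c' d' => ⟨Int.subNatNat (Nat.add a a') (Nat.add b b'),
        Int.subNatNat (Nat.add c d') (Nat.add d c')⟩) (z j i)) (z i j)

theorem hz4_eq (z : ℕ → ℕ → G4) (i j : ℕ) :
    (hz4 z i j).toC = (z i j).toC + conj (z j i).toC := by
  have e : hz4 z i j = ⟨Int.subNatNat ((z i j).a + (z j i).a) ((z i j).b + (z j i).b),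
      Int.subNatNat ((z i j).c + (z j i).d) ((z i j).d + (z j i).c)⟩ := rfl
  rw [e, GZ.toC_eq, Int.subNatNat_eq_coe, Int.subNatNat_eq_coe, G4.toC, G4.toC]
  apply Complex.ext
  · rw [Complex.add_re, Complex.conj_re]
    push_cast
    ring
  · rw [Complex.add_im, Complex.conj_im]
    push_cast
    ring

theorem hz4_hF (K : ℕ) (z : ℕ → ℕ → G4) (g : ℕ → ℂ) :
    uf K (fun i j => (hz4 z i j).toQ) g = 2 * hF K (fun r t => (z r t).toC) g := by
  obtain ⟨y, hy⟩ : ∃ y : ℕ → ℕ → GZ, y = fun i j => ⟨Int.subNatNat (z i j).a (z i j).b,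
    Int.subNatNat (z i j).c (z i j).d⟩ := ⟨_, rfl⟩
  have h1 : ∀ i j, (y i j).toC = (z i j).toC := by
    intro i j
    rw [hy, GZ.toC_eq]
    simp only
    rw [Int.subNatNat_eq_coe, Int.subNatNat_eq_coe, G4.toC]
    push_cast
    rfl
  have h2 := hz_hF K y g
  have h3 : (fun r t => (y r t).toC) = fun r t => (z r t).toC := by
    funext r t
    exact h1 r t
  rw [h3] at h2
  rw [← h2]
  refine uf_congr K _ _ g (fun i j _ _ => ?_)
  have h4 := hz4_eq z i j
  have h5 := hz_eq y i j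
  rw [h1, h1] at h5
  exact h4.trans h5.symm

theorem chkZ_hF4 (K : ℕ) (A B C D : ℕ → ℕ → G4) (E S M : ℚ)
    (h : chkZ K (hz4 A) (hz4 B) (hz4 C) (hz4 D) E S M = true) (g : ℕ → ℂ) :
    0 ≤ hF K (fun r t => (A r t).toC) g - (E : ℝ) * (hF K (fun r t => (B r t).toC) g
      + (S : ℝ) * hF K (fun r t => (C r t).toC) g
      + (M : ℝ) * hF K (fun r t => (D r t).toC) g) := by
  have h5 := chkZ_uf K _ _ _ _ E S M h g
  rw [hz4_hF, hz4_hF, hz4_hF, hz4_hF] at h5
  linarith

end Pool.Agent.Helper65.HR2
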