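import Pool.Agent.Helper65.HR2.Ser
import Pool.Agent.Helper24.HR2.NumD

/-!
MP_16b0ee, project HR2: the lower bound of the area form at one point as a Hermitian matrix of
order three with Gaussian rational entries.
-/

set_option autoImplicit false

open scoped ComplexConjugate

namespace Pool.Agent.Helper65.HR2

open Pool.Agent.Helper24.HR2

/-- the matrix of `sum_(l,k) w l k * (A l g) * conj (B k g)` -/
def bil (m m' : ℕ) (w : ℕ → ℕ → ℚ) (A B : ℕ → ℕ → GQ) (r t : ℕ) : GQ :=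
  smG (fun l => (A l t).mul (smG (fun k => ((B k r).cj).sc (w l k)) m')) m

theorem bil_eq (K m m' : ℕ) (w : ℕ → ℕ → ℚ) (A B : ℕ → ℕ → GQ) (g : ℕ → ℂ) :
    hF K (fun r t => (bil m m' w A B r t).toC) g
      = ∑ l ∈ Finset.range m, ∑ k ∈ Finset.range m', (w l k : ℝ)
        * ((∑ t ∈ Finset.range K, (A l t).toC * g t)
          * conj (∑ r ∈ Finset.range K, (B k r).toC * g r)).re := by
  have h1 : (fun r t => (bil m m' w A B r t).toC)
      = fun r t => ∑ l ∈ Finset.range m, ∑ k ∈ Finset.range m', (((w l k : ℚ) : ℝ) : ℂ)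
        * ((A l t).toC * conj ((B k r).toC)) := by
    funext r t
    rw [bil, smG_eq]
    refine Finset.sum_congr rfl (fun l _ => ?_)
    rw [GQ.toC_mul, smG_eq, Finset.mul_sum]
    refine Finset.sum_congr rfl (fun k _ => ?_)
    rw [GQ.toC_sc, GQ.toC_cj]
    ring
  rw [h1, hF_sum]
  refine Finset.sum_congr rfl (fun l _ => ?_)
  rw [hF_sum]
  refine Finset.sum_congr rfl (fun k _ => ?_)
  rw [hF_smul, hF_prod]

/-- the product in the functionals -/
def prQ (s : GQ) : ℕ → GQ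
  | 0 => ⟨1, 0⟩
  | n + 1 => (prQ s n).mul ⟨s.re + 2 + n, s.im⟩

theorem prQ_eq (s : GQ) (n : ℕ) : (prQ s n).toC = ∏ k ∈ Finset.range n, (s.toC + 2 + k) := by
  induction n with
  | zero =>
    rw [prQ, GQ.toC_mk]
    simp
  | succ n ih =>
    rw [prQ, GQ.toC_mul, Finset.prod_range_succ, ← ih]
    congr 1
    apply Complex.ext <;> simp [GQ.toC]

/-- the functionals -/
def muQ (s : GQ) (n r : ℕ) : GQ :=
  (prQ s n).sc ((Nat.choose (n + 1) (2 * r) : ℚ) * (1 / 2) ^ (n + 1 - 2 * r)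
    / (Nat.factorial (n + 1) : ℚ))

theorem muQ_eq (s : GQ) (K : ℕ) (g : ℕ → ℂ) (n : ℕ) :
    muS s.toC K g n = ∑ r ∈ Finset.range K, (muQ s n r).toC * g r := by
  rw [muS, Finset.mul_sum]
  refine Finset.sum_congr rfl (fun r _ => ?_)
  rw [muQ, GQ.toC_sc, prQ_eq]
  push_cast
  ring

/-- the coefficients of the inner function -/
def phQ (s : GQ) (D : ℕ) (p : ℕ → ℕ → ℚ) : ℕ → ℕ → GQ
  | 0, r => ((GQ.mk (1 + s.re) s.im).inv.sc 2).mul (muQ s 0 r)
  | l + 1, r => smG (fun n => (muQ s n r).sc (p n l)) D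

theorem phQ_eq (s : GQ) (D : ℕ) (p : ℕ → ℕ → ℚ) (K : ℕ) (g : ℕ → ℂ) (l : ℕ) :
    FF s.toC D (fun n l => (p n l : ℝ)) (muS s.toC K g) l
      = ∑ r ∈ Finset.range K, (phQ s D p l r).toC * g r := by
  rcases l with _ | l
  · rw [FF, muQ_eq, Finset.mul_sum]
    refine Finset.sum_congr rfl (fun r _ => ?_)
    rw [phQ, GQ.toC_mul, GQ.toC_sc, GQ.toC_inv]
    have : (GQ.mk (1 + s.re) s.im).toC = 1 + s.toC := by
      apply Complex.ext <;> simp [GQ.toC]
    rw [this]
    push_cast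
    ring
  · rw [FF]
    have h1 : ∀ r, (phQ s D p (l + 1) r).toC
        = ∑ n ∈ Finset.range D, ((p n l : ℝ) : ℂ) * (muQ s n r).toC := by
      intro r
      rw [phQ, smG_eq]
      exact Finset.sum_congr rfl (fun n _ => by rw [GQ.toC_sc])
    simp only [h1, muQ_eq]
    simp only [Finset.sum_mul, Finset.mul_sum]
    rw [Finset.sum_comm]
    refine Finset.sum_congr rfl (fun r _ => Finset.sum_congr rfl (fun n _ => ?_))
    ring

/-! the matrices -/

/-- the linear part -/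
def linM (s : GQ) (N : ℕ) (T : ℕ → ℕ → GQ) (r t : ℕ) : GQ :=
  (smG (fun n => (muQ s n t).mul (T n r).cj) N).sc 2

theorem linM_eq (s : GQ) (N : ℕ) (T : ℕ → ℕ → GQ) (K : ℕ) (g : ℕ → ℂ) :
    hF K (fun r t => (linM s N T r t).toC) g
      = linF s.toC K N g (Tg K (fun n r => (T n r).toC) g) := by
  have h1 : (fun r t => (linM s N T r t).toC)
      = fun r t => ((2 : ℝ) : ℂ) * ∑ n ∈ Finset.range N, (muQ s n t).toC * conj ((T n r).toC) := by
    funext r t
    rw [linM, GQ.toC_sc, smG_eq]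
    push_cast
    congr 1
    refine Finset.sum_congr rfl (fun n _ => ?_)
    rw [GQ.toC_mul, GQ.toC_cj]
  rw [h1, hF_smul, hF_sum, linF, Complex.re_sum]
  congr 1
  refine Finset.sum_congr rfl (fun n _ => ?_)
  rw [hF_prod, muQ_eq, Tg, mul_comm]

theorem gam_eq {s : ℂ} {r b : ℚ} (hr : s.re = r) (N : ℕ) (T : ℕ → ℕ → GQ) (K : ℕ) (g : ℕ → ℂ) :
    hF K (fun i j => (bil N N (fun n k => gmQ r b (n + k)) T T i j).toC) g
      = gamF s b N (Tg K (fun n r => (T n r).toC) g) := by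
  rw [bil_eq, gamF]
  refine Finset.sum_congr rfl (fun n _ => Finset.sum_congr rfl (fun k _ => ?_))
  rw [gmQ_eq hr, Tg, Tg]

theorem nmain_eq (s : GQ) (b : ℚ) (D : ℕ) (p : ℕ → ℕ → ℚ) (K : ℕ) (g : ℕ → ℂ) :
    hF K (fun i j => (bil (D + 1) (D + 1) (fun l k => wQ b (l + k)) (phQ s D p) (phQ s D p)
      i j).toC) g
      = Nmain b D (FF s.toC D (fun n l => (p n l : ℝ)) (muS s.toC K g)) := by
  rw [bil_eq, Nmain]
  refine Finset.sum_congr rfl (fun l _ => Finset.sum_congr rfl (fun k _ => ?_))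
  rw [phQ_eq, phQ_eq, wQ]
  push_cast
  rw [one_div, inv_mul_eq_div]
  congr 1
  ring

/-- coefficients of the cross functions -/
def cJQ (b : ℚ) (D : ℕ) (p : ℕ → ℕ → ℚ) (l j : ℕ) : ℚ :=
  1 / ((b + l + 1 + j) * (b + l + 2 + j))
    - if j < D then sm (fun l' => p j l' * wQ b (l + l' + 1)) D else 0

theorem cJQ_eq (b : ℚ) (D : ℕ) (p : ℕ → ℕ → ℚ) (l j : ℕ) :
    ((cJQ b D p l j : ℚ) : ℝ) = cJ b D (fun n l => (p n l : ℝ)) l j := by
  rw [cJQ, cJ]
  split_ifs with h
  · push_cast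
    rw [sm_eq]
    congr 1
    refine Finset.sum_congr rfl (fun l' _ => ?_)
    rw [wQ]
    push_cast
    rw [mul_one_div]
    congr 1
    ring
  · push_cast
    ring

/-- inner sums -/
def vQ (r b : ℚ) (D : ℕ) (p : ℕ → ℕ → ℚ) (J k i : ℕ) : ℚ :=
  sm (fun j => gmQ r b (i + j) * cJQ b D p k j) J

/-- the matrix of the cross functional -/
def WQ (r b : ℚ) (D : ℕ) (p : ℕ → ℕ → ℚ) (J : ℕ) (th : ℚ) (l k : ℕ) : ℚ :=
  (1 + th) * sm (fun i => cJQ b D p l i * vQ r b D p J k i) J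
    + if l = k then (1 + 1 / th) * gmQ r b (2 * J)
      * sm (fun l' => 1 / (b + l' + 1 + J)) (D + 1) * (1 / (b + l + 1 + J)) else 0

theorem cs_tail (m : ℕ) (w : ℕ → ℝ) (hw : ∀ l, 0 ≤ w l) (F : ℕ → ℂ) :
    (∑ l ∈ Finset.range m, ‖F l‖ * w l) ^ 2
      ≤ (∑ l ∈ Finset.range m, w l) * ∑ l ∈ Finset.range m, w l * (F l * conj (F l)).re := by
  have h1 : ∀ l, (F l * conj (F l)).re = ‖F l‖ ^ 2 := by
    intro l
    rw [Complex.mul_conj, ← Complex.normSq_eq_norm_sq]
    exact Complex.ofReal_re _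
  simp only [h1]
  have := Finset.sum_mul_sq_le_sq_mul_sq (Finset.range m) (fun l => Real.sqrt (w l))
    (fun l => Real.sqrt (w l) * ‖F l‖)
  have e1 : ∀ l, Real.sqrt (w l) * (Real.sqrt (w l) * ‖F l‖) = ‖F l‖ * w l := by
    intro l
    rw [← mul_assoc, Real.mul_self_sqrt (hw l), mul_comm]
  have e2 : ∀ l, Real.sqrt (w l) ^ 2 = w l := fun l => Real.sq_sqrt (hw l)
  have e3 : ∀ l, (Real.sqrt (w l) * ‖F l‖) ^ 2 = w l * ‖F l‖ ^ 2 := by
    intro l
    rw [mul_pow, e2]
  simp only [e1, e2, e3] at this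
  exact this

theorem ncross_le {s : GQ} {b : ℚ} (hs : -1 < s.toC.re) (hb : 0 < (b : ℝ))
    (hσ : 0 < (b : ℝ) + 1 - 2 * s.toC.re) {D J : ℕ} (hJ : D ≤ J) (p : ℕ → ℕ → ℚ) (K : ℕ)
    (g : ℕ → ℂ) {th : ℚ} (hth : 0 < (th : ℝ)) :
    Ncross s.toC b D (fun n l => (p n l : ℝ))
        (FF s.toC D (fun n l => (p n l : ℝ)) (muS s.toC K g))
      ≤ hF K (fun i j => (bil (D + 1) (D + 1) (WQ s.re b D p J th) (phQ s D p) (phQ s D p)
          i j).toC) g := by
  set F := FF s.toC D (fun n l => (p n l : ℝ)) (muS s.toC K g) with hFd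
  refine (Ncross_le hs hb hσ hJ _ F hth).trans ?_
  have hr : s.toC.re = (s.re : ℝ) := rfl
  rw [bil_eq]
  have hF1 : ∀ l, (∑ t ∈ Finset.range K, (phQ s D p l t).toC * g t) = F l := by
    intro l
    rw [hFd, phQ_eq]
  simp only [hF1]
  -- the main part
  have m1 : ∑ i ∈ Finset.range J, ∑ j ∈ Finset.range J, Gm s.toC b (i + j)
        * ((∑ l ∈ Finset.range (D + 1), F l * (cJ b D (fun n l => (p n l : ℝ)) l i : ℂ))
          * conj (∑ l ∈ Finset.range (D + 1), F l
            * (cJ b D (fun n l => (p n l : ℝ)) l j : ℂ))).re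
      = ∑ l ∈ Finset.range (D + 1), ∑ k ∈ Finset.range (D + 1),
        ((sm (fun i => cJQ b D p l i * vQ s.re b D p J k i) J : ℚ) : ℝ)
          * (F l * conj (F k)).re := by
    have e1 : ∀ i j, ((∑ l ∈ Finset.range (D + 1), F l
            * (cJ b D (fun n l => (p n l : ℝ)) l i : ℂ))
          * conj (∑ l ∈ Finset.range (D + 1), F l
            * (cJ b D (fun n l => (p n l : ℝ)) l j : ℂ))).re
        = ∑ l ∈ Finset.range (D + 1), ∑ k ∈ Finset.range (D + 1),
          cJ b D (fun n l => (p n l : ℝ)) l i * cJ b D (fun n l => (p n l : ℝ)) k j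
            * (F l * conj (F k)).re := by
      intro i j
      rw [map_sum, Finset.sum_mul_sum, Complex.re_sum]
      refine Finset.sum_congr rfl (fun l _ => ?_)
      rw [Complex.re_sum]
      refine Finset.sum_congr rfl (fun k _ => ?_)
      rw [map_mul, Complex.conj_ofReal]
      rw [show F l * (cJ b D (fun n l => (p n l : ℝ)) l i : ℂ)
          * (conj (F k) * (cJ b D (fun n l => (p n l : ℝ)) k j : ℂ))
        = ((cJ b D (fun n l => (p n l : ℝ)) l i * cJ b D (fun n l => (p n l : ℝ)) k j : ℝ) : ℂ)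
          * (F l * conj (F k)) from by push_cast; ring]
      rw [Complex.re_ofReal_mul]
    simp only [e1, Finset.mul_sum]
    have e2 : ∀ l k, ((sm (fun i => cJQ b D p l i * vQ s.re b D p J k i) J : ℚ) : ℝ)
        = ∑ i ∈ Finset.range J, ∑ j ∈ Finset.range J, Gm s.toC b (i + j)
          * (cJ b D (fun n l => (p n l : ℝ)) l i * cJ b D (fun n l => (p n l : ℝ)) k j) := by
      intro l k
      rw [sm_eq]
      refine Finset.sum_congr rfl (fun i _ => ?_)
      rw [Rat.cast_mul, vQ, sm_eq, Finset.mul_sum]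
      refine Finset.sum_congr rfl (fun j _ => ?_)
      rw [Rat.cast_mul, gmQ_eq hr, cJQ_eq, cJQ_eq]
      ring
    simp only [e2, Finset.sum_mul]
    -- reorder the sums
    calc ∑ i ∈ Finset.range J, ∑ j ∈ Finset.range J, ∑ l ∈ Finset.range (D + 1),
          ∑ k ∈ Finset.range (D + 1), Gm s.toC b (i + j)
            * (cJ b D (fun n l => (p n l : ℝ)) l i * cJ b D (fun n l => (p n l : ℝ)) k j
              * (F l * conj (F k)).re)
        = ∑ i ∈ Finset.range J, ∑ l ∈ Finset.range (D + 1), ∑ k ∈ Finset.range (D + 1),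
          ∑ j ∈ Finset.range J, Gm s.toC b (i + j)
            * (cJ b D (fun n l => (p n l : ℝ)) l i * cJ b D (fun n l => (p n l : ℝ)) k j
              * (F l * conj (F k)).re) := by
          refine Finset.sum_congr rfl (fun i _ => ?_)
          rw [Finset.sum_comm]
          refine Finset.sum_congr rfl (fun l _ => ?_)
          rw [Finset.sum_comm]
      _ = ∑ l ∈ Finset.range (D + 1), ∑ k ∈ Finset.range (D + 1), ∑ i ∈ Finset.range J,
          ∑ j ∈ Finset.range J, Gm s.toC b (i + j)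
            * (cJ b D (fun n l => (p n l : ℝ)) l i * cJ b D (fun n l => (p n l : ℝ)) k j
              * (F l * conj (F k)).re) := by
          rw [Finset.sum_comm]
          refine Finset.sum_congr rfl (fun l _ => ?_)
          rw [Finset.sum_comm]
      _ = _ := by
          refine Finset.sum_congr rfl (fun l _ => Finset.sum_congr rfl (fun k _ =>
            Finset.sum_congr rfl (fun i _ => Finset.sum_congr rfl (fun j _ => ?_))))
          ring
  rw [m1]
  -- the tail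
  have hG : (0 : ℝ) ≤ Gm s.toC b (2 * J) := by
    rw [Gm]
    refine Finset.prod_nonneg (fun k _ => ?_)
    have : (0 : ℝ) ≤ k := Nat.cast_nonneg k
    apply div_nonneg <;> linarith
  have t1 := cs_tail (D + 1) (fun l => 1 / ((b : ℝ) + l + 1 + J)) (fun l => by positivity) F
  have t2 : (∑ l ∈ Finset.range (D + 1), ‖F l‖ / ((b : ℝ) + l + 1 + J))
      = ∑ l ∈ Finset.range (D + 1), ‖F l‖ * (1 / ((b : ℝ) + l + 1 + J)) :=
    Finset.sum_congr rfl (fun l _ => by rw [mul_one_div])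
  rw [t2]
  have t3 : (0 : ℝ) ≤ (1 + 1 / (th : ℝ)) * Gm s.toC b (2 * J) := by positivity
  have t4 := mul_le_mul_of_nonneg_left t1 t3
  have t5 : ∑ l ∈ Finset.range (D + 1), ∑ k ∈ Finset.range (D + 1),
        ((WQ s.re b D p J th l k : ℚ) : ℝ) * (F l * conj (F k)).re
      = (1 + (th : ℝ)) * ∑ l ∈ Finset.range (D + 1), ∑ k ∈ Finset.range (D + 1),
        ((sm (fun i => cJQ b D p l i * vQ s.re b D p J k i) J : ℚ) : ℝ)
          * (F l * conj (F k)).re
        + (1 + 1 / (th : ℝ)) * Gm s.toC b (2 * J)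
          * ((∑ l ∈ Finset.range (D + 1), 1 / ((b : ℝ) + l + 1 + J))
            * ∑ l ∈ Finset.range (D + 1), 1 / ((b : ℝ) + l + 1 + J)
              * (F l * conj (F l)).re) := by
    have u1 : ∀ l k, ((WQ s.re b D p J th l k : ℚ) : ℝ) * (F l * conj (F k)).re
        = (1 + (th : ℝ)) * (((sm (fun i => cJQ b D p l i * vQ s.re b D p J k i) J : ℚ) : ℝ)
          * (F l * conj (F k)).re) + (if l = k then (1 + 1 / (th : ℝ)) * Gm s.toC b (2 * J)
          * (∑ l ∈ Finset.range (D + 1), 1 / ((b : ℝ) + l + 1 + J))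
            * (1 / ((b : ℝ) + l + 1 + J)) * (F l * conj (F k)).re else 0) := by
      intro l k
      have u2 : ((sm (fun l' => 1 / (b + l' + 1 + J)) (D + 1) : ℚ) : ℝ)
          = ∑ l ∈ Finset.range (D + 1), 1 / ((b : ℝ) + l + 1 + J) := by
        rw [sm_eq]
        exact Finset.sum_congr rfl (fun l _ => by push_cast; ring)
      rw [← u2, ← gmQ_eq hr, WQ]
      split_ifs with h
      · push_cast
        ring
      · push_cast
        ring
    have u3 : ∑ l ∈ Finset.range (D + 1), ∑ k ∈ Finset.range (D + 1),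
        (if l = k then (1 + 1 / (th : ℝ)) * Gm s.toC b (2 * J)
          * (∑ l ∈ Finset.range (D + 1), 1 / ((b : ℝ) + l + 1 + J))
            * (1 / ((b : ℝ) + l + 1 + J)) * (F l * conj (F k)).re else 0)
        = (1 + 1 / (th : ℝ)) * Gm s.toC b (2 * J)
          * ((∑ l ∈ Finset.range (D + 1), 1 / ((b : ℝ) + l + 1 + J))
            * ∑ l ∈ Finset.range (D + 1), 1 / ((b : ℝ) + l + 1 + J)
              * (F l * conj (F l)).re) := by
      generalize (∑ l ∈ Finset.range (D + 1), 1 / ((b : ℝ) + l + 1 + J)) = w0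
      rw [← mul_assoc, Finset.mul_sum]
      refine Finset.sum_congr rfl (fun l hl => ?_)
      rw [Finset.sum_ite_eq, if_pos hl]
      ring
    simp only [u1, Finset.sum_add_distrib, ← Finset.mul_sum]
    rw [u3]
  rw [t5]
  linarith

end Pool.Agent.Helper65.HR2
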