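import Pool.Agent.Helper65.HR2.Psd
import Pool.Agent.Helper65.HR2.Fast

/-!
MP_16b0ee, project HR2: positivity of a Hermitian matrix depending affinely on three parameters,
by integer arithmetic.
-/

set_option autoImplicit false

open scoped ComplexConjugate

namespace Pool.Agent.Helper65.HR2

open Pool.Agent.Helper24.HR2

/-- Gaussian integers -/
structure GZ where
  /-- real part -/
  re : ℤ
  /-- imaginary part -/
  im : ℤ

/-- the Gaussian rational -/
def GZ.toQ (x : GZ) : GQ := ⟨(x.re : ℚ), (x.im : ℚ)⟩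

/-- an entry of the Schur complement -/
noncomputable def schZ (h : ℤ) (a m b : GZ) : GZ :=
  ⟨Int.sub (Int.mul h m.re) (Int.add (Int.mul a.re b.re) (Int.mul a.im b.im)),
    Int.sub (Int.mul h m.im) (Int.sub (Int.mul a.re b.im) (Int.mul a.im b.re))⟩

/-- a row of the Schur complement -/
noncomputable def zipS (h : ℤ) (a : GZ) : List GZ → List GZ → List GZ :=
  List.rec (motive := fun _ => List GZ → List GZ) (fun _ => [])
    (fun m _ ih v => List.rec (motive := fun _ => List GZ) []
      (fun b t _ => schZ h a m b :: ih t) v)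

/-- the Schur complement -/
noncomputable def schL (h : ℤ) : List GZ → List (List GZ) → List (List GZ) :=
  List.rec (motive := fun _ => List (List GZ) → List (List GZ)) (fun _ => [])
    (fun a u ih rows => List.rec (motive := fun _ => List (List GZ)) []
      (fun row rest _ => zipS h a row (a :: u) :: ih rest) rows)

/-- the check, for a list of rows of the upper triangle -/
noncomputable def psdL : ℕ → List (List GZ) → Bool :=
  Nat.rec (motive := fun _ => List (List GZ) → Bool) (fun _ => true)
    (fun _ ih rows => List.rec (motive := fun _ => Bool) false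
      (fun row rest _ => List.rec (motive := fun _ => Bool) false
        (fun h u _ => Bool.and (decide (0 < h.re)) (ih (schL h.re u rest))) row) rows)

/-- a row of the upper triangle -/
noncomputable def rowU (f : ℕ → ℕ → GZ) (K i : ℕ) : List GZ :=
  Nat.rec (motive := fun _ => List GZ → List GZ) (fun acc => acc)
    (fun j ih acc => ih (bif Nat.ble i j then f i j :: acc else acc)) K []

/-- the upper triangle -/
noncomputable def triU (f : ℕ → ℕ → GZ) (K : ℕ) : List (List GZ) := tabG (rowU f K) K

theorem rowU_eq (f : ℕ → ℕ → GZ) (K i : ℕ) :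
    rowU f K i = (List.range (K - i)).map (fun m => f i (i + m)) := by
  have h : ∀ (n : ℕ) (acc : List GZ), (Nat.rec (motive := fun _ => List GZ → List GZ)
      (fun acc => acc) (fun j ih acc => ih (bif Nat.ble i j then f i j :: acc else acc)) n acc
        : List GZ) = (List.range (n - i)).map (fun m => f i (i + m)) ++ acc := by
    intro n
    induction n with
    | zero =>
      intro acc
      simp
    | succ n ih =>
      intro acc
      change (Nat.rec (motive := fun _ => List GZ → List GZ)
        (fun acc => acc) (fun j ih acc => ih (bif Nat.ble i j then f i j :: acc else acc)) n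
          (bif Nat.ble i n then f i n :: acc else acc) : List GZ) = _
      rw [ih]
      cases h : Nat.ble i n
      · have h1 : ¬ i ≤ n := fun h2 => by
          rw [Nat.ble_eq_true_of_le h2] at h
          exact Bool.noConfusion h
        rw [cond_false, show n - i = 0 from by omega, show n + 1 - i = 0 from by omega]
      · have h1 : i ≤ n := Nat.le_of_ble_eq_true h
        rw [cond_true, show n + 1 - i = (n - i) + 1 from by omega, List.range_succ,
          List.map_append, List.append_assoc]
        simp only [List.map_cons, List.map_nil, List.cons_append, List.nil_append]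
        rw [show i + (n - i) = n from by omega]
  rw [rowU, h, List.append_nil]

theorem zipS_eq (h : ℤ) (a : GZ) (n : ℕ) : ∀ (R C : ℕ → GZ),
    zipS h a ((List.range n).map R) ((List.range n).map C)
      = (List.range n).map (fun m => schZ h a (R m) (C m)) := by
  induction n with
  | zero => intro R C; rfl
  | succ n ih =>
    intro R C
    rw [List.range_succ_eq_map, List.map_cons, List.map_cons, List.map_cons, List.map_map,
      List.map_map, List.map_map]
    change schZ h a (R 0) (C 0) :: zipS h a ((List.range n).map (R ∘ Nat.succ))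
      ((List.range n).map (C ∘ Nat.succ)) = _
    rw [ih]
    rfl

theorem schL_eq (h : ℤ) (n : ℕ) : ∀ (C : ℕ → GZ) (R : ℕ → ℕ → GZ),
    schL h ((List.range n).map C)
        ((List.range n).map (fun i => (List.range (n - i)).map (fun m => R i (i + m))))
      = (List.range n).map (fun i => (List.range (n - i)).map
          (fun m => schZ h (C i) (R i (i + m)) (C (i + m)))) := by
  induction n with
  | zero => intro C R; rfl
  | succ n ih =>
    intro C R
    have e1 : (List.range (n + 1)).map C = C 0 :: (List.range n).map (fun m => C (m + 1)) := by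
      rw [List.range_succ_eq_map, List.map_cons, List.map_map]
      rfl
    have e2 : ∀ F : ℕ → ℕ → GZ, (List.range (n + 1)).map
          (fun i => (List.range (n + 1 - i)).map (fun m => F i (i + m)))
        = (List.range (n + 1)).map (fun m => F 0 m)
          :: (List.range n).map (fun i => (List.range (n - i)).map
              (fun m => F (i + 1) (i + m + 1))) := by
      intro F
      rw [List.range_succ_eq_map, List.map_cons, List.map_map]
      congr 1
      · rw [Nat.sub_zero, List.range_succ_eq_map]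
        simp only [Nat.zero_add]
      · refine List.map_congr_left (fun i hi => ?_)
        have hi' := List.mem_range.1 hi
        simp only [Function.comp]
        rw [show n + 1 - (i + 1) = n - i from by omega]
        refine List.map_congr_left (fun m _ => ?_)
        rw [show i + 1 + m = i + m + 1 from by ring]
    have e3 := e2 R
    have e4 := e2 (fun i m => schZ h (C i) (R i m) (C m))
    rw [e3, e4, e1]
    have e5 := ih (fun m => C (m + 1)) (fun i m => R (i + 1) (m + 1))
    change zipS h (C 0) ((List.range (n + 1)).map (fun m => R 0 m))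
        (C 0 :: (List.range n).map (fun m => C (m + 1)))
      :: schL h ((List.range n).map (fun m => C (m + 1))) _ = _
    rw [← e1, zipS_eq, e5]

/-- the function of the Schur complement -/
noncomputable def schurZ (M : ℕ → ℕ → GZ) (i j : ℕ) : GZ :=
  schZ (M 0 0).re (M 0 (i + 1)) (M (i + 1) (j + 1)) (M 0 (j + 1))

theorem psdL_U (n : ℕ) : ∀ (M : ℕ → ℕ → GZ) (M' : ℕ → ℕ → GQ),
    (∀ i j, i ≤ j → j < n → M' i j = (M i j).toQ) →
    psdL n ((List.range n).map (fun i => (List.range (n - i)).map (fun m => M i (i + m)))) = true →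
    psdU n M' = true := by
  induction n with
  | zero => intro M M' _ _; rfl
  | succ n ih =>
    intro M M' hM h
    have e1 : (List.range (n + 1)).map (fun m => M 0 m)
        = M 0 0 :: (List.range n).map (fun m => M 0 (m + 1)) := by
      rw [List.range_succ_eq_map, List.map_cons, List.map_map]
      rfl
    have e2 : (List.range (n + 1)).map
          (fun i => (List.range (n + 1 - i)).map (fun m => M i (i + m)))
        = (M 0 0 :: (List.range n).map (fun m => M 0 (m + 1)))
          :: (List.range n).map (fun i => (List.range (n - i)).map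
              (fun m => M (i + 1) (i + m + 1))) := by
      rw [List.range_succ_eq_map, List.map_cons, List.map_map]
      congr 1
      · rw [Nat.sub_zero, ← e1, List.range_succ_eq_map]
        simp only [Nat.zero_add]
      · refine List.map_congr_left (fun i hi => ?_)
        have hi' := List.mem_range.1 hi
        simp only [Function.comp]
        rw [show n + 1 - (i + 1) = n - i from by omega]
        refine List.map_congr_left (fun m _ => ?_)
        rw [show i + 1 + m = i + m + 1 from by ring]
    rw [e2] at h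
    change Bool.and (decide (0 < (M 0 0).re)) (psdL n (schL (M 0 0).re
      ((List.range n).map (fun m => M 0 (m + 1))) _)) = true at h
    have h' := (Bool.and_eq_true _ _).mp h
    obtain ⟨h1, h2⟩ := h'
    rw [decide_eq_true_eq] at h1
    have e3 := schL_eq (M 0 0).re n (fun m => M 0 (m + 1)) (fun i m => M (i + 1) (m + 1))
    rw [e3] at h2
    rw [psdU, Bool.and_eq_true, decide_eq_true_eq]
    refine ⟨?_, ih (schurZ M) (schur M') ?_ h2⟩
    · rw [hM 0 0 le_rfl (by omega), GZ.toQ]
      have h3 : (0 : ℚ) < ((M 0 0).re : ℚ) := by exact_mod_cast h1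
      exact h3
    · intro i j hij hj
      rw [schur, hM 0 0 le_rfl (by omega), hM 0 (i + 1) (by omega) (by omega),
        hM 0 (j + 1) (by omega) (by omega), hM (i + 1) (j + 1) (by omega) (by omega)]
      have e1 : ∀ x y : ℤ, ((Int.add x y : ℤ) : ℚ) = (x : ℚ) + (y : ℚ) := fun x y => by
        change ((x + y : ℤ) : ℚ) = _
        push_cast
        ring
      have e2 : ∀ x y : ℤ, ((Int.mul x y : ℤ) : ℚ) = (x : ℚ) * (y : ℚ) := fun x y => by
        change ((x * y : ℤ) : ℚ) = _
        push_cast
        ring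
      have e3 : ∀ x y : ℤ, ((Int.sub x y : ℤ) : ℚ) = (x : ℚ) - (y : ℚ) := fun x y => by
        change ((x - y : ℤ) : ℚ) = _
        push_cast
        ring
      simp only [schurZ, schZ, GZ.toQ, GQ.sub, GQ.sc, GQ.mul, GQ.cj, e1, e2, e3]
      congr 1 <;> ring

theorem psdT_U (n : ℕ) (M : ℕ → ℕ → GZ) (h : psdL n (triU M n) = true) :
    psdU n (fun i j => (M i j).toQ) = true := by
  refine psdL_U n M _ (fun i j _ _ => rfl) ?_
  have : triU M n
      = (List.range n).map (fun i => (List.range (n - i)).map (fun m => M i (i + m))) := by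
    rw [triU, tabG_eq]
    exact List.map_congr_left (fun i _ => rowU_eq M n i)
  rw [← this]
  exact h

theorem uf_congr (n : ℕ) : ∀ (A B : ℕ → ℕ → GQ) (g : ℕ → ℂ),
    (∀ i j, i ≤ j → j < n → (A i j).toC = (B i j).toC) → uf n A g = uf n B g := by
  induction n with
  | zero => intro A B g _; rfl
  | succ n ih =>
    intro A B g h
    rw [uf, uf, ih _ (fun i j => B (i + 1) (j + 1)) _
      (fun i j hij hj => h (i + 1) (j + 1) (by omega) (by omega))]
    have h0 : ((A 0 0).re : ℝ) = ((B 0 0).re : ℝ) := by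
      have := congrArg Complex.re (h 0 0 le_rfl (by omega))
      rw [GQ.toC_re, GQ.toC_re] at this
      exact this
    rw [h0]
    congr 3
    congr 1
    congr 1
    refine Finset.sum_congr rfl (fun j hj => ?_)
    rw [h 0 (j + 1) (by omega) (by have := Finset.mem_range.1 hj; omega)]

theorem uf_sc (n : ℕ) (a : ℚ) (A : ℕ → ℕ → GQ) (g : ℕ → ℂ) :
    uf n (fun i j => (A i j).sc a) g = (a : ℝ) * uf n A g := by
  have h := uf_comb n a A (fun _ _ => GQ.zero) g
  have h2 : uf n (fun _ _ => GQ.zero) g = 0 := by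
    have : ∀ (m : ℕ) (g : ℕ → ℂ), uf m (fun _ _ => GQ.zero) g = 0 := by
      intro m
      induction m with
      | zero => intro g; rfl
      | succ m ih =>
        intro g
        rw [uf, ih]
        simp only [GQ.toC_zero, zero_mul, Finset.sum_const_zero, mul_zero, Complex.zero_re]
        simp [GQ.zero]
    exact this n g
  rw [h2, sub_zero] at h
  rw [← h]
  refine uf_congr n _ _ g (fun i j _ _ => ?_)
  rw [GQ.toC_sub, GQ.toC_zero, sub_zero]

/-- common denominator of the upper triangle -/
noncomputable def lcdU (K : ℕ) (M : ℕ → ℕ → GQ) : ℕ :=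
  Nat.lcm (lcd2 (fun i j => bif Nat.ble i j then (M i j).re else 0) K K)
    (lcd2 (fun i j => bif Nat.ble i j then (M i j).im else 0) K K)

theorem lcdU_pos (K : ℕ) (M : ℕ → ℕ → GQ) : 0 < lcdU K M :=
  Nat.lcm_pos (lcd2_pos _ _ _) (lcd2_pos _ _ _)

theorem lcdU_re (K : ℕ) (M : ℕ → ℕ → GQ) {i j : ℕ} (hij : i ≤ j) (hj : j < K) :
    (M i j).re.den ∣ lcdU K M := by
  have h := den_dvd_lcd2 (fun i j => bif Nat.ble i j then (M i j).re else 0) K K
    (i := i) (j := j) (by omega) hj
  simp only [Nat.ble_eq_true_of_le hij, cond_true] at h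
  exact h.trans (Nat.dvd_lcm_left _ _)

theorem lcdU_im (K : ℕ) (M : ℕ → ℕ → GQ) {i j : ℕ} (hij : i ≤ j) (hj : j < K) :
    (M i j).im.den ∣ lcdU K M := by
  have h := den_dvd_lcd2 (fun i j => bif Nat.ble i j then (M i j).im else 0) K K
    (i := i) (j := j) (by omega) hj
  simp only [Nat.ble_eq_true_of_le hij, cond_true] at h
  exact h.trans (Nat.dvd_lcm_right _ _)

/-- integral combination of four Gaussian rationals over the common denominator `L` -/
noncomputable def comb4 (L : ℕ) (x0 x1 x2 x3 : ℤ) (a b c d : GQ) : GZ :=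
  ⟨Int.sub (Int.mul x0 (nmr L a.re)) (Int.add (Int.mul x1 (nmr L b.re))
      (Int.add (Int.mul x2 (nmr L c.re)) (Int.mul x3 (nmr L d.re)))),
    Int.sub (Int.mul x0 (nmr L a.im)) (Int.add (Int.mul x1 (nmr L b.im))
      (Int.add (Int.mul x2 (nmr L c.im)) (Int.mul x3 (nmr L d.im))))⟩

/-- check of positivity of `A - E (B + S C + M D)` -/
noncomputable def chk4 (K : ℕ) (A B C D : ℕ → ℕ → GQ) (E S M : ℚ) : Bool :=
  psdL K (triU (fun i j => comb4
    (Nat.lcm (Nat.lcm (lcdU K A) (lcdU K B)) (Nat.lcm (lcdU K C) (lcdU K D)))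
    (Int.ofNat (Nat.mul E.den (Nat.mul S.den M.den)))
    (Int.mul E.num (Int.ofNat (Nat.mul S.den M.den)))
    (Int.mul E.num (Int.mul S.num (Int.ofNat M.den)))
    (Int.mul E.num (Int.mul M.num (Int.ofNat S.den))) (A i j) (B i j) (C i j) (D i j)) K)

theorem chk4_sound (K : ℕ) (A B C D : ℕ → ℕ → GQ) (E S M : ℚ)
    (h : chk4 K A B C D E S M = true) (g : ℕ → ℂ) :
    0 ≤ uf K (fun i j => (A i j).sub ((((B i j).add ((C i j).sc S)).add ((D i j).sc M)).sc E))
      g := by
  obtain ⟨L, hL⟩ : ∃ L, L = Nat.lcm (Nat.lcm (lcdU K A) (lcdU K B))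
    (Nat.lcm (lcdU K C) (lcdU K D)) := ⟨_, rfl⟩
  have hLA : lcdU K A ∣ L := by rw [hL]; exact (Nat.dvd_lcm_left _ _).trans (Nat.dvd_lcm_left _ _)
  have hLB : lcdU K B ∣ L := by rw [hL]; exact (Nat.dvd_lcm_right _ _).trans (Nat.dvd_lcm_left _ _)
  have hLC : lcdU K C ∣ L := by rw [hL]; exact (Nat.dvd_lcm_left _ _).trans (Nat.dvd_lcm_right _ _)
  have hLD : lcdU K D ∣ L := by rw [hL]; exact (Nat.dvd_lcm_right _ _).trans (Nat.dvd_lcm_right _ _)
  have hL0 : 0 < L := by
    rw [hL]
    exact Nat.lcm_pos (Nat.lcm_pos (lcdU_pos _ _) (lcdU_pos _ _))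
      (Nat.lcm_pos (lcdU_pos _ _) (lcdU_pos _ _))
  have hL0' : (0 : ℚ) < (L : ℚ) := by exact_mod_cast hL0
  obtain ⟨T, hT⟩ : ∃ T : ℚ, T = (E.den : ℚ) * ((S.den : ℚ) * M.den) * L := ⟨_, rfl⟩
  have hEd : (0 : ℚ) < (E.den : ℚ) := by exact_mod_cast E.den_pos
  have hSd : (0 : ℚ) < (S.den : ℚ) := by exact_mod_cast S.den_pos
  have hMd : (0 : ℚ) < (M.den : ℚ) := by exact_mod_cast M.den_pos
  have hT0 : 0 < T := by rw [hT]; positivity
  rw [chk4, ← hL] at h
  have h2 := psdT_U K _ h
  have h3 := psdU_sound K _ h2 g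
  have e1 : ∀ x y : ℤ, ((Int.add x y : ℤ) : ℚ) = (x : ℚ) + (y : ℚ) := fun x y => by
    change ((x + y : ℤ) : ℚ) = _
    push_cast
    ring
  have e2 : ∀ x y : ℤ, ((Int.mul x y : ℤ) : ℚ) = (x : ℚ) * (y : ℚ) := fun x y => by
    change ((x * y : ℤ) : ℚ) = _
    push_cast
    ring
  have e3 : ∀ x y : ℤ, ((Int.sub x y : ℤ) : ℚ) = (x : ℚ) - (y : ℚ) := fun x y => by
    change ((x - y : ℤ) : ℚ) = _
    push_cast
    ring
  have e4 : ∀ n : ℕ, ((Int.ofNat n : ℤ) : ℚ) = (n : ℚ) := fun n => Int.cast_natCast n
  have e5 : ∀ n m : ℕ, ((Nat.mul n m : ℕ) : ℚ) = (n : ℚ) * (m : ℚ) := fun n m => by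
    change ((n * m : ℕ) : ℚ) = _
    push_cast
    ring
  have e6 : ∀ q : ℚ, q.den ∣ L → ((nmr L q : ℤ) : ℚ) = q * L := by
    intro q hq
    have := nmr_eq hL0 hq
    field_simp at this
    linarith
  have e7 : ∀ q : ℚ, (q.num : ℚ) = q * q.den := by
    intro q
    have := Rat.num_div_den q
    have h2 : ((q.den : ℕ) : ℚ) ≠ 0 := by exact_mod_cast q.den_pos.ne'
    field_simp at this
    linarith
  have h4 : uf K (fun i j => (comb4 L
    (Int.ofNat (Nat.mul E.den (Nat.mul S.den M.den)))
    (Int.mul E.num (Int.ofNat (Nat.mul S.den M.den)))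
    (Int.mul E.num (Int.mul S.num (Int.ofNat M.den)))
    (Int.mul E.num (Int.mul M.num (Int.ofNat S.den))) (A i j) (B i j) (C i j) (D i j)).toQ) g
      = uf K (fun i j => ((A i j).sub ((((B i j).add ((C i j).sc S)).add
        ((D i j).sc M)).sc E)).sc T) g := by
    refine uf_congr K _ _ g (fun i j hij hj => ?_)
    congr 1
    simp only [comb4, GZ.toQ, e1, e2, e3, e4, e5, e6 _ ((lcdU_re K A hij hj).trans hLA),
      e6 _ ((lcdU_im K A hij hj).trans hLA), e6 _ ((lcdU_re K B hij hj).trans hLB),
      e6 _ ((lcdU_im K B hij hj).trans hLB), e6 _ ((lcdU_re K C hij hj).trans hLC),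
      e6 _ ((lcdU_im K C hij hj).trans hLC), e6 _ ((lcdU_re K D hij hj).trans hLD),
      e6 _ ((lcdU_im K D hij hj).trans hLD), e7 E, e7 S, e7 M, hT]
    simp only [GQ.sub, GQ.sc, GQ.add]
    congr 1 <;> ring
  rw [h4, uf_sc] at h3
  have hT1 : (0 : ℝ) < (T : ℝ) := by exact_mod_cast hT0
  exact nonneg_of_mul_nonneg_right h3 hT1

theorem hrm_toC (Q : ℕ → ℕ → GQ) (i j : ℕ) :
    (hrm Q i j).toC = (1 / 2 : ℂ) * ((Q i j).toC + conj (Q j i).toC) := by
  rw [hrm, GQ.toC_sc, GQ.toC_add, GQ.toC_cj]
  push_cast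
  ring

/-- positivity of a combination of forms -/
theorem chk4_hF (K : ℕ) (A B C D : ℕ → ℕ → GQ) (E S M : ℚ)
    (h : chk4 K (hrm A) (hrm B) (hrm C) (hrm D) E S M = true) (g : ℕ → ℂ) :
    0 ≤ hF K (fun r t => (A r t).toC) g - (E : ℝ) * (hF K (fun r t => (B r t).toC) g
      + (S : ℝ) * hF K (fun r t => (C r t).toC) g
      + (M : ℝ) * hF K (fun r t => (D r t).toC) g) := by
  have h1 := chk4_sound K _ _ _ _ E S M h g
  have h2 : hF K (fun r t => (((A r t).sub ((((B r t).add ((C r t).sc S)).add
        ((D r t).sc M)).sc E))).toC) g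
      = uf K (fun i j => (hrm A i j).sub ((((hrm B i j).add ((hrm C i j).sc S)).add
        ((hrm D i j).sc M)).sc E)) g := by
    rw [hrm_eq]
    refine uf_congr K _ _ g (fun i j _ _ => ?_)
    rw [hrm_toC, GQ.toC_sub, GQ.toC_sub, GQ.toC_sub, GQ.toC_sc, GQ.toC_sc, GQ.toC_sc,
      GQ.toC_add, GQ.toC_add, GQ.toC_add, GQ.toC_add, GQ.toC_add, GQ.toC_add, GQ.toC_sc,
      GQ.toC_sc, GQ.toC_sc, GQ.toC_sc, GQ.toC_sc, GQ.toC_sc, hrm_toC, hrm_toC, hrm_toC, hrm_toC]
    simp only [map_sub, map_add, map_mul, Complex.conj_ofReal]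
    ring
  rw [← h2] at h1
  have h3 : (fun r t => (((A r t).sub ((((B r t).add ((C r t).sc S)).add
        ((D r t).sc M)).sc E))).toC)
      = fun r t => (A r t).toC - ((E : ℝ) : ℂ) * ((B r t).toC + ((S : ℝ) : ℂ) * (C r t).toC
        + ((M : ℝ) : ℂ) * (D r t).toC) := by
    funext r t
    rw [GQ.toC_sub, GQ.toC_sc, GQ.toC_add, GQ.toC_add, GQ.toC_sc, GQ.toC_sc]
  rw [h3, hF_sub, hF_smul, hF_add, hF_add, hF_smul, hF_smul] at h1
  exact h1

end Pool.Agent.Helper65.HR2
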