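import Pool.Agent.Helper65.HR2.Cols
import Pool.Agent.Helper65.HR2.PsdZ
import Pool.Agent.Helper65.HR2.Kro2
import Pool.Agent.Helper24.HR2.PerFreqG

/-!
MP_16b0ee, project HR2: the second form of the per-frequency inequality at one point, checked by
the kernel in exact arithmetic.
-/

set_option autoImplicit false

open MeasureTheory Set
open scoped ComplexConjugate Real

namespace Pool.Agent.Helper65.HR2

open Pool.Agent.Helper24.HR2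
open Pool.Agent.Helper22.Half (pq pq_pos)

namespace AP2

/-- the scale of the entries of the form -/
def fac2 (X : AP2) (r t : ℕ) : ℚ :=
  X.P.N * (X.P.b * (X.P.b + 1) * (X.P.b + 2)) / AP.pochQ X.P.b (2 * r + 2 * t)
    * (1 / (2 * X.P.sd) ^ (r + t))

/-- the matrix of the form -/
def Qf2 (X : AP2) (r t : ℕ) : GQ := (X.P.Mf r t).sc (1 / X.fac2 r t)

/-- the part independent of the constants -/
noncomputable def N0 (X : AP2) (r t : ℕ) : GQ :=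
  (((((ip (X.Tc r) (X.muc t)).sc 2).sub (ip (X.Tc r) (X.Gc t))).sub
    ((ip (X.Pc r) (X.Cc t)).sc (X.P.Ehi ^ 2 / X.P.tau)))).sub (X.Qf2 r t)

/-- coefficient of the main constant -/
noncomputable def B0 (X : AP2) (r t : ℕ) : GQ :=
  ((ip (X.Pc r) (X.Dc t)).add
    (((ip (X.Pc r) (X.Sc0 t)).sub (ip (X.Pc r) (X.Wc t))).sc 2)).add
  ((((ip (X.Tc r) (X.Mc0 t)).add (ip (X.Uc r) (cdrop 1 (X.Wc t)))).sub
    ((ip (X.Uc r) (cdrop 1 (X.Sc0 t))).sc 2)).sc (1 + 1 / X.P.kap))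

/-- coefficient of the main constant and the first series -/
noncomputable def B1 (X : AP2) (r t : ℕ) : GQ :=
  ((ip (X.Pc r) (X.Sc1 t)).sc 2).add
  (((ip (X.Tc r) (X.Mc1 t)).sub
    ((ip (X.Uc r) (cdrop 1 (X.Sc1 t))).sc 2)).sc (1 + 1 / X.P.kap))

/-- coefficient of the main constant and the second series -/
noncomputable def B2 (X : AP2) (r t : ℕ) : GQ :=
  (ip (X.Tc r) (X.Mc2 t)).sc (1 + 1 / X.P.kap)

/-- numerical conditions -/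
def c6 (X : AP2) : Bool :=
  decide (X.N + 1 ≤ 2 * X.K) && decide (1 ≤ X.N) && decide (X.P.D ≤ X.N)

/-- denominators of the families -/
noncomputable def dT (X : AP2) : ℕ := lcdC X.P.Tf X.K X.N

/-- denominators of the families -/
noncomputable def dmu (X : AP2) : ℕ := lcdC (muQ X.P.s) X.K X.N

/-- denominators of the families -/
noncomputable def dP (X : AP2) : ℕ := lcdC (phQ X.P.s X.P.D X.P.pf) X.K (X.P.D + 1)

/-- denominators of the families -/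
noncomputable def dG (X : AP2) : ℕ :=
  Nat.mul (rm (fun i j => gmQ X.P.s.re X.P.b (i + j)) X.N X.N).den X.dT

/-- denominators of the families -/
noncomputable def dU (X : AP2) : ℕ := Nat.mul (rm (fun l n => X.P.pf n l) X.P.D X.P.D).den X.dG

/-- denominators of the families -/
noncomputable def dM0 (X : AP2) : ℕ :=
  Nat.mul (rm (fun i j => (mmQ X.P.s.re X.P.b i j).c0) X.N X.N).den X.dT

/-- denominators of the families -/
noncomputable def dM1 (X : AP2) : ℕ :=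
  Nat.mul (rm (fun i j => (mmQ X.P.s.re X.P.b i j).c1) X.N X.N).den X.dT

/-- denominators of the families -/
noncomputable def dM2 (X : AP2) : ℕ :=
  Nat.mul (rm (fun i j => (mmQ X.P.s.re X.P.b i j).c2) X.N X.N).den X.dT

/-- denominators of the families -/
noncomputable def dS0 (X : AP2) : ℕ :=
  Nat.mul (rm (fun l n => (ssQ X.P.s.re X.P.b n l).1 - (ssQ X.P.s.re X.P.b n (l + 1)).1)
    (X.P.D + 1) X.N).den X.dT

/-- denominators of the families -/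
noncomputable def dS1 (X : AP2) : ℕ :=
  Nat.mul (rm (fun l n => (ssQ X.P.s.re X.P.b n l).2 - (ssQ X.P.s.re X.P.b n (l + 1)).2)
    (X.P.D + 1) X.N).den X.dT

/-- denominators of the families -/
noncomputable def dW (X : AP2) : ℕ :=
  Nat.mul (rm (fun l m => wQ X.P.b (l + m + 1)) (X.P.D + 1) X.P.D).den X.dU

/-- denominators of the families -/
noncomputable def dD (X : AP2) : ℕ :=
  Nat.mul (rm (fun l k => wQ X.P.b (l + k)) (X.P.D + 1) (X.P.D + 1)).den X.dP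

/-- denominators of the families -/
noncomputable def dC (X : AP2) : ℕ :=
  Nat.mul (wwM X.P.s.re X.P.b X.P.D X.P.pf X.P.J2 X.P.th).den X.dP

/-- denominator of the matrix of the form -/
noncomputable def dQ (X : AP2) : ℕ := lcdC X.Qf2 X.K X.K

/-- the factor of the Gram form -/
def ck (X : AP2) : ℚ := 1 + 1 / X.P.kap

/-- test vectors -/
noncomputable def T4 (X : AP2) : ℕ → CV4 := fam4 X.P.Tf X.K X.N

/-- the functionals -/
noncomputable def mu4 (X : AP2) : ℕ → CV4 := fam4 (muQ X.P.s) X.K X.N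

/-- the inner function -/
noncomputable def P4 (X : AP2) : ℕ → CV4 := fam4 (phQ X.P.s X.P.D X.P.pf) X.K (X.P.D + 1)

/-- moments of the test vectors -/
noncomputable def G4f (X : AP2) : ℕ → CV4 :=
  mvR (fun i j => gmQ X.P.s.re X.P.b (i + j)) X.N X.N X.N X.K X.T4

/-- projections -/
noncomputable def U4 (X : AP2) : ℕ → CV4 := mvR (fun l n => X.P.pf n l) X.P.D X.P.D X.N X.K X.G4f

/-- Gram matrix, constant part -/
noncomputable def M04 (X : AP2) : ℕ → CV4 :=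
  mvR (fun i j => (mmQ X.P.s.re X.P.b i j).c0) X.N X.N X.N X.K X.T4

/-- Gram matrix, first part -/
noncomputable def M14 (X : AP2) : ℕ → CV4 :=
  mvR (fun i j => (mmQ X.P.s.re X.P.b i j).c1) X.N X.N X.N X.K X.T4

/-- Gram matrix, second part -/
noncomputable def M24 (X : AP2) : ℕ → CV4 :=
  mvR (fun i j => (mmQ X.P.s.re X.P.b i j).c2) X.N X.N X.N X.K X.T4

/-- differences of the series, constant part -/
noncomputable def S04 (X : AP2) : ℕ → CV4 :=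
  mvR (fun l n => (ssQ X.P.s.re X.P.b n l).1 - (ssQ X.P.s.re X.P.b n (l + 1)).1)
    (X.P.D + 1) X.N X.N X.K X.T4

/-- differences of the series, linear part -/
noncomputable def S14 (X : AP2) : ℕ → CV4 :=
  mvR (fun l n => (ssQ X.P.s.re X.P.b n l).2 - (ssQ X.P.s.re X.P.b n (l + 1)).2)
    (X.P.D + 1) X.N X.N X.K X.T4

/-- weighted projections -/
noncomputable def W4 (X : AP2) : ℕ → CV4 :=
  mvR (fun l m => wQ X.P.b (l + m + 1)) (X.P.D + 1) X.P.D X.P.D X.K X.U4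

/-- its main part -/
noncomputable def D4 (X : AP2) : ℕ → CV4 :=
  mvR (fun l k => wQ X.P.b (l + k)) (X.P.D + 1) (X.P.D + 1) (X.P.D + 1) X.K X.P4

/-- rows of the cross matrix -/
noncomputable def wP4 (X : AP2) (l : ℕ) : List ℕ :=
  tabG (fun k => zP (wwE X.P.s.re X.P.b X.P.D X.P.pf X.P.J2 X.P.th l k) 1) (Nat.succ X.P.D)

/-- rows of the cross matrix -/
noncomputable def wN4 (X : AP2) (l : ℕ) : List ℕ :=
  tabG (fun k => zN (wwE X.P.s.re X.P.b X.P.D X.P.pf X.P.J2 X.P.th l k) 1) (Nat.succ X.P.D)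

/-- its cross part -/
noncomputable def C4 (X : AP2) : ℕ → CV4 :=
  mvF X.wP4 X.wN4 (X.P.D + 1) (X.P.D + 1) X.K X.P4

section rel

variable (X : AP2) {t : ℕ} (ht : t < X.K)

include ht

theorem rT : Rel X.dT X.N (X.Tc t) (X.T4 t) := Rel_fam4 _ ht

theorem rmu : Rel X.dmu X.N (X.muc t) (X.mu4 t) := Rel_fam4 _ ht

theorem rP : Rel X.dP (X.P.D + 1) (X.Pc t) (X.P4 t) := Rel_fam4 _ ht

theorem rG : Rel X.dG X.N (X.Gc t) (X.G4f t) := Rel_mvR le_rfl ht (X.rT ht)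

theorem rM0 : Rel X.dM0 X.N (X.Mc0 t) (X.M04 t) := Rel_mvR le_rfl ht (X.rT ht)

theorem rM1 : Rel X.dM1 X.N (X.Mc1 t) (X.M14 t) := Rel_mvR le_rfl ht (X.rT ht)

theorem rM2 : Rel X.dM2 X.N (X.Mc2 t) (X.M24 t) := Rel_mvR le_rfl ht (X.rT ht)

theorem rS0 : Rel X.dS0 (X.P.D + 1) (X.Sc0 t) (X.S04 t) := Rel_mvR le_rfl ht (X.rT ht)

theorem rS1 : Rel X.dS1 (X.P.D + 1) (X.Sc1 t) (X.S14 t) := Rel_mvR le_rfl ht (X.rT ht)

theorem rU (hD : X.P.D ≤ X.N) : Rel X.dU X.P.D (X.Uc t) (X.U4 t) := Rel_mvR hD ht (X.rG ht)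

theorem rW (hD : X.P.D ≤ X.N) : Rel X.dW (X.P.D + 1) (X.Wc t) (X.W4 t) :=
  Rel_mvR le_rfl ht (X.rU ht hD)

theorem rD : Rel X.dD (X.P.D + 1) (X.Dc t) (X.D4 t) := Rel_mvR le_rfl ht (X.rP ht)

theorem rC : Rel X.dC (X.P.D + 1) (X.Cc t) (X.C4 t) := by
  refine Rel_mvF (X := wwM X.P.s.re X.P.b X.P.D X.P.pf X.P.J2 X.P.th)
    (f := fun i j => (wwE X.P.s.re X.P.b X.P.D X.P.pf X.P.J2 X.P.th i j : ℚ)
      / ((wwM X.P.s.re X.P.b X.P.D X.P.pf X.P.J2 X.P.th).den : ℕ)) le_rfl ht (X.rP ht)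
    (fun i _ => tabG_length _ _) (fun i _ => tabG_length _ _)
    (fun i hi => mvc_get' (wwM X.P.s.re X.P.b X.P.D X.P.pf X.P.J2 X.P.th).den
        (wwE X.P.s.re X.P.b X.P.D X.P.pf X.P.J2 X.P.th) (X.P.D + 1) (X.P.D + 1) (X.Pc t) hi)
    (fun i hi j hj => ?_)
  rw [wP4, wN4, tabG_getD _ _ hj, tabG_getD _ _ hj]
  have h1 := zPN (wwE X.P.s.re X.P.b X.P.D X.P.pf X.P.J2 X.P.th i j) 1
  have h2 : ((zP (wwE X.P.s.re X.P.b X.P.D X.P.pf X.P.J2 X.P.th i j) 1 : ℕ) : ℝ)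
      - ((zN (wwE X.P.s.re X.P.b X.P.D X.P.pf X.P.J2 X.P.th i j) 1 : ℕ) : ℝ)
      = (wwE X.P.s.re X.P.b X.P.D X.P.pf X.P.J2 X.P.th i j : ℝ) := by
    rw [Nat.cast_one, mul_one] at h1
    exact_mod_cast h1
  rw [h2]
  push_cast
  ring

end rel

/-- terms of the part independent of the constants -/
noncomputable def lA (X : AP2) : List TZ4 :=
  [⟨2, Nat.mul X.dT X.dmu, ipF4 X.K X.N X.T4 X.mu4⟩,
    ⟨-1, Nat.mul X.dT X.dG, ipF4 X.K X.N X.T4 X.G4f⟩,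
    ⟨-(X.P.Ehi ^ 2 / X.P.tau), Nat.mul X.dP X.dC, ipF4 X.K (X.P.D + 1) X.P4 X.C4⟩,
    ⟨-1, X.dQ, fun r t => ⟨nP X.dQ (X.Qf2 r t).re, nN X.dQ (X.Qf2 r t).re,
      nP X.dQ (X.Qf2 r t).im, nN X.dQ (X.Qf2 r t).im⟩⟩]

/-- terms of the coefficient of the main constant -/
noncomputable def lB (X : AP2) : List TZ4 :=
  [⟨1, Nat.mul X.dP X.dD, ipF4 X.K (X.P.D + 1) X.P4 X.D4⟩,
    ⟨2, Nat.mul X.dP X.dS0, ipF4 X.K (X.P.D + 1) X.P4 X.S04⟩,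
    ⟨-2, Nat.mul X.dP X.dW, ipF4 X.K (X.P.D + 1) X.P4 X.W4⟩,
    ⟨X.ck, Nat.mul X.dT X.dM0, ipF4 X.K X.N X.T4 X.M04⟩,
    ⟨X.ck, Nat.mul X.dU X.dW, ipF4 X.K X.P.D X.U4 (fun t => tl4 (X.W4 t))⟩,
    ⟨-2 * X.ck, Nat.mul X.dU X.dS0, ipF4 X.K X.P.D X.U4 (fun t => tl4 (X.S04 t))⟩]

/-- terms of the coefficient of the main constant and the first series -/
noncomputable def lC (X : AP2) : List TZ4 :=
  [⟨2, Nat.mul X.dP X.dS1, ipF4 X.K (X.P.D + 1) X.P4 X.S14⟩,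
    ⟨X.ck, Nat.mul X.dT X.dM1, ipF4 X.K X.N X.T4 X.M14⟩,
    ⟨-2 * X.ck, Nat.mul X.dU X.dS1, ipF4 X.K X.P.D X.U4 (fun t => tl4 (X.S14 t))⟩]

/-- terms of the coefficient of the main constant and the second series -/
noncomputable def lD (X : AP2) : List TZ4 :=
  [⟨X.ck, Nat.mul X.dT X.dM2, ipF4 X.K X.N X.T4 X.M24⟩]

/-- the common denominator -/
noncomputable def LL (X : AP2) : ℕ :=
  Nat.lcm (Nat.lcm (lcdT4 X.lA) (lcdT4 X.lB)) (Nat.lcm (lcdT4 X.lC) (lcdT4 X.lD))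

/-- positivity at a corner -/
noncomputable def cc (X : AP2) (E S M : ℚ) : Bool :=
  decide (0 < X.LL) && chkZ X.K (hz4 (zsum4 X.LL X.lA)) (hz4 (zsum4 X.LL X.lB))
    (hz4 (zsum4 X.LL X.lC)) (hz4 (zsum4 X.LL X.lD)) E S M

theorem tsum_lA (X : AP2) {r t : ℕ} (hr : r < X.K) (ht : t < X.K) :
    tsum4 X.lA r t = (X.N0 r t).toC := by
  have hd0 : 0 < X.dQ := lcdC_pos _ _ _
  have hq : (⟨nP X.dQ (X.Qf2 r t).re, nN X.dQ (X.Qf2 r t).re, nP X.dQ (X.Qf2 r t).im,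
      nN X.dQ (X.Qf2 r t).im⟩ : G4).toC = (((X.dQ : ℕ) : ℝ) : ℂ) * (X.Qf2 r t).toC := by
    have h1 : (X.Qf2 r t).re.den ∣ X.dQ :=
      (den_dvd_lcd2 (fun i t => (X.Qf2 i t).re) X.K X.K hr ht).trans (Nat.dvd_lcm_left _ _)
    have h2 : (X.Qf2 r t).im.den ∣ X.dQ :=
      (den_dvd_lcd2 (fun i t => (X.Qf2 i t).im) X.K X.K hr ht).trans (Nat.dvd_lcm_right _ _)
    rw [G4.toC]
    apply Complex.ext
    · rw [Complex.re_ofReal_mul, GQ.toC_re]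
      exact nPN_eq hd0 h1
    · rw [Complex.im_ofReal_mul, GQ.toC_im]
      exact nPN_eq hd0 h2
  have hd : ((X.dQ : ℕ) : ℂ) ≠ 0 := by exact_mod_cast hd0.ne'
  have hi : ((X.dQ : ℕ) : ℂ) * ((X.dQ : ℕ) : ℂ)⁻¹ = 1 := mul_inv_cancel₀ hd
  have e : ∀ x y : ℕ, ((Nat.mul x y : ℕ) : ℝ) = (x : ℝ) * (y : ℝ) := fun x y => by
    change ((x * y : ℕ) : ℝ) = _
    push_cast
    ring
  rw [N0, GQ.toC_sub, GQ.toC_sub, GQ.toC_sub, GQ.toC_sc, GQ.toC_sc,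
    ip_F4 hr ht (X.rT hr) (SL_cvecU _ _ _ _) (X.rmu ht),
    ip_F4 hr ht (X.rT hr) (SL_cvecU _ _ _ _) (X.rG ht),
    ip_F4 hr ht (X.rP hr) (SL_cvecU _ _ _ _) (X.rC ht)]
  simp only [tsum4, lA, List.map_cons, List.map_nil, List.sum_cons, List.sum_nil, hq, e]
  push_cast
  linear_combination (-(X.Qf2 r t).toC) * hi

theorem tsum_lB (X : AP2) (hD : X.P.D ≤ X.N) {r t : ℕ} (hr : r < X.K) (ht : t < X.K) :
    tsum4 X.lB r t = (X.B0 r t).toC := by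
  have e : ∀ x y : ℕ, ((Nat.mul x y : ℕ) : ℝ) = (x : ℝ) * (y : ℝ) := fun x y => by
    change ((x * y : ℕ) : ℝ) = _
    push_cast
    ring
  rw [B0, GQ.toC_add, GQ.toC_add, GQ.toC_sc, GQ.toC_sub, GQ.toC_sc, GQ.toC_sub, GQ.toC_add,
    GQ.toC_sc, ip_F4 hr ht (X.rP hr) (SL_cvecU _ _ _ _) (X.rD ht),
    ip_F4 hr ht (X.rP hr) (SL_cvecU _ _ _ _) (X.rS0 ht),
    ip_F4 hr ht (X.rP hr) (SL_cvecU _ _ _ _) (X.rW ht hD),
    ip_F4 hr ht (X.rT hr) (SL_cvecU _ _ _ _) (X.rM0 ht),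
    ip_F4 (A' := fun t => tl4 (X.W4 t)) hr ht (X.rU hr hD) (SL_mvc _ _ _ _)
      (Rel_cdrop (X.rW ht hD)),
    ip_F4 (A' := fun t => tl4 (X.S04 t)) hr ht (X.rU hr hD) (SL_mvc _ _ _ _)
      (Rel_cdrop (X.rS0 ht))]
  simp only [tsum4, lB, List.map_cons, List.map_nil, List.sum_cons, List.sum_nil, e, ck]
  push_cast
  ring

theorem tsum_lC (X : AP2) (hD : X.P.D ≤ X.N) {r t : ℕ} (hr : r < X.K) (ht : t < X.K) :
    tsum4 X.lC r t = (X.B1 r t).toC := by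
  have e : ∀ x y : ℕ, ((Nat.mul x y : ℕ) : ℝ) = (x : ℝ) * (y : ℝ) := fun x y => by
    change ((x * y : ℕ) : ℝ) = _
    push_cast
    ring
  rw [B1, GQ.toC_add, GQ.toC_sc, GQ.toC_sc, GQ.toC_sub, GQ.toC_sc,
    ip_F4 hr ht (X.rP hr) (SL_cvecU _ _ _ _) (X.rS1 ht),
    ip_F4 hr ht (X.rT hr) (SL_cvecU _ _ _ _) (X.rM1 ht),
    ip_F4 (A' := fun t => tl4 (X.S14 t)) hr ht (X.rU hr hD) (SL_mvc _ _ _ _)
      (Rel_cdrop (X.rS1 ht))]
  simp only [tsum4, lC, List.map_cons, List.map_nil, List.sum_cons, List.sum_nil, e, ck]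
  push_cast
  ring

theorem tsum_lD (X : AP2) {r t : ℕ} (hr : r < X.K) (ht : t < X.K) :
    tsum4 X.lD r t = (X.B2 r t).toC := by
  have e : ∀ x y : ℕ, ((Nat.mul x y : ℕ) : ℝ) = (x : ℝ) * (y : ℝ) := fun x y => by
    change ((x * y : ℕ) : ℝ) = _
    push_cast
    ring
  rw [B2, GQ.toC_sc, ip_F4 hr ht (X.rT hr) (SL_cvecU _ _ _ _) (X.rM2 ht)]
  simp only [tsum4, lD, List.map_cons, List.map_nil, List.sum_cons, List.sum_nil, e, ck]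
  push_cast
  ring

theorem cc_sound (X : AP2) (hD : X.P.D ≤ X.N) (E S M : ℚ) (h : X.cc E S M = true) (g : ℕ → ℂ) :
    0 ≤ hF X.K (fun r t => (X.N0 r t).toC) g - (E : ℝ) * (hF X.K (fun r t => (X.B0 r t).toC) g
      + (S : ℝ) * hF X.K (fun r t => (X.B1 r t).toC) g
      + (M : ℝ) * hF X.K (fun r t => (X.B2 r t).toC) g) := by
  rw [cc, Bool.and_eq_true, decide_eq_true_eq] at h
  obtain ⟨h0, h1⟩ := h
  have h2 := chkZ_hF4 _ _ _ _ _ _ _ _ h1 g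
  have hA : lcdT4 X.lA ∣ X.LL := (Nat.dvd_lcm_left _ _).trans (Nat.dvd_lcm_left _ _)
  have hB : lcdT4 X.lB ∣ X.LL := (Nat.dvd_lcm_right _ _).trans (Nat.dvd_lcm_left _ _)
  have hC : lcdT4 X.lC ∣ X.LL := (Nat.dvd_lcm_left _ _).trans (Nat.dvd_lcm_right _ _)
  have hD' : lcdT4 X.lD ∣ X.LL := (Nat.dvd_lcm_right _ _).trans (Nat.dvd_lcm_right _ _)
  have kA : hF X.K (fun r t => (zsum4 X.LL X.lA r t).toC) g
      = (X.LL : ℝ) * hF X.K (fun r t => (X.N0 r t).toC) g := by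
    rw [← hF_smul]
    refine hF_congr _ _ _ _ (fun r t hr ht => ?_)
    rw [zsum4_eq h0 X.lA (fun T hT => (lcdT4_dvd X.lA hT).trans hA), X.tsum_lA hr ht]
  have kB : hF X.K (fun r t => (zsum4 X.LL X.lB r t).toC) g
      = (X.LL : ℝ) * hF X.K (fun r t => (X.B0 r t).toC) g := by
    rw [← hF_smul]
    refine hF_congr _ _ _ _ (fun r t hr ht => ?_)
    rw [zsum4_eq h0 X.lB (fun T hT => (lcdT4_dvd X.lB hT).trans hB), X.tsum_lB hD hr ht]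
  have kC : hF X.K (fun r t => (zsum4 X.LL X.lC r t).toC) g
      = (X.LL : ℝ) * hF X.K (fun r t => (X.B1 r t).toC) g := by
    rw [← hF_smul]
    refine hF_congr _ _ _ _ (fun r t hr ht => ?_)
    rw [zsum4_eq h0 X.lC (fun T hT => (lcdT4_dvd X.lC hT).trans hC), X.tsum_lC hD hr ht]
  have kD : hF X.K (fun r t => (zsum4 X.LL X.lD r t).toC) g
      = (X.LL : ℝ) * hF X.K (fun r t => (X.B2 r t).toC) g := by
    rw [← hF_smul]
    refine hF_congr _ _ _ _ (fun r t hr ht => ?_)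
    rw [zsum4_eq h0 X.lD (fun T hT => (lcdT4_dvd X.lD hT).trans hD'), X.tsum_lD hr ht]
  rw [kA, kB, kC, kD] at h2
  have h3 : (0 : ℝ) < (X.LL : ℝ) := by exact_mod_cast h0
  refine nonneg_of_mul_nonneg_right (a := (X.LL : ℝ)) ?_ h3
  linarith

/-- positivity at all corners -/
noncomputable def c7 (X : AP2) : Bool :=
  X.cc X.P.Elo X.P.Slo X.Mlo && X.cc X.P.Elo X.P.Shi X.Mlo &&
  X.cc X.P.Ehi X.P.Slo X.Mlo && X.cc X.P.Ehi X.P.Shi X.Mlo &&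
  X.cc X.P.Elo X.P.Slo X.Mhi && X.cc X.P.Elo X.P.Shi X.Mhi &&
  X.cc X.P.Ehi X.P.Slo X.Mhi && X.cc X.P.Ehi X.P.Shi X.Mhi

/-- the form -/
noncomputable def QC2 (X : AP2) (r t : ℕ) : ℂ := (X.Qf2 r t).toC

theorem fm_B (X : AP2) (g : ℕ → ℂ) (hD : X.P.D ≤ X.N) (hs : -1 < X.P.sC.re) (hb : 0 < (X.P.b : ℝ))
    (hσ : 0 < (X.P.b : ℝ) + 1 - 2 * X.P.sC.re) :
    hF X.K (fun r t => (X.B0 r t).toC) g
        + SS X.P.sC X.P.bR 0 1 * hF X.K (fun r t => (X.B1 r t).toC) g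
        + MM X.P.sC X.P.bR 0 0 * hF X.K (fun r t => (X.B2 r t).toC) g
      = Nmain X.P.bR X.P.D (FF X.P.sC X.P.D X.P.pR (muS X.P.sC X.K g))
        + Nx X.P.sC X.P.bR X.P.D X.N X.P.pR (FF X.P.sC X.P.D X.P.pR (muS X.P.sC X.K g))
          (Tg X.K X.P.TC g)
        + (1 + 1 / (X.P.kap : ℝ)) * gamR X.P.sC X.P.bR X.N X.P.D X.P.pR (Tg X.K X.P.TC g) := by
  obtain ⟨S, hS⟩ : ∃ S, S = SS X.P.sC X.P.bR 0 1 := ⟨_, rfl⟩
  obtain ⟨M, hM⟩ : ∃ M, M = MM X.P.sC X.P.bR 0 0 := ⟨_, rfl⟩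
  obtain ⟨c, hc⟩ : ∃ c : ℝ, c = 1 + 1 / (X.P.kap : ℝ) := ⟨_, rfl⟩
  have hcq : (((1 + 1 / X.P.kap : ℚ) : ℝ)) = c := by rw [hc]; push_cast; ring
  -- expansions of the three matrices
  have e0 : hF X.K (fun r t => (X.B0 r t).toC) g
      = hF X.K (fun r t => (ip (X.Pc r) (X.Dc t)).toC) g
        + 2 * (hF X.K (fun r t => (ip (X.Pc r) (X.Sc0 t)).toC) g
          - hF X.K (fun r t => (ip (X.Pc r) (X.Wc t)).toC) g)
        + c * (hF X.K (fun r t => (ip (X.Tc r) (X.Mc0 t)).toC) g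
          + hF X.K (fun r t => (ip (X.Uc r) (cdrop 1 (X.Wc t))).toC) g
          - 2 * hF X.K (fun r t => (ip (X.Uc r) (cdrop 1 (X.Sc0 t))).toC) g) := by
    have : (fun r t => (X.B0 r t).toC) = fun r t =>
        ((ip (X.Pc r) (X.Dc t)).toC + ((2 : ℝ) : ℂ) * ((ip (X.Pc r) (X.Sc0 t)).toC
          - (ip (X.Pc r) (X.Wc t)).toC))
        + (c : ℂ) * (((ip (X.Tc r) (X.Mc0 t)).toC + (ip (X.Uc r) (cdrop 1 (X.Wc t))).toC)
          - ((2 : ℝ) : ℂ) * (ip (X.Uc r) (cdrop 1 (X.Sc0 t))).toC) := by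
      funext r t
      rw [B0, GQ.toC_add, GQ.toC_add, GQ.toC_sc, GQ.toC_sub, GQ.toC_sc, GQ.toC_sub, GQ.toC_add,
        GQ.toC_sc, hcq]
      norm_num
    rw [this, hF_add, hF_add, hF_smul, hF_smul, hF_sub, hF_sub, hF_add, hF_smul]
  have e1 : hF X.K (fun r t => (X.B1 r t).toC) g
      = 2 * hF X.K (fun r t => (ip (X.Pc r) (X.Sc1 t)).toC) g
        + c * (hF X.K (fun r t => (ip (X.Tc r) (X.Mc1 t)).toC) g
          - 2 * hF X.K (fun r t => (ip (X.Uc r) (cdrop 1 (X.Sc1 t))).toC) g) := by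
    have : (fun r t => (X.B1 r t).toC) = fun r t =>
        ((2 : ℝ) : ℂ) * (ip (X.Pc r) (X.Sc1 t)).toC
        + (c : ℂ) * ((ip (X.Tc r) (X.Mc1 t)).toC
          - ((2 : ℝ) : ℂ) * (ip (X.Uc r) (cdrop 1 (X.Sc1 t))).toC) := by
      funext r t
      rw [B1, GQ.toC_add, GQ.toC_sc, GQ.toC_sc, GQ.toC_sub, GQ.toC_sc, hcq]
      norm_num
    rw [this, hF_add, hF_smul, hF_smul, hF_sub, hF_smul]
  have e2 : hF X.K (fun r t => (X.B2 r t).toC) g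
      = c * hF X.K (fun r t => (ip (X.Tc r) (X.Mc2 t)).toC) g := by
    have : (fun r t => (X.B2 r t).toC) = fun r t =>
        (c : ℂ) * (ip (X.Tc r) (X.Mc2 t)).toC := by
      funext r t
      rw [B2, GQ.toC_sc, hcq]
    rw [this, hF_smul]
  -- the products
  have p1 : ∀ A : ℕ → SV × SV, hF X.K (fun r t => (ip (X.Pc r) (A t)).toC) g
      = ∑ l ∈ Finset.range (X.P.D + 1), (fnl X.K A g l * conj (fnl X.K X.Pc g l)).re :=
    fun A => ipF_eq X.K (X.P.D + 1) X.Pc A (fun r => SL_cvecU _ _ _ _) g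
  have p2 : ∀ A : ℕ → SV × SV, hF X.K (fun r t => (ip (X.Tc r) (A t)).toC) g
      = ∑ l ∈ Finset.range X.N, (fnl X.K A g l * conj (fnl X.K X.Tc g l)).re :=
    fun A => ipF_eq X.K X.N X.Tc A (fun r => SL_cvecU _ _ _ _) g
  have p3 : ∀ A : ℕ → SV × SV, hF X.K (fun r t => (ip (X.Uc r) (cdrop 1 (A t))).toC) g
      = ∑ l ∈ Finset.range X.P.D, (fnl X.K A g (1 + l) * conj (fnl X.K X.Uc g l)).re := by
    intro A
    have := ipF_eq X.K X.P.D X.Uc (fun t => cdrop 1 (A t)) (fun r => SL_mvc _ _ _ _) g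
    rw [this]
    refine Finset.sum_congr rfl (fun l _ => ?_)
    rw [fnl_cdrop]
  rw [← hS, ← hM, e0, e1, e2, fm_D, p1, p1, p1, p2, p2, p2, p3, p3, p3,
    Nx_eq2 (b := X.P.bR) hs hb hσ, gamR_eq (b := X.P.bR) hs hb hσ, ← hc]
  -- the pieces
  have q1 : ∑ l ∈ Finset.range (X.P.D + 1), (fnl X.K X.Sc0 g l * conj (fnl X.K X.Pc g l)).re
      + S * ∑ l ∈ Finset.range (X.P.D + 1), (fnl X.K X.Sc1 g l * conj (fnl X.K X.Pc g l)).re
      - ∑ l ∈ Finset.range (X.P.D + 1), (fnl X.K X.Wc g l * conj (fnl X.K X.Pc g l)).re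
      = ∑ l ∈ Finset.range (X.P.D + 1), ((VV X.P.sC X.P.bR X.N (Tg X.K X.P.TC g) l
        - ∑ m ∈ Finset.range X.P.D,
          ((1 / ((X.P.bR + l + m + 1) * (X.P.bR + l + m + 2)) : ℝ) : ℂ)
          * UU X.P.sC X.P.bR X.N X.P.D X.P.pR (Tg X.K X.P.TC g) m)
          * conj (FF X.P.sC X.P.D X.P.pR (muS X.P.sC X.K g) l)).re := by
    rw [Finset.mul_sum, ← Finset.sum_add_distrib, ← Finset.sum_sub_distrib]
    refine Finset.sum_congr rfl (fun l hl => ?_)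
    have hl' := Finset.mem_range.1 hl
    rw [← X.fSc g hl' hs hb hσ, ← X.fWc g hD hl', X.fPc g hl', ← hS]
    rw [sub_mul, add_mul, Complex.sub_re, Complex.add_re, mul_assoc (S : ℂ),
      Complex.re_ofReal_mul]
  have q2 : ∑ n ∈ Finset.range X.N, (fnl X.K X.Mc0 g n * conj (fnl X.K X.Tc g n)).re
      + S * ∑ n ∈ Finset.range X.N, (fnl X.K X.Mc1 g n * conj (fnl X.K X.Tc g n)).re
      + M * ∑ n ∈ Finset.range X.N, (fnl X.K X.Mc2 g n * conj (fnl X.K X.Tc g n)).re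
      = ∑ n ∈ Finset.range X.N, ∑ k ∈ Finset.range X.N, MM X.P.sC X.P.bR n k
        * (Tg X.K X.P.TC g n * conj (Tg X.K X.P.TC g k)).re := by
    rw [Finset.mul_sum, Finset.mul_sum, ← Finset.sum_add_distrib, ← Finset.sum_add_distrib]
    refine Finset.sum_congr rfl (fun n hn => ?_)
    have hn' := Finset.mem_range.1 hn
    have h3 := X.fMc g hn' hs hb hσ
    rw [← hS, ← hM] at h3
    have h4 : (fnl X.K X.Mc0 g n * conj (fnl X.K X.Tc g n)).re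
        + S * (fnl X.K X.Mc1 g n * conj (fnl X.K X.Tc g n)).re
        + M * (fnl X.K X.Mc2 g n * conj (fnl X.K X.Tc g n)).re
        = ((fnl X.K X.Mc0 g n + (S : ℂ) * fnl X.K X.Mc1 g n + (M : ℂ) * fnl X.K X.Mc2 g n)
          * conj (fnl X.K X.Tc g n)).re := by
      rw [add_mul, add_mul, Complex.add_re, Complex.add_re, mul_assoc (S : ℂ),
        Complex.re_ofReal_mul, mul_assoc (M : ℂ), Complex.re_ofReal_mul]
    rw [h4, h3, X.fTc g hn', Finset.sum_mul, Complex.re_sum]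
    refine Finset.sum_congr rfl (fun k _ => ?_)
    rw [mul_assoc, Complex.re_ofReal_mul, re_symm]
  have q3 : ∑ l ∈ Finset.range X.P.D, (fnl X.K X.Sc0 g (1 + l) * conj (fnl X.K X.Uc g l)).re
      + S * ∑ l ∈ Finset.range X.P.D, (fnl X.K X.Sc1 g (1 + l) * conj (fnl X.K X.Uc g l)).re
      = ∑ l ∈ Finset.range X.P.D, (VV X.P.sC X.P.bR X.N (Tg X.K X.P.TC g) (l + 1)
        * conj (UU X.P.sC X.P.bR X.N X.P.D X.P.pR (Tg X.K X.P.TC g) l)).re := by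
    rw [Finset.mul_sum, ← Finset.sum_add_distrib]
    refine Finset.sum_congr rfl (fun l hl => ?_)
    have hl' := Finset.mem_range.1 hl
    have h3 := X.fSc g (l := l + 1) (by omega) hs hb hσ
    rw [← h3, X.fUc g hD hl', ← hS, add_comm 1 l]
    rw [add_mul, Complex.add_re, mul_assoc (S : ℂ), Complex.re_ofReal_mul]
  have q4 : ∑ l ∈ Finset.range X.P.D, (fnl X.K X.Wc g (1 + l) * conj (fnl X.K X.Uc g l)).re
      = ∑ l ∈ Finset.range X.P.D, ∑ l' ∈ Finset.range X.P.D,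
        1 / ((X.P.bR + l + l' + 2) * (X.P.bR + l + l' + 3))
          * (UU X.P.sC X.P.bR X.N X.P.D X.P.pR (Tg X.K X.P.TC g) l'
            * conj (UU X.P.sC X.P.bR X.N X.P.D X.P.pR (Tg X.K X.P.TC g) l)).re := by
    refine Finset.sum_congr rfl (fun l hl => ?_)
    have hl' := Finset.mem_range.1 hl
    rw [X.fWc g hD (l := 1 + l) (by omega), X.fUc g hD hl', Finset.sum_mul, Complex.re_sum]
    refine Finset.sum_congr rfl (fun m _ => ?_)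
    rw [mul_assoc, Complex.re_ofReal_mul]
    congr 2
    push_cast
    congr 1 <;> ring
  rw [← q1, ← q2, ← q3, ← q4]
  ring

theorem corner3 {E S M E1 E2 S1 S2 M1 M2 m a0 a1 a2 : ℝ} (hE1 : E1 ≤ E) (hE2 : E ≤ E2)
    (hS1 : S1 ≤ S) (hS2 : S ≤ S2) (hM1 : M1 ≤ M) (hM2 : M ≤ M2)
    (h1 : 0 ≤ m - E1 * (a0 + S1 * a1 + M1 * a2)) (h2 : 0 ≤ m - E1 * (a0 + S2 * a1 + M1 * a2))
    (h3 : 0 ≤ m - E2 * (a0 + S1 * a1 + M1 * a2)) (h4 : 0 ≤ m - E2 * (a0 + S2 * a1 + M1 * a2))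
    (h5 : 0 ≤ m - E1 * (a0 + S1 * a1 + M2 * a2)) (h6 : 0 ≤ m - E1 * (a0 + S2 * a1 + M2 * a2))
    (h7 : 0 ≤ m - E2 * (a0 + S1 * a1 + M2 * a2)) (h8 : 0 ≤ m - E2 * (a0 + S2 * a1 + M2 * a2)) :
    0 ≤ m - E * (a0 + S * a1 + M * a2) := by
  have k1 : 0 ≤ m - E * ((a0 + M1 * a2) + S * a1) :=
    corner hE1 hE2 hS1 hS2 (by linarith) (by linarith) (by linarith) (by linarith)
  have k2 : 0 ≤ m - E * ((a0 + M2 * a2) + S * a1) :=
    corner hE1 hE2 hS1 hS2 (by linarith) (by linarith) (by linarith) (by linarith)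
  rcases le_total 0 (E * a2) with h | h
  · nlinarith [mul_nonneg h (sub_nonneg.2 hM2)]
  · nlinarith [mul_nonneg (neg_nonneg.2 h) (sub_nonneg.2 hM1)]

/-- the hypothesis on the form -/
theorem form_le (X : AP2) (h1 : X.P.c1 = true) (h3 : X.P.c3 = true) (h6 : X.c6 = true)
    (h7 : X.c7 = true) (hE1 : (X.P.Elo : ℝ) ≤ Es X.P.sC X.P.bR)
    (hE2 : Es X.P.sC X.P.bR ≤ (X.P.Ehi : ℝ)) (hM1 : (X.Mlo : ℝ) ≤ MM X.P.sC X.P.bR 0 0)
    (hM2 : MM X.P.sC X.P.bR 0 0 ≤ (X.Mhi : ℝ)) (g : ℕ → ℂ) :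
    hF X.K X.QC2 g ≤ limG X.P.sC X.P.bR X.K X.N X.P.D X.P.pR (X.P.kap : ℝ) (X.P.tau : ℝ) g
      (Tg X.K X.P.TC g) := by
  simp only [AP.c1, Bool.and_eq_true, decide_eq_true_eq] at h1
  obtain ⟨⟨⟨⟨⟨⟨⟨⟨⟨⟨⟨⟨⟨⟨-, -⟩, -⟩, hq0⟩, hq1⟩, hb0⟩, hb1⟩, hσ⟩, -⟩, -⟩, hDJ⟩, hk⟩, hta⟩, hth⟩, -⟩ := h1
  simp only [c6, Bool.and_eq_true, decide_eq_true_eq] at h6
  obtain ⟨-, hD⟩ := h6
  simp only [c7, Bool.and_eq_true] at h7
  obtain ⟨⟨⟨⟨⟨⟨⟨k1, k2⟩, k3⟩, k4⟩, k5⟩, k6⟩, k7⟩, k8⟩ := h7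
  have hb' : (0 : ℝ) < (X.P.b : ℝ) := by exact_mod_cast hb0
  have hr : X.P.sC.re = (X.P.s.re : ℝ) := rfl
  have hσ' : (0 : ℝ) < (X.P.b : ℝ) + 1 - 2 * X.P.sC.re := by
    rw [hr]
    exact_mod_cast hσ
  have hn : ‖X.P.sC‖ ^ 2 ≤ 49 / 100 := by
    rw [AP.sC, ← GQ.nsq_eq]
    have := (Rat.cast_le (K := ℝ)).2 hq1
    push_cast at this
    exact this
  have hs : -1 < X.P.sC.re := by
    have h5 : ‖X.P.sC‖ ≤ 7 / 10 := by nlinarith [norm_nonneg X.P.sC]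
    have h6 := Complex.abs_re_le_norm X.P.sC
    have h7 := neg_abs_le X.P.sC.re
    linarith
  have hth' : (0 : ℝ) < (X.P.th : ℝ) := by exact_mod_cast hth
  have hta' : (0 : ℝ) < (X.P.tau : ℝ) := by exact_mod_cast hta
  obtain ⟨hS1, hS2⟩ := s0C_sound (s := X.P.sC) hr hs hb' hσ' h3
  have j1 := X.cc_sound hD _ _ _ k1 g
  have j2 := X.cc_sound hD _ _ _ k2 g
  have j3 := X.cc_sound hD _ _ _ k3 g
  have j4 := X.cc_sound hD _ _ _ k4 g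
  have j5 := X.cc_sound hD _ _ _ k5 g
  have j6 := X.cc_sound hD _ _ _ k6 g
  have j7 := X.cc_sound hD _ _ _ k7 g
  have j8 := X.cc_sound hD _ _ _ k8 g
  have jj : 0 ≤ hF X.K (fun r t => (X.N0 r t).toC) g - Es X.P.sC X.P.bR
      * (hF X.K (fun r t => (X.B0 r t).toC) g
        + SS X.P.sC X.P.bR 0 1 * hF X.K (fun r t => (X.B1 r t).toC) g
        + MM X.P.sC X.P.bR 0 0 * hF X.K (fun r t => (X.B2 r t).toC) g) :=
    corner3 hE1 hE2 hS1 hS2 hM1 hM2 j1 j2 j3 j4 j5 j6 j7 j8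
  have e0 : hF X.K (fun r t => (X.N0 r t).toC) g
      = linF X.P.sC X.K X.N g (Tg X.K X.P.TC g)
        - gamF X.P.sC X.P.bR X.N (Tg X.K X.P.TC g)
        - (X.P.Ehi : ℝ) ^ 2 / (X.P.tau : ℝ)
          * hF X.K (fun i j => (bil (X.P.D + 1) (X.P.D + 1)
            (WQ X.P.s.re X.P.b X.P.D X.P.pf X.P.J2 X.P.th) (phQ X.P.s X.P.D X.P.pf)
            (phQ X.P.s X.P.D X.P.pf) i j).toC) g
        - hF X.K X.QC2 g := by
    have : (fun r t => (X.N0 r t).toC) = fun r t =>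
        (((2 : ℝ) : ℂ) * (ip (X.Tc r) (X.muc t)).toC - (ip (X.Tc r) (X.Gc t)).toC
        - (((X.P.Ehi : ℝ) ^ 2 / (X.P.tau : ℝ) : ℝ) : ℂ) * (ip (X.Pc r) (X.Cc t)).toC)
        - X.QC2 r t := by
      funext r t
      rw [N0, GQ.toC_sub, GQ.toC_sub, GQ.toC_sub, GQ.toC_sc, GQ.toC_sc, QC2]
      push_cast
      rfl
    rw [this, hF_sub, hF_sub, hF_sub, hF_smul, hF_smul, fm_gam, fm_C X g hs hb0 hDJ,
      ← fm_lin]
    ring
  rw [X.fm_B g hD hs hb' hσ', e0] at jj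
  have e7 := ncross_le (s := X.P.s) (b := X.P.b) hs hb' hσ' hDJ X.P.pf X.K g hth'
  have e8 := AP.ncross_nonneg X.P.sC X.P.bR X.P.D X.P.pR
    (FF X.P.sC X.P.D X.P.pR (muS X.P.sC X.K g))
  have hEs : 0 ≤ Es X.P.sC X.P.bR := by
    have ha : ∀ x ∈ Ioo (0 : ℝ) 1, 0 ≤ alp X.P.sC X.P.bR x := by
      intro x hx
      exact mul_nonneg (Real.rpow_nonneg (by linarith [hx.2]) _) (Real.rpow_nonneg hx.1.le _)
    exact mul_nonneg (by rw [cst]; positivity) (setIntegral_nonneg measurableSet_Ioo ha)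
  have e9 : Es X.P.sC X.P.bR ^ 2 / (X.P.tau : ℝ)
        * Ncross X.P.sC X.P.bR X.P.D X.P.pR (FF X.P.sC X.P.D X.P.pR (muS X.P.sC X.K g))
      ≤ (X.P.Ehi : ℝ) ^ 2 / (X.P.tau : ℝ) * hF X.K (fun i j => (bil (X.P.D + 1) (X.P.D + 1)
            (WQ X.P.s.re X.P.b X.P.D X.P.pf X.P.J2 X.P.th) (phQ X.P.s X.P.D X.P.pf)
            (phQ X.P.s X.P.D X.P.pf) i j).toC) g := by
    have f1 : Es X.P.sC X.P.bR ^ 2 / (X.P.tau : ℝ) ≤ (X.P.Ehi : ℝ) ^ 2 / (X.P.tau : ℝ) := by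
      gcongr
    have f2 : (0 : ℝ) ≤ (X.P.Ehi : ℝ) ^ 2 / (X.P.tau : ℝ) := by positivity
    calc Es X.P.sC X.P.bR ^ 2 / (X.P.tau : ℝ)
          * Ncross X.P.sC X.P.bR X.P.D X.P.pR (FF X.P.sC X.P.D X.P.pR (muS X.P.sC X.K g))
        ≤ (X.P.Ehi : ℝ) ^ 2 / (X.P.tau : ℝ)
          * Ncross X.P.sC X.P.bR X.P.D X.P.pR (FF X.P.sC X.P.D X.P.pR (muS X.P.sC X.K g)) :=
          mul_le_mul_of_nonneg_right f1 e8
      _ ≤ _ := mul_le_mul_of_nonneg_left e7 f2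
  rw [limG]
  linarith

/-- the per-frequency inequality at the point -/
theorem pf (X : AP2) (h1 : X.P.c1 = true) (h2 : X.P.c2 = true) (h3 : X.P.c3 = true)
    (h6 : X.c6 = true) (h7 : X.c7 = true) (hE1 : (X.P.Elo : ℝ) ≤ Es X.P.sC X.P.bR)
    (hE2 : Es X.P.sC X.P.bR ≤ (X.P.Ehi : ℝ)) (hM1 : (X.Mlo : ℝ) ≤ MM X.P.sC X.P.bR 0 0)
    (hM2 : MM X.P.sC X.P.bR 0 0 ≤ (X.Mhi : ℝ)) :
    X.P.sC ≠ 0 ∧ ‖X.P.sC‖ ≤ 7 / 10 ∧ 0 < X.P.bR ∧ X.P.bR ≤ 1 ∧ 0 < X.P.bR + 1 - 2 * X.P.sC.re ∧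
      2 * ‖X.P.sC‖ < X.P.bR + 1 ∧ PF X.P.sC X.P.bR X.K (hF X.K X.QC2) := by
  have h5 := X.P.hs_le h1 h2 h3 hE1 hE2
  have h8 := X.form_le h1 h3 h6 h7 hE1 hE2 hM1 hM2
  simp only [c6, Bool.and_eq_true, decide_eq_true_eq] at h6
  obtain ⟨⟨hN, hN1⟩, hD⟩ := h6
  simp only [AP.c1, Bool.and_eq_true, decide_eq_true_eq] at h1
  obtain ⟨⟨⟨⟨⟨⟨⟨⟨⟨⟨⟨⟨⟨⟨-, -⟩, -⟩, hq0⟩, hq1⟩, hb0⟩, hb1⟩, hσ⟩, hg⟩, hD5⟩, -⟩, hk⟩, hta⟩, hth⟩, hse⟩ := h1
  have hr : X.P.sC.re = (X.P.s.re : ℝ) := rfl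
  have hb' : (0 : ℝ) < X.P.bR := by rw [AP.bR]; exact_mod_cast hb0
  have hnq : ((X.P.s.nsq : ℚ) : ℝ) = ‖X.P.sC‖ ^ 2 := GQ.nsq_eq X.P.s
  have hn : ‖X.P.sC‖ ^ 2 ≤ 49 / 100 := by
    rw [← hnq]
    have := (Rat.cast_le (K := ℝ)).2 hq1
    push_cast at this
    exact this
  have hn0 : 0 < ‖X.P.sC‖ ^ 2 := by
    rw [← hnq]
    exact_mod_cast hq0
  have g1 : X.P.sC ≠ 0 := by
    intro h
    rw [h] at hn0
    simp at hn0
  have g2 : ‖X.P.sC‖ ≤ 7 / 10 := by nlinarith [norm_nonneg X.P.sC]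
  have g3 : X.P.bR ≤ 1 := by rw [AP.bR]; exact_mod_cast hb1
  have g4 : 0 < X.P.bR + 1 - 2 * X.P.sC.re := by
    rw [hr, AP.bR]
    exact_mod_cast hσ
  have g5 : 2 * ‖X.P.sC‖ < X.P.bR + 1 := by
    have := (Rat.cast_lt (K := ℝ)).2 hg
    push_cast at this
    rw [hnq] at this
    have h7 : (2 * ‖X.P.sC‖) ^ 2 < (X.P.bR + 1) ^ 2 := by
      rw [mul_pow, AP.bR]
      linarith
    exact lt_of_pow_lt_pow_left₀ 2 (by linarith) h7
  have g6 : (1 + (X.P.kap : ℝ)) * (X.P.eps : ℝ) + (X.P.tau : ℝ) < 1 := by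
    have := (Rat.cast_lt (K := ℝ)).2 hse
    push_cast at this
    exact this
  have g7 : (0 : ℝ) < (X.P.kap : ℝ) := by exact_mod_cast hk
  have g8 : (0 : ℝ) < (X.P.tau : ℝ) := by exact_mod_cast hta
  refine ⟨g1, g2, hb', g3, g4, g5, ?_⟩
  have key := perfreq_g g1 g2 hb' g3 g4 hN hD hN1 X.P.pR X.P.TC h5 g7 g8 g6
  -- monotonicity
  intro δ hδ
  obtain ⟨m0, hm0⟩ := key δ hδ
  refine ⟨m0, fun m hm1 hm J d hd => le_trans ?_ (hm0 m hm1 hm J d hd)⟩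
  have hKS : 0 ≤ (m : ℝ) ^ 2 / (KS X.P.sC * pq (X.P.bR + 3) (m - 1)) := by
    have k1 : 0 < KS X.P.sC := KS_pos (lt_of_le_of_lt g2 (by norm_num))
    have k2 : 0 < pq (X.P.bR + 3) (m - 1) := pq_pos (by linarith) _
    positivity
  refine mul_le_mul_of_nonneg_left ?_ hKS
  have := h8 (vS d m)
  linarith

end AP2

end Pool.Agent.Helper65.HR2
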