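import Pool.Agent.Helper65.HR2.Cols
import Pool.Agent.Helper65.HR2.PsdZ

/-!
MP_16b0ee, project HR2: the hypotheses of the core theorem at one point, checked by the kernel in
exact arithmetic (first form).
-/

set_option autoImplicit false

open MeasureTheory Set
open scoped ComplexConjugate Real

namespace Pool.Agent.Helper65.HR2

open Pool.Agent.Helper24.HR2

namespace AP

/-- the data with three moments and five test functions -/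
def up (P : AP) : AP2 := ⟨P, 3, 5, 0, 0⟩

/-- the part independent of the constants -/
noncomputable def M0 (P : AP) (r t : ℕ) : GQ :=
  ((((ip (P.up.Tc r) (P.up.muc t)).sc 2).sub
    ((ip (P.up.Tc r) (P.up.Gc t)).sc (1 + (1 + 1 / P.kap) * P.eps))).sub
    ((ip (P.up.Pc r) (P.up.Cc t)).sc (P.Ehi ^ 2 / P.tau))).sub (P.Qf r t)

/-- the coefficient of the main constant -/
noncomputable def A0 (P : AP) (r t : ℕ) : GQ :=
  (ip (P.up.Pc r) (P.up.Dc t)).add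
    (((ip (P.up.Pc r) (P.up.Sc0 t)).sub (ip (P.up.Pc r) (P.up.Wc t))).sc 2)

/-- the coefficient of the product of the main constant and the series -/
noncomputable def A1 (P : AP) (r t : ℕ) : GQ := (ip (P.up.Pc r) (P.up.Sc1 t)).sc 2

/-- the check at a corner -/
noncomputable def ck (P : AP) (E S : ℚ) : Bool :=
  chk4 3 (hrm P.M0) (hrm P.A0) (hrm P.A1) (hrm (fun _ _ => GQ.zero)) E S 0

/-- the forms -/
noncomputable def c4 (P : AP) : Bool :=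
  decide (P.D ≤ 5) && P.ck P.Elo P.Slo && P.ck P.Elo P.Shi && P.ck P.Ehi P.Slo &&
  P.ck P.Ehi P.Shi

theorem ck_sound (P : AP) (E S : ℚ) (h : P.ck E S = true) (g : ℕ → ℂ) :
    0 ≤ hF 3 (fun r t => (P.M0 r t).toC) g - (E : ℝ) * (hF 3 (fun r t => (P.A0 r t).toC) g
        + (S : ℝ) * hF 3 (fun r t => (P.A1 r t).toC) g) := by
  have := chk4_hF 3 P.M0 P.A0 P.A1 (fun _ _ => GQ.zero) E S 0 h g
  simpa using this

/-- the hypothesis on the form -/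
theorem form_le (P : AP) (h1 : P.c1 = true) (h3 : P.c3 = true) (h4 : P.c4 = true)
    (hE1 : (P.Elo : ℝ) ≤ Es P.sC P.bR) (hE2 : Es P.sC P.bR ≤ (P.Ehi : ℝ)) (g : ℕ → ℂ) :
    hF 3 P.QC g ≤ limF P.sC P.bR 3 5 P.D P.pR (P.eps : ℝ) (P.kap : ℝ) (P.tau : ℝ) g
      (Tg 3 P.TC g) := by
  simp only [c1, Bool.and_eq_true, decide_eq_true_eq] at h1
  obtain ⟨⟨⟨⟨⟨⟨⟨⟨⟨⟨⟨⟨⟨⟨-, -⟩, -⟩, hq0⟩, hq1⟩, hb0⟩, hb1⟩, hσ⟩, -⟩, -⟩, hDJ⟩, hk⟩, hta⟩, hth⟩, -⟩ := h1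
  simp only [c4, Bool.and_eq_true, decide_eq_true_eq] at h4
  obtain ⟨⟨⟨⟨hD5, k1⟩, k2⟩, k3⟩, k4⟩ := h4
  have hb' : (0 : ℝ) < (P.b : ℝ) := by exact_mod_cast hb0
  have hr : P.sC.re = (P.s.re : ℝ) := rfl
  have hσ' : (0 : ℝ) < (P.b : ℝ) + 1 - 2 * P.sC.re := by
    rw [hr]
    exact_mod_cast hσ
  have hn : ‖P.sC‖ ^ 2 ≤ 49 / 100 := by
    rw [sC, ← GQ.nsq_eq]
    have := (Rat.cast_le (K := ℝ)).2 hq1
    push_cast at this
    exact this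
  have hs : -1 < P.sC.re := by
    have h5 : ‖P.sC‖ ≤ 7 / 10 := by nlinarith [norm_nonneg P.sC]
    have h6 := Complex.abs_re_le_norm P.sC
    have h7 := neg_abs_le P.sC.re
    linarith
  have hth' : (0 : ℝ) < (P.th : ℝ) := by exact_mod_cast hth
  have hta' : (0 : ℝ) < (P.tau : ℝ) := by exact_mod_cast hta
  obtain ⟨hS1, hS2⟩ := s0C_sound (s := P.sC) hr hs hb' hσ' h3
  have j1 := P.ck_sound _ _ k1 g
  have j2 := P.ck_sound _ _ k2 g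
  have j3 := P.ck_sound _ _ k3 g
  have j4 := P.ck_sound _ _ k4 g
  have j5 := corner hE1 hE2 hS1 hS2 j1 j2 j3 j4
  -- the pieces
  have hb0' : 0 < P.b := hb0
  have e0 : hF 3 (fun r t => (P.M0 r t).toC) g
      = linF P.sC 3 5 g (Tg 3 P.TC g)
        - (1 + (1 + 1 / (P.kap : ℝ)) * (P.eps : ℝ)) * gamF P.sC P.bR 5 (Tg 3 P.TC g)
        - (P.Ehi : ℝ) ^ 2 / (P.tau : ℝ) * hF 3 (fun i j => (bil (P.D + 1) (P.D + 1)
            (WQ P.s.re P.b P.D P.pf P.J2 P.th) (phQ P.s P.D P.pf) (phQ P.s P.D P.pf) i j).toC) g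
        - hF 3 P.QC g := by
    have : (fun r t => (P.M0 r t).toC) = fun r t =>
        ((((2 : ℝ) : ℂ) * (ip (P.up.Tc r) (P.up.muc t)).toC
        - (((1 + (1 + 1 / (P.kap : ℝ)) * (P.eps : ℝ) : ℝ)) : ℂ)
          * (ip (P.up.Tc r) (P.up.Gc t)).toC)
        - (((P.Ehi : ℝ) ^ 2 / (P.tau : ℝ) : ℝ) : ℂ) * (ip (P.up.Pc r) (P.up.Cc t)).toC)
        - P.QC r t := by
      funext r t
      rw [M0, GQ.toC_sub, GQ.toC_sub, GQ.toC_sub, GQ.toC_sc, GQ.toC_sc, GQ.toC_sc, QC]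
      push_cast
      rfl
    have f1 : hF 3 (fun r t => (ip (P.up.Tc r) (P.up.muc t)).toC) g * 2
        = linF P.sC 3 5 g (Tg 3 P.TC g) := P.up.fm_lin g
    have f2 : hF 3 (fun r t => (ip (P.up.Tc r) (P.up.Gc t)).toC) g
        = gamF P.sC P.bR 5 (Tg 3 P.TC g) := P.up.fm_gam g
    have f3 : hF 3 (fun r t => (ip (P.up.Pc r) (P.up.Cc t)).toC) g = _ :=
      P.up.fm_C g hs hb0' hDJ
    rw [this, hF_sub, hF_sub, hF_sub, hF_smul, hF_smul, hF_smul, f2, f3, ← f1]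
    have f4 : hF 3 (fun r t => P.QC r t) g = hF 3 P.QC g := rfl
    rw [f4]
    change 2 * _ - _ - _ * hF 3 (fun i j => (bil (P.D + 1) (P.D + 1)
            (WQ P.s.re P.b P.D P.pf P.J2 P.th) (phQ P.s P.D P.pf) (phQ P.s P.D P.pf) i j).toC) g
      - _ = _
    ring
  have e1 : hF 3 (fun r t => (P.A0 r t).toC) g + SS P.sC P.bR 0 1
        * hF 3 (fun r t => (P.A1 r t).toC) g
      = Nmain P.bR P.D (FF P.sC P.D P.pR (muS P.sC 3 g))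
        + Nx P.sC P.bR P.D 5 P.pR (FF P.sC P.D P.pR (muS P.sC 3 g)) (Tg 3 P.TC g) := by
    have t0 : (fun r t => (P.A0 r t).toC) = fun r t => (ip (P.up.Pc r) (P.up.Dc t)).toC
        + ((2 : ℝ) : ℂ) * ((ip (P.up.Pc r) (P.up.Sc0 t)).toC
          - (ip (P.up.Pc r) (P.up.Wc t)).toC) := by
      funext r t
      rw [A0, GQ.toC_add, GQ.toC_sc, GQ.toC_sub]
      norm_num
    have t1 : (fun r t => (P.A1 r t).toC) = fun r t =>
        ((2 : ℝ) : ℂ) * (ip (P.up.Pc r) (P.up.Sc1 t)).toC := by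
      funext r t
      rw [A1, GQ.toC_sc]
      norm_num
    have p1 : ∀ A : ℕ → SV × SV, hF 3 (fun r t => (ip (P.up.Pc r) (A t)).toC) g
        = ∑ l ∈ Finset.range (P.D + 1), (fnl 3 A g l * conj (fnl 3 P.up.Pc g l)).re :=
      fun A => ipF_eq 3 (P.D + 1) P.up.Pc A (fun r => SL_cvecU _ _ _ _) g
    have f5 : hF 3 (fun r t => (ip (P.up.Pc r) (P.up.Dc t)).toC) g
        = Nmain P.bR P.D (FF P.sC P.D P.pR (muS P.sC 3 g)) := P.up.fm_D g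
    have hσ2 : 0 < P.bR + 1 - 2 * P.sC.re := hσ'
    have hb2 : 0 < P.bR := hb'
    rw [t0, t1, hF_add, hF_smul, hF_sub, hF_smul, f5, p1, p1, p1,
      Nx_eq2 (b := P.bR) hs hb2 hσ2]
    have q1 : ∑ l ∈ Finset.range (P.D + 1), (fnl 3 P.up.Sc0 g l * conj (fnl 3 P.up.Pc g l)).re
        + SS P.sC P.bR 0 1
          * ∑ l ∈ Finset.range (P.D + 1), (fnl 3 P.up.Sc1 g l * conj (fnl 3 P.up.Pc g l)).re
        - ∑ l ∈ Finset.range (P.D + 1), (fnl 3 P.up.Wc g l * conj (fnl 3 P.up.Pc g l)).re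
        = ∑ l ∈ Finset.range (P.D + 1), ((VV P.sC P.bR 5 (Tg 3 P.TC g) l
          - ∑ m ∈ Finset.range P.D,
            ((1 / ((P.bR + l + m + 1) * (P.bR + l + m + 2)) : ℝ) : ℂ)
            * UU P.sC P.bR 5 P.D P.pR (Tg 3 P.TC g) m)
            * conj (FF P.sC P.D P.pR (muS P.sC 3 g) l)).re := by
      rw [Finset.mul_sum, ← Finset.sum_add_distrib, ← Finset.sum_sub_distrib]
      refine Finset.sum_congr rfl (fun l hl => ?_)
      have hl' := Finset.mem_range.1 hl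
      have r1 : fnl 3 P.up.Sc0 g l + ((SS P.sC P.bR 0 1 : ℝ) : ℂ) * fnl 3 P.up.Sc1 g l
          = VV P.sC P.bR 5 (Tg 3 P.TC g) l := P.up.fSc g hl' hs hb' hσ'
      have r2 : fnl 3 P.up.Wc g l = ∑ m ∈ Finset.range P.D,
            ((1 / ((P.bR + l + m + 1) * (P.bR + l + m + 2)) : ℝ) : ℂ)
            * UU P.sC P.bR 5 P.D P.pR (Tg 3 P.TC g) m := P.up.fWc g hD5 hl'
      have r3 : fnl 3 P.up.Pc g l = FF P.sC P.D P.pR (muS P.sC 3 g) l := P.up.fPc g hl'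
      rw [← r1, ← r2, r3]
      rw [sub_mul, add_mul, Complex.sub_re, Complex.add_re,
        mul_assoc ((SS P.sC P.bR 0 1 : ℝ) : ℂ), Complex.re_ofReal_mul]
    rw [← q1]
    ring
  have j6 : 0 ≤ hF 3 (fun r t => (P.M0 r t).toC) g - Es P.sC P.bR
      * (hF 3 (fun r t => (P.A0 r t).toC) g + SS P.sC P.bR 0 1
        * hF 3 (fun r t => (P.A1 r t).toC) g) := j5
  rw [e1, e0] at j6
  have e7 := ncross_le (s := P.s) (b := P.b) hs hb' hσ' hDJ P.pf 3 g hth'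
  have e8 := ncross_nonneg P.sC P.bR P.D P.pR (FF P.sC P.D P.pR (muS P.sC 3 g))
  have hEs : 0 ≤ Es P.sC P.bR := by
    have ha : ∀ x ∈ Ioo (0 : ℝ) 1, 0 ≤ alp P.sC P.bR x := by
      intro x hx
      exact mul_nonneg (Real.rpow_nonneg (by linarith [hx.2]) _) (Real.rpow_nonneg hx.1.le _)
    exact mul_nonneg (by rw [cst]; positivity) (setIntegral_nonneg measurableSet_Ioo ha)
  have e9 : Es P.sC P.bR ^ 2 / (P.tau : ℝ)
        * Ncross P.sC P.bR P.D P.pR (FF P.sC P.D P.pR (muS P.sC 3 g))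
      ≤ (P.Ehi : ℝ) ^ 2 / (P.tau : ℝ) * hF 3 (fun i j => (bil (P.D + 1) (P.D + 1)
            (WQ P.s.re P.b P.D P.pf P.J2 P.th) (phQ P.s P.D P.pf) (phQ P.s P.D P.pf) i j).toC) g := by
    have f1 : Es P.sC P.bR ^ 2 / (P.tau : ℝ) ≤ (P.Ehi : ℝ) ^ 2 / (P.tau : ℝ) := by
      gcongr
    have f2 : (0 : ℝ) ≤ (P.Ehi : ℝ) ^ 2 / (P.tau : ℝ) := by positivity
    calc Es P.sC P.bR ^ 2 / (P.tau : ℝ)
          * Ncross P.sC P.bR P.D P.pR (FF P.sC P.D P.pR (muS P.sC 3 g))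
        ≤ (P.Ehi : ℝ) ^ 2 / (P.tau : ℝ)
          * Ncross P.sC P.bR P.D P.pR (FF P.sC P.D P.pR (muS P.sC 3 g)) :=
          mul_le_mul_of_nonneg_right f1 e8
      _ ≤ _ := mul_le_mul_of_nonneg_left e7 f2
  rw [limF]
  linarith

/-- all hypotheses of the core theorem -/
theorem hyps (P : AP) (h1 : P.c1 = true) (h2 : P.c2 = true) (h3 : P.c3 = true)
    (h4 : P.c4 = true) (hE1 : (P.Elo : ℝ) ≤ Es P.sC P.bR) (hE2 : Es P.sC P.bR ≤ (P.Ehi : ℝ)) :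
    P.sC ≠ 0 ∧ ‖P.sC‖ ≤ 7 / 10 ∧ 0 < P.bR ∧ P.bR ≤ 1 ∧ 0 < P.bR + 1 - 2 * P.sC.re ∧
      2 * ‖P.sC‖ < P.bR + 1 ∧ P.D ≤ 5 ∧
      Es P.sC P.bR * HSn P.sC P.bR P.D P.pR ≤ (P.eps : ℝ) ∧ 0 < (P.kap : ℝ) ∧
      0 < (P.tau : ℝ) ∧ (1 + (P.kap : ℝ)) * (P.eps : ℝ) + (P.tau : ℝ) < 1 ∧
      ∀ g : ℕ → ℂ, hF 3 P.QC g ≤ limF P.sC P.bR 3 5 P.D P.pR (P.eps : ℝ) (P.kap : ℝ)
        (P.tau : ℝ) g (Tg 3 P.TC g) := by
  have h5 := P.hs_le h1 h2 h3 hE1 hE2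
  have h6 := P.form_le h1 h3 h4 hE1 hE2
  have hD : P.D ≤ 5 := by
    simp only [c4, Bool.and_eq_true, decide_eq_true_eq] at h4
    exact h4.1.1.1.1
  simp only [c1, Bool.and_eq_true, decide_eq_true_eq] at h1
  obtain ⟨⟨⟨⟨⟨⟨⟨⟨⟨⟨⟨⟨⟨⟨-, -⟩, -⟩, hq0⟩, hq1⟩, hb0⟩, hb1⟩, hσ⟩, hg⟩, -⟩, -⟩, hk⟩, hta⟩, hth⟩, hse⟩ := h1
  have hr : P.sC.re = (P.s.re : ℝ) := rfl
  have hb' : (0 : ℝ) < P.bR := by rw [bR]; exact_mod_cast hb0
  have hnq : ((P.s.nsq : ℚ) : ℝ) = ‖P.sC‖ ^ 2 := GQ.nsq_eq P.s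
  have hn : ‖P.sC‖ ^ 2 ≤ 49 / 100 := by
    rw [← hnq]
    have := (Rat.cast_le (K := ℝ)).2 hq1
    push_cast at this
    exact this
  have hn0 : 0 < ‖P.sC‖ ^ 2 := by
    rw [← hnq]
    exact_mod_cast hq0
  refine ⟨?_, ?_, hb', ?_, ?_, ?_, hD, h5, by exact_mod_cast hk, by exact_mod_cast hta, ?_, h6⟩
  · intro h
    rw [h] at hn0
    simp at hn0
  · nlinarith [norm_nonneg P.sC]
  · rw [bR]; exact_mod_cast hb1
  · rw [hr, bR]
    exact_mod_cast hσ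
  · have := (Rat.cast_lt (K := ℝ)).2 hg
    push_cast at this
    rw [hnq] at this
    have h7 : (2 * ‖P.sC‖) ^ 2 < (P.bR + 1) ^ 2 := by
      rw [mul_pow, bR]
      linarith
    exact lt_of_pow_lt_pow_left₀ 2 (by linarith) h7
  · have := (Rat.cast_lt (K := ℝ)).2 hse
    push_cast at this
    exact this

end AP

end Pool.Agent.Helper65.HR2
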