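import Pool.Agent.Helper65.HR2.GQ

/-!
MP_16b0ee, project HR2: positivity of Hermitian forms of arbitrary order with Gaussian rational
entries by elimination.
-/

set_option autoImplicit false

open scoped ComplexConjugate

namespace Pool.Agent.Helper65.HR2

open Pool.Agent.Helper24.HR2

/-- the Hermitian form with the given upper triangle -/
noncomputable def uf : ℕ → (ℕ → ℕ → GQ) → (ℕ → ℂ) → ℝ
  | 0, _, _ => 0
  | n + 1, M, g => ((M 0 0).re : ℝ) * ‖g 0‖ ^ 2
      + 2 * (conj (g 0) * ∑ j ∈ Finset.range n, (M 0 (j + 1)).toC * g (j + 1)).re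
      + uf n (fun i j => M (i + 1) (j + 1)) (fun i => g (i + 1))

/-- the Schur complement times the pivot -/
def schur (M : ℕ → ℕ → GQ) (i j : ℕ) : GQ :=
  ((M (i + 1) (j + 1)).sc (M 0 0).re).sub ((M 0 (i + 1)).cj.mul (M 0 (j + 1)))

/-- the check -/
def psdU : ℕ → (ℕ → ℕ → GQ) → Bool
  | 0, _ => true
  | n + 1, M => decide (0 < (M 0 0).re) && psdU n (schur M)

theorem uf_comb (n : ℕ) (a : ℚ) : ∀ (A B : ℕ → ℕ → GQ) (g : ℕ → ℂ),
    uf n (fun i j => ((A i j).sc a).sub (B i j)) g = (a : ℝ) * uf n A g - uf n B g := by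
  induction n with
  | zero => intro A B g; simp [uf]
  | succ n ih =>
    intro A B g
    rw [uf, uf, uf, ih (fun i j => A (i + 1) (j + 1)) (fun i j => B (i + 1) (j + 1))]
    have h1 : ∑ j ∈ Finset.range n, (((A 0 (j + 1)).sc a).sub (B 0 (j + 1))).toC * g (j + 1)
        = (a : ℂ) * ∑ j ∈ Finset.range n, (A 0 (j + 1)).toC * g (j + 1)
          - ∑ j ∈ Finset.range n, (B 0 (j + 1)).toC * g (j + 1) := by
      rw [Finset.mul_sum, ← Finset.sum_sub_distrib]
      refine Finset.sum_congr rfl (fun j _ => ?_)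
      rw [GQ.toC_sub, GQ.toC_sc]
      push_cast
      ring
    rw [h1]
    have h2 : ((((A 0 0).sc a).sub (B 0 0)).re : ℝ) = (a : ℝ) * ((A 0 0).re : ℝ)
        - ((B 0 0).re : ℝ) := by
      simp only [GQ.sub, GQ.sc]
      push_cast
      ring
    rw [h2, mul_sub, Complex.sub_re]
    have h3 : (conj (g 0) * ((a : ℂ) * ∑ j ∈ Finset.range n, (A 0 (j + 1)).toC * g (j + 1))).re
        = (a : ℝ) * (conj (g 0) * ∑ j ∈ Finset.range n, (A 0 (j + 1)).toC * g (j + 1)).re := by
      rw [show conj (g 0) * ((a : ℂ) * ∑ j ∈ Finset.range n, (A 0 (j + 1)).toC * g (j + 1))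
        = (((a : ℝ)) : ℂ) * (conj (g 0) * ∑ j ∈ Finset.range n, (A 0 (j + 1)).toC * g (j + 1))
        from by push_cast; ring, Complex.re_ofReal_mul]
    rw [h3]
    ring

theorem uf_rank (n : ℕ) : ∀ (c : ℕ → GQ) (g : ℕ → ℂ),
    uf n (fun i j => (c i).cj.mul (c j)) g
      = ‖∑ j ∈ Finset.range n, (c j).toC * g j‖ ^ 2 := by
  induction n with
  | zero => intro c g; simp [uf]
  | succ n ih =>
    intro c g
    rw [uf, ih (fun j => c (j + 1)), Finset.sum_range_succ']
    have h1 : ∑ j ∈ Finset.range n, ((c 0).cj.mul (c (j + 1))).toC * g (j + 1)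
        = conj (c 0).toC * ∑ j ∈ Finset.range n, (c (j + 1)).toC * g (j + 1) := by
      rw [Finset.mul_sum]
      refine Finset.sum_congr rfl (fun j _ => ?_)
      rw [GQ.toC_mul, GQ.toC_cj]
      ring
    rw [h1]
    generalize (∑ j ∈ Finset.range n, (c (j + 1)).toC * g (j + 1)) = z
    have h2 : (((c 0).cj.mul (c 0)).re : ℝ) = ‖(c 0).toC‖ ^ 2 := by
      rw [← GQ.nsq_eq]
      simp only [GQ.mul, GQ.cj, GQ.nsq]
      push_cast
      ring
    rw [h2]
    have h3 : ∀ x y : ℂ, ‖x + y‖ ^ 2 = ‖x‖ ^ 2 + ‖y‖ ^ 2 + 2 * (conj y * x).re := by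
      intro x y
      rw [← Complex.normSq_eq_norm_sq, ← Complex.normSq_eq_norm_sq, ← Complex.normSq_eq_norm_sq,
        Complex.normSq_apply, Complex.normSq_apply, Complex.normSq_apply, Complex.mul_re,
        Complex.conj_re, Complex.conj_im, Complex.add_re, Complex.add_im]
      ring
    rw [h3, norm_mul, mul_pow, map_mul]
    rw [show conj (g 0) * (conj (c 0).toC * z) = conj (c 0).toC * conj (g 0) * z from by ring]
    ring

theorem psdU_sound (n : ℕ) : ∀ (M : ℕ → ℕ → GQ), psdU n M = true → ∀ g : ℕ → ℂ,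
    0 ≤ uf n M g := by
  induction n with
  | zero => intro M _ g; simp [uf]
  | succ n ih =>
    intro M h g
    rw [psdU, Bool.and_eq_true, decide_eq_true_eq] at h
    obtain ⟨h1, h2⟩ := h
    have h3 := ih _ h2 (fun i => g (i + 1))
    have h1' : (0 : ℝ) < ((M 0 0).re : ℝ) := by exact_mod_cast h1
    have e1 : uf n (schur M) (fun i => g (i + 1))
        = ((M 0 0).re : ℝ) * uf n (fun i j => M (i + 1) (j + 1)) (fun i => g (i + 1))
          - ‖∑ j ∈ Finset.range n, (M 0 (j + 1)).toC * g (j + 1)‖ ^ 2 := by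
      have := uf_comb n (M 0 0).re (fun i j => M (i + 1) (j + 1))
        (fun i j => (M 0 (i + 1)).cj.mul (M 0 (j + 1))) (fun i => g (i + 1))
      rw [uf_rank n (fun j => M 0 (j + 1))] at this
      exact this
    rw [e1] at h3
    rw [uf]
    generalize (∑ j ∈ Finset.range n, (M 0 (j + 1)).toC * g (j + 1)) = z at h3 ⊢
    generalize uf n (fun i j => M (i + 1) (j + 1)) (fun i => g (i + 1)) = u at h3 ⊢
    generalize ((M 0 0).re : ℝ) = a at h3 h1' ⊢
    have h4 : 0 ≤ ‖(a : ℂ) * g 0 + z‖ ^ 2 := by positivity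
    have h5 : ‖(a : ℂ) * g 0 + z‖ ^ 2 = a ^ 2 * ‖g 0‖ ^ 2 + 2 * a * (conj (g 0) * z).re
        + ‖z‖ ^ 2 := by
      rw [← Complex.normSq_eq_norm_sq, ← Complex.normSq_eq_norm_sq, ← Complex.normSq_eq_norm_sq,
        Complex.normSq_apply, Complex.normSq_apply, Complex.normSq_apply, Complex.add_re,
        Complex.add_im, Complex.re_ofReal_mul, Complex.im_ofReal_mul, Complex.mul_re,
        Complex.conj_re, Complex.conj_im]
      ring
    have h6 : 0 ≤ a * (a * ‖g 0‖ ^ 2 + 2 * (conj (g 0) * z).re + u) := by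
      rw [h5] at h4
      linarith
    exact nonneg_of_mul_nonneg_right h6 h1'

/-- the Hermitian part -/
def hrm (Q : ℕ → ℕ → GQ) (i j : ℕ) : GQ := ((Q i j).add (Q j i).cj).sc (1 / 2)

theorem hrm_eq (K : ℕ) : ∀ (Q : ℕ → ℕ → GQ) (g : ℕ → ℂ),
    hF K (fun r t => (Q r t).toC) g = uf K (hrm Q) g := by
  induction K with
  | zero => intro Q g; simp [hF, uf]
  | succ K ih =>
    intro Q g
    rw [uf]
    have h0 : uf K (fun i j => hrm Q (i + 1) (j + 1)) (fun i => g (i + 1))
        = hF K (fun r t => (Q (r + 1) (t + 1)).toC) (fun i => g (i + 1)) :=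
      (ih (fun r t => Q (r + 1) (t + 1)) (fun i => g (i + 1))).symm
    rw [h0, hF, hF, Finset.sum_range_succ']
    simp only [Finset.sum_range_succ', Finset.sum_add_distrib]
    have h1 : (∑ j ∈ Finset.range K, (hrm Q 0 (j + 1)).toC * g (j + 1))
        = (∑ j ∈ Finset.range K, (1 / 2 : ℂ) * ((Q 0 (j + 1)).toC * g (j + 1)))
          + ∑ j ∈ Finset.range K, (1 / 2 : ℂ) * (conj (Q (j + 1) 0).toC * g (j + 1)) := by
      rw [← Finset.sum_add_distrib]
      refine Finset.sum_congr rfl (fun j _ => ?_)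
      rw [hrm, GQ.toC_sc, GQ.toC_add, GQ.toC_cj]
      push_cast
      ring
    rw [h1, mul_add, Complex.add_re, ← Finset.mul_sum, ← Finset.mul_sum]
    have h2 : ((hrm Q 0 0).re : ℝ) = ((Q 0 0).re : ℝ) := by
      simp only [hrm, GQ.sc, GQ.add, GQ.cj]
      push_cast
      ring
    have h3 : ((Q 0 0).toC * (g 0 * conj (g 0))).re = ((Q 0 0).re : ℝ) * ‖g 0‖ ^ 2 := by
      rw [Complex.mul_conj, Complex.re_mul_ofReal, GQ.toC_re, Complex.normSq_eq_norm_sq]
    have h4 : 2 * (conj (g 0) * (1 / 2 * ∑ j ∈ Finset.range K, (Q 0 (j + 1)).toC * g (j + 1))).re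
        = ∑ j ∈ Finset.range K, ((Q 0 (j + 1)).toC * (g (j + 1) * conj (g 0))).re := by
      rw [← Complex.re_sum, ← Complex.re_ofReal_mul]
      congr 1
      rw [Finset.mul_sum, Finset.mul_sum, Finset.mul_sum]
      refine Finset.sum_congr rfl (fun j _ => ?_)
      push_cast
      ring
    have h5 : 2 * (conj (g 0) * (1 / 2 * ∑ j ∈ Finset.range K,
          conj (Q (j + 1) 0).toC * g (j + 1))).re
        = ∑ j ∈ Finset.range K, ((Q (j + 1) 0).toC * (g 0 * conj (g (j + 1)))).re := by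
      rw [← Complex.re_sum, ← Complex.re_ofReal_mul, ← Complex.conj_re]
      congr 1
      simp only [map_mul, map_sum, Finset.mul_sum, Complex.conj_conj, Complex.conj_ofReal,
        map_div₀, map_one, map_ofNat]
      refine Finset.sum_congr rfl (fun j _ => ?_)
      push_cast
      ring
    rw [h2, mul_add 2, h4, h5, h3]
    ring

theorem psdK_sound (K : ℕ) (Q : ℕ → ℕ → GQ) (h : psdU K (hrm Q) = true) (g : ℕ → ℂ) :
    0 ≤ hF K (fun r t => (Q r t).toC) g := by
  rw [hrm_eq]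
  exact psdU_sound K _ h g

end Pool.Agent.Helper65.HR2
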