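import Pool.Agent.Helper65.HR2.GQ
import Pool.Agent.Helper24.HR2.NumB

/-!
MP_16b0ee, project HR2: sharp enclosure of the series `SS s b 0 1` by inverse factorial series.
-/

set_option autoImplicit false

open Filter Topology

namespace Pool.Agent.Helper65.HR2

open Pool.Agent.Helper24.HR2

theorem gmS_succ (s : ℂ) (b : ℝ) (n : ℕ) :
    Gm s b (n + 1) = Gm s b n * ((2 * s.re + 2 + n) / (b + 3 + n)) := by
  rw [Gm, Finset.prod_range_succ, ← Gm]

theorem gmS_pos {s : ℂ} (hs : -1 < s.re) {b : ℝ} (hb : 0 < b) (n : ℕ) : 0 < Gm s b n := by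
  rw [Gm]
  refine Finset.prod_pos (fun k _ => ?_)
  have : (0 : ℝ) ≤ k := Nat.cast_nonneg k
  apply div_pos <;> linarith

theorem gmS_le_one {s : ℂ} (hs : -1 < s.re) {b : ℝ} (hb : 0 < b) (hσ : 0 < b + 1 - 2 * s.re)
    (n : ℕ) : Gm s b n ≤ 1 := by
  rw [Gm]
  refine Finset.prod_le_one (fun k _ => ?_) (fun k _ => ?_)
  · have : (0 : ℝ) ≤ k := Nat.cast_nonneg k
    apply div_nonneg <;> linarith
  · have : (0 : ℝ) ≤ k := Nat.cast_nonneg k
    rw [div_le_one (by linarith)]
    linarith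

/-- the products in the denominators -/
noncomputable def PP (b : ℝ) (m k : ℕ) : ℝ := ∏ l ∈ Finset.range m, (b + 3 + l + k)

theorem PP_pos {b : ℝ} (hb : 0 < b) (m k : ℕ) : 0 < PP b m k := by
  rw [PP]
  exact Finset.prod_pos (fun l _ => by positivity)

theorem PP_succ (b : ℝ) (m k : ℕ) : PP b (m + 1) k = PP b m k * (b + 3 + m + k) := by
  rw [PP, Finset.prod_range_succ, ← PP]

theorem PP_ge_one {b : ℝ} (hb : 0 < b) (m k : ℕ) : 1 ≤ PP b m k := by
  induction m with
  | zero => simp [PP]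
  | succ m ih =>
    rw [PP_succ]
    have h1 : (0 : ℝ) ≤ m := Nat.cast_nonneg m
    have h2 : (0 : ℝ) ≤ k := Nat.cast_nonneg k
    nlinarith

theorem PP_ge {b : ℝ} (hb : 0 < b) (m k : ℕ) : (k : ℝ) + 1 ≤ PP b (m + 1) k := by
  rw [PP_succ]
  have h0 := PP_ge_one hb m k
  have h1 : (0 : ℝ) ≤ m := Nat.cast_nonneg m
  have h2 : (0 : ℝ) ≤ k := Nat.cast_nonneg k
  nlinarith

theorem PP_shift {b : ℝ} (m k : ℕ) :
    PP b m (k + 1) * (b + 3 + k) = PP b m k * (b + 3 + m + k) := by
  rw [← PP_succ, PP, PP, Finset.prod_range_succ']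
  congr 1
  · refine Finset.prod_congr rfl (fun l _ => ?_)
    push_cast
    ring
  · push_cast
    ring

theorem tele {s : ℂ} {b : ℝ} (hb : 0 < b) (m k : ℕ) :
    Gm s b k / PP b m k - Gm s b (k + 1) / PP b m (k + 1)
      = (b + 1 + m - 2 * s.re) * (Gm s b k / PP b (m + 1) k) := by
  have h1 := PP_pos hb m k
  have h2 := PP_pos hb m (k + 1)
  have h3 : (0 : ℝ) < b + 3 + k := by positivity
  have h4 : (0 : ℝ) < b + 3 + m + k := by positivity
  have h5 : PP b m (k + 1) = PP b m k * (b + 3 + m + k) / (b + 3 + k) := by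
    rw [eq_div_iff h3.ne', PP_shift]
  rw [gmS_succ, h5, PP_succ]
  field_simp
  ring

theorem V_hasSum {s : ℂ} (hs : -1 < s.re) {b : ℝ} (hb : 0 < b) (hσ : 0 < b + 1 - 2 * s.re)
    (J m : ℕ) : HasSum (fun i : ℕ => Gm s b (J + i) / PP b (m + 1) (J + i))
      (Gm s b J / PP b m J / (b + 1 + m - 2 * s.re)) := by
  have hc : (0 : ℝ) < b + 1 + m - 2 * s.re := by
    have : (0 : ℝ) ≤ m := Nat.cast_nonneg m
    linarith
  rcases m with _ | m
  · have h1 := SS_diag hs hb hσ J
    have h2 := SS_summable hs hb hσ J (J + 2)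
    have h3 := h2.hasSum
    rw [SS] at h1
    rw [h1] at h3
    have e1 : (fun i : ℕ => Gm s b (J + i) / (b + 1 + (i : ℝ) + ((J + 2 : ℕ) : ℝ)))
        = fun i : ℕ => Gm s b (J + i) / PP b (0 + 1) (J + i) := by
      funext i
      rw [PP, Finset.prod_range_one]
      congr 1
      push_cast
      ring
    rw [e1] at h3
    have e2 : Gm s b J / PP b 0 J / (b + 1 + ((0 : ℕ) : ℝ) - 2 * s.re)
        = Gm s b J / (b + 1 - 2 * s.re) := by
      rw [PP]
      simp
    rw [e2]
    exact h3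
  · rw [hasSum_iff_tendsto_nat_of_nonneg
      (fun i => (div_pos (gmS_pos hs hb _) (PP_pos hb _ _)).le)]
    have e1 : ∀ n : ℕ, ∑ i ∈ Finset.range n, Gm s b (J + i) / PP b (m + 1 + 1) (J + i)
        = (Gm s b J / PP b (m + 1) J - Gm s b (J + n) / PP b (m + 1) (J + n))
          / (b + 1 + ((m + 1 : ℕ) : ℝ) - 2 * s.re) := by
      intro n
      rw [eq_div_iff hc.ne', Finset.sum_mul]
      have := Finset.sum_range_sub' (fun i => Gm s b (J + i) / PP b (m + 1) (J + i)) n
      simp only [add_zero] at this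
      rw [← this]
      refine Finset.sum_congr rfl (fun i _ => ?_)
      rw [show J + (i + 1) = J + i + 1 from rfl, tele hb]
      ring
    simp only [e1]
    have lim : Tendsto (fun n : ℕ => Gm s b (J + n) / PP b (m + 1) (J + n)) atTop (𝓝 0) := by
      have hu : Tendsto (fun n : ℕ => 1 / ((n : ℝ) + 1)) atTop (𝓝 0) :=
        tendsto_one_div_add_atTop_nhds_zero_nat
      refine squeeze_zero (fun n => (div_pos (gmS_pos hs hb _) (PP_pos hb _ _)).le) (fun n => ?_) hu
      have h1 := gmS_le_one hs hb hσ (J + n)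
      have h2 : (n : ℝ) + 1 ≤ PP b (m + 1) (J + n) := by
        refine le_trans ?_ (PP_ge hb m (J + n))
        push_cast
        linarith [(Nat.cast_nonneg J : (0 : ℝ) ≤ J)]
      exact div_le_div₀ zero_le_one h1 (by positivity) h2
    have h6 := ((tendsto_const_nhds (x := Gm s b J / PP b (m + 1) J)).sub lim).div_const
      (b + 1 + ((m + 1 : ℕ) : ℝ) - 2 * s.re)
    rw [sub_zero] at h6
    exact h6

/-- the expansion of `1 / x` in an inverse factorial series -/
theorem inv_expand {b : ℝ} (hb : 0 < b) (k M : ℕ) :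
    1 / (b + 2 + k) = (∑ m ∈ Finset.range M, (Nat.factorial m : ℝ) / PP b (m + 1) k)
      + (Nat.factorial M : ℝ) / ((b + 2 + k) * PP b M k) := by
  have hx : (0 : ℝ) < b + 2 + k := by positivity
  induction M with
  | zero => simp [PP]
  | succ M ih =>
    rw [Finset.sum_range_succ]
    rw [ih]
    have h1 := PP_pos hb M k
    have h2 : (0 : ℝ) < b + 3 + M + k := by positivity
    rw [Nat.factorial_succ, PP_succ]
    push_cast
    field_simp
    ring

/-- enclosure of the tail -/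
theorem tail_bounds {s : ℂ} (hs : -1 < s.re) {b : ℝ} (hb : 0 < b) (hσ : 0 < b + 1 - 2 * s.re)
    (J M : ℕ) :
    (∑ m ∈ Finset.range (M + 1), (Nat.factorial m : ℝ)
        * (Gm s b J / PP b m J / (b + 1 + m - 2 * s.re))) ≤ SS s b J (J + 1) ∧
    SS s b J (J + 1) ≤ (∑ m ∈ Finset.range M, (Nat.factorial m : ℝ)
        * (Gm s b J / PP b m J / (b + 1 + m - 2 * s.re)))
      + (Nat.factorial M : ℝ) * (Gm s b J / PP b M J / (b + 1 + M - 2 * s.re))
        * ((b + 3 + M + J) / (b + 2 + J)) := by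
  have hS := (SS_summable hs hb hσ J (J + 1)).hasSum
  have hV : ∀ m, HasSum (fun i : ℕ => (Nat.factorial m : ℝ)
      * (Gm s b (J + i) / PP b (m + 1) (J + i)))
      ((Nat.factorial m : ℝ) * (Gm s b J / PP b m J / (b + 1 + m - 2 * s.re))) :=
    fun m => (V_hasSum hs hb hσ J m).mul_left _
  have hsum : ∀ K, HasSum (fun i : ℕ => ∑ m ∈ Finset.range K, (Nat.factorial m : ℝ)
      * (Gm s b (J + i) / PP b (m + 1) (J + i)))
      (∑ m ∈ Finset.range K, (Nat.factorial m : ℝ)
        * (Gm s b J / PP b m J / (b + 1 + m - 2 * s.re))) :=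
    fun K => hasSum_sum (fun m _ => hV m)
  have hterm : ∀ i : ℕ, Gm s b (J + i) / (b + 1 + (i : ℝ) + ((J + 1 : ℕ) : ℝ))
      = (∑ m ∈ Finset.range M, (Nat.factorial m : ℝ) * (Gm s b (J + i) / PP b (m + 1) (J + i)))
        + Gm s b (J + i) * ((Nat.factorial M : ℝ)
          / ((b + 2 + ((J + i : ℕ) : ℝ)) * PP b M (J + i))) := by
    intro i
    have h1 := inv_expand hb (J + i) M
    have h2 : b + 1 + (i : ℝ) + ((J + 1 : ℕ) : ℝ) = b + 2 + ((J + i : ℕ) : ℝ) := by
      push_cast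
      ring
    rw [h2, div_eq_mul_one_div, h1, mul_add, Finset.mul_sum]
    congr 1
    refine Finset.sum_congr rfl (fun m _ => ?_)
    ring
  have hR1 : ∀ i : ℕ, (Nat.factorial M : ℝ) * (Gm s b (J + i) / PP b (M + 1) (J + i))
      ≤ Gm s b (J + i) * ((Nat.factorial M : ℝ)
          / ((b + 2 + ((J + i : ℕ) : ℝ)) * PP b M (J + i))) := by
    intro i
    have h1 := PP_pos hb M (J + i)
    have h2 : (0 : ℝ) < b + 2 + ((J + i : ℕ) : ℝ) := by positivity
    have h3 : (0 : ℝ) < b + 3 + M + ((J + i : ℕ) : ℝ) := by positivity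
    have h4 := gmS_pos hs hb (J + i)
    have h5 : (0 : ℝ) < (Nat.factorial M : ℝ) := by positivity
    rw [PP_succ]
    rw [show (Nat.factorial M : ℝ) * (Gm s b (J + i) / (PP b M (J + i)
        * (b + 3 + M + ((J + i : ℕ) : ℝ)))) = Gm s b (J + i) * (Nat.factorial M : ℝ)
        / PP b M (J + i) * (1 / (b + 3 + M + ((J + i : ℕ) : ℝ))) from by field_simp,
      show Gm s b (J + i) * ((Nat.factorial M : ℝ)
          / ((b + 2 + ((J + i : ℕ) : ℝ)) * PP b M (J + i))) = Gm s b (J + i)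
        * (Nat.factorial M : ℝ) / PP b M (J + i) * (1 / (b + 2 + ((J + i : ℕ) : ℝ)))
        from by field_simp]
    refine mul_le_mul_of_nonneg_left ?_ (by positivity)
    refine one_div_le_one_div_of_le h2 ?_
    linarith [(Nat.cast_nonneg M : (0 : ℝ) ≤ M)]
  have hR2 : ∀ i : ℕ, Gm s b (J + i) * ((Nat.factorial M : ℝ)
          / ((b + 2 + ((J + i : ℕ) : ℝ)) * PP b M (J + i)))
      ≤ (Nat.factorial M : ℝ) * (Gm s b (J + i) / PP b (M + 1) (J + i))
        * ((b + 3 + M + J) / (b + 2 + J)) := by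
    intro i
    have h1 := PP_pos hb M (J + i)
    have h2 : (0 : ℝ) < b + 2 + ((J + i : ℕ) : ℝ) := by positivity
    have h3 : (0 : ℝ) < b + 3 + M + ((J + i : ℕ) : ℝ) := by positivity
    have h4 := gmS_pos hs hb (J + i)
    have h5 : (0 : ℝ) < (Nat.factorial M : ℝ) := by positivity
    have h6 : (0 : ℝ) < b + 2 + J := by positivity
    rw [PP_succ]
    rw [show (Nat.factorial M : ℝ) * (Gm s b (J + i) / (PP b M (J + i)
        * (b + 3 + M + ((J + i : ℕ) : ℝ)))) * ((b + 3 + M + J) / (b + 2 + J))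
        = Gm s b (J + i) * (Nat.factorial M : ℝ)
        / PP b M (J + i) * ((b + 3 + M + J) / ((b + 3 + M + ((J + i : ℕ) : ℝ)) * (b + 2 + J)))
        from by field_simp,
      show Gm s b (J + i) * ((Nat.factorial M : ℝ)
          / ((b + 2 + ((J + i : ℕ) : ℝ)) * PP b M (J + i))) = Gm s b (J + i)
        * (Nat.factorial M : ℝ) / PP b M (J + i) * (1 / (b + 2 + ((J + i : ℕ) : ℝ)))
        from by field_simp]
    refine mul_le_mul_of_nonneg_left ?_ (by positivity)
    rw [div_le_div_iff₀ h2 (by positivity)]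
    push_cast
    nlinarith [mul_nonneg (Nat.cast_nonneg M : (0 : ℝ) ≤ M) (Nat.cast_nonneg i : (0 : ℝ) ≤ i),
      (Nat.cast_nonneg i : (0 : ℝ) ≤ i)]
  constructor
  · refine hasSum_le (fun i => ?_) (hsum (M + 1)) hS
    rw [hterm i, Finset.sum_range_succ]
    have := hR1 i
    linarith
  · have h7 := (hsum M).add ((hV M).mul_right ((b + 3 + M + J) / (b + 2 + J)))
    refine hasSum_le (fun i => ?_) hS h7
    rw [hterm i]
    have := hR2 i
    linarith

theorem SS_split {s : ℂ} (hs : -1 < s.re) {b : ℝ} (hb : 0 < b) (hσ : 0 < b + 1 - 2 * s.re)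
    (J : ℕ) : SS s b 0 1 = (∑ i ∈ Finset.range J, Gm s b i / (b + 2 + i)) + SS s b J (J + 1) := by
  induction J with
  | zero => simp
  | succ J ih =>
    rw [ih, Finset.sum_range_succ, SS_shift hs hb hσ J (J + 1)]
    have : b + 1 + ((J + 1 : ℕ) : ℝ) = b + 2 + J := by
      push_cast
      ring
    rw [this]
    ring

end Pool.Agent.Helper65.HR2
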