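import Pool.Agent.Helper65.HR2.S0
import Pool.Agent.Helper24.HR2.NumC

/-!
MP_16b0ee, project HR2: the moments and the series in exact rational arithmetic; all series are
affine in `SS s b 0 1`.
-/

set_option autoImplicit false

open scoped ComplexConjugate

namespace Pool.Agent.Helper65.HR2

open Pool.Agent.Helper24.HR2

/-- the moments -/
def gmQ (r b : ℚ) : ℕ → ℚ
  | 0 => 1
  | n + 1 => gmQ r b n * ((2 * r + 2 + n) / (b + 3 + n))

theorem gmQ_eq {s : ℂ} {r b : ℚ} (hr : s.re = r) (n : ℕ) : ((gmQ r b n : ℚ) : ℝ) = Gm s b n := by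
  induction n with
  | zero => simp [gmQ, Gm]
  | succ n ih =>
    rw [gmQ, Gm, Finset.prod_range_succ, ← Gm, ← ih, hr]
    push_cast
    ring

/-- affine functions of the series `SS s b 0 1` -/
def av (S : ℝ) (x : ℚ × ℚ) : ℝ := (x.1 : ℝ) + (x.2 : ℝ) * S

/-- the first row -/
def ss0 (r b : ℚ) : ℕ → ℚ × ℚ
  | 0 => (1 / (b + 1) + 1, 2 * r - b)
  | 1 => (0, 1)
  | j + 2 => ((-j * ((ss0 r b (j + 1)).1 - 1 / (b + 2 + j)) - 1) / (2 * r - b - j - 1),
      -j * (ss0 r b (j + 1)).2 / (2 * r - b - j - 1))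

/-- all rows -/
def ssQ (r b : ℚ) : ℕ → ℕ → ℚ × ℚ
  | 0, j => ss0 r b j
  | n + 1, 0 => ((gmQ r b n + (2 * r + 1 + n - b) * (ssQ r b n 0).1) / (n + 2),
      (2 * r + 1 + n - b) * (ssQ r b n 0).2 / (n + 2))
  | n + 1, j + 1 => ((ssQ r b n j).1 - gmQ r b n / (b + 1 + j), (ssQ r b n j).2)

theorem ss0_eq {s : ℂ} {r b : ℚ} (hr : s.re = r) (hs : -1 < s.re) (hb : 0 < (b : ℝ))
    (hσ : 0 < (b : ℝ) + 1 - 2 * s.re) (j : ℕ) : SS s b 0 j = av (SS s b 0 1) (ss0 r b j) := by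
  have hG : Gm s b 0 = 1 := by simp [Gm]
  induction j with
  | zero =>
    have h1 := SS_rec hs hb hσ 0 1
    have h2 := SS_shift hs hb hσ 0 0
    rw [hG] at h1 h2
    simp only [Nat.cast_zero, Nat.cast_one, zero_add, add_zero] at h1 h2
    rw [h2, hr] at h1
    simp only [av, ss0]
    push_cast
    linarith
  | succ j ih =>
    rcases j with _ | j
    · simp [av, ss0]
    · have h1 := SS_rec hs hb hσ 0 (j + 2)
      have h2 := SS_shift hs hb hσ 0 (j + 1)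
      rw [hG] at h1 h2
      rw [show j + 1 + 1 = j + 2 from rfl] at h2 ⊢
      simp only [zero_add] at h1 h2
      rw [h2, ih, hr] at h1
      have hne : (2 * (r : ℝ) - b - j - 1) ≠ 0 := by
        have : (0 : ℝ) ≤ j := Nat.cast_nonneg j
        rw [hr] at hσ
        intro h0
        linarith
      simp only [av, ss0] at h1 ⊢
      push_cast at h1 ⊢
      have hb2 : (b : ℝ) + 2 + j ≠ 0 := by positivity
      have hb3 : (b : ℝ) + 1 + (j + 1) ≠ 0 := by positivity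
      field_simp
      field_simp at h1
      linarith

theorem ssQ_eq {s : ℂ} {r b : ℚ} (hr : s.re = r) (hs : -1 < s.re) (hb : 0 < (b : ℝ))
    (hσ : 0 < (b : ℝ) + 1 - 2 * s.re) (n : ℕ) :
    ∀ j : ℕ, SS s b n j = av (SS s b 0 1) (ssQ r b n j) := by
  induction n with
  | zero =>
    intro j
    rw [show ssQ r b 0 j = ss0 r b j from by simp [ssQ]]
    exact ss0_eq hr hs hb hσ j
  | succ n ih =>
    intro j
    rcases j with _ | j
    · have h1 := SS_rec hs hb hσ n 0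
      rw [ih 0, ← gmQ_eq hr n, hr] at h1
      have hn : ((n : ℝ) + 2) ≠ 0 := by positivity
      simp only [av, ssQ] at h1 ⊢
      push_cast at h1 ⊢
      field_simp
      rw [sub_zero] at h1
      linarith
    · have h2 := SS_shift hs hb hσ n j
      rw [ih j, ← gmQ_eq hr n] at h2
      rw [h2]
      simp only [av, ssQ]
      push_cast
      ring

/-- weights -/
def wQ (b : ℚ) (k : ℕ) : ℚ := 1 / ((b + k) * (b + k + 1))

/-- the coefficients of the kernel times the moments -/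
def pgQ (r b : ℚ) (D : ℕ) (p : ℕ → ℕ → ℚ) (n l : ℕ) : ℚ :=
  sm (fun n' => p n' l * gmQ r b (n + n')) D

/-- the mixed moments of the remainder -/
def xQ (r b : ℚ) (D : ℕ) (p : ℕ → ℕ → ℚ) (l n : ℕ) : ℚ × ℚ :=
  ((ssQ r b n l).1 - (ssQ r b n (l + 1)).1 - sm (fun l' => pgQ r b D p n l' * wQ b (l + l' + 1)) D,
    (ssQ r b n l).2 - (ssQ r b n (l + 1)).2)

theorem pgQ_eq {s : ℂ} {r b : ℚ} (hr : s.re = r) (D : ℕ) (p : ℕ → ℕ → ℚ) (n l : ℕ) :
    ((pgQ r b D p n l : ℚ) : ℝ) = ∑ n' ∈ Finset.range D, (p n' l : ℝ) * Gm s b (n + n') := by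
  rw [pgQ, sm_eq]
  refine Finset.sum_congr rfl (fun n' _ => ?_)
  rw [Rat.cast_mul, gmQ_eq hr]

theorem xQ_eq {s : ℂ} {r b : ℚ} (hr : s.re = r) (hs : -1 < s.re) (hb : 0 < (b : ℝ))
    (hσ : 0 < (b : ℝ) + 1 - 2 * s.re) (D : ℕ) (p : ℕ → ℕ → ℚ) (l n : ℕ) :
    xln s b D (fun n l => (p n l : ℝ)) l n = av (SS s b 0 1) (xQ r b D p l n) := by
  rw [xln_eq hs hb hσ, ssQ_eq hr hs hb hσ n l, ssQ_eq hr hs hb hσ n (l + 1)]
  simp only [av, xQ]
  push_cast
  rw [sm_eq, Finset.sum_comm]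
  have : ∑ l' ∈ Finset.range D, ∑ n' ∈ Finset.range D, (p n' l' : ℝ) * Gm s b (n + n')
        / ((b + l + l' + 1) * (b + l + l' + 2))
      = ∑ l' ∈ Finset.range D, ((pgQ r b D p n l' * wQ b (l + l' + 1) : ℚ) : ℝ) := by
    refine Finset.sum_congr rfl (fun l' _ => ?_)
    rw [Rat.cast_mul, pgQ_eq hr, Finset.sum_mul]
    refine Finset.sum_congr rfl (fun n' _ => ?_)
    rw [wQ]
    push_cast
    rw [mul_one_div]
    congr 1
    ring
  rw [this]
  ring

/-- the squared Hilbert-Schmidt norm of the remainder -/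
def hsQ (r b : ℚ) (D : ℕ) (p : ℕ → ℕ → ℚ) : ℚ × ℚ :=
  ((b + 2) * (ss0 r b 2).1
      - 2 * sm (fun n => sm (fun l => p n l * ((ssQ r b n (l + 1)).1 - (ssQ r b n (l + 2)).1)) D) D
      + sm (fun n => sm (fun l => p n l * sm (fun l' => pgQ r b D p n l' * wQ b (l + l' + 2)) D)
          D) D,
    -(b + 1) + (b + 2) * (ss0 r b 2).2
      - 2 * sm (fun n => sm (fun l => p n l * ((ssQ r b n (l + 1)).2 - (ssQ r b n (l + 2)).2)) D) D)

theorem hsQ_eq {s : ℂ} {r b : ℚ} (hr : s.re = r) (hs : -1 < s.re) (hb : 0 < (b : ℝ))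
    (hσ : 0 < (b : ℝ) + 1 - 2 * s.re) (D : ℕ) (p : ℕ → ℕ → ℚ) :
    HSn s b D (fun n l => (p n l : ℝ)) = av (SS s b 0 1) (hsQ r b D p) := by
  rw [HSn_eq hs hb hσ]
  have h1 : ∑ n ∈ Finset.range D, ∑ l ∈ Finset.range D,
      (p n l : ℝ) * (SS s b n (l + 1) - SS s b n (l + 2))
      = ((sm (fun n => sm (fun l => p n l * ((ssQ r b n (l + 1)).1 - (ssQ r b n (l + 2)).1)) D) D
          : ℚ) : ℝ) + ((sm (fun n => sm (fun l => p n l * ((ssQ r b n (l + 1)).2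
            - (ssQ r b n (l + 2)).2)) D) D : ℚ) : ℝ) * SS s b 0 1 := by
    rw [sm_eq, sm_eq, Finset.sum_mul, ← Finset.sum_add_distrib]
    refine Finset.sum_congr rfl (fun n _ => ?_)
    rw [sm_eq, sm_eq, Finset.sum_mul, ← Finset.sum_add_distrib]
    refine Finset.sum_congr rfl (fun l _ => ?_)
    rw [ssQ_eq hr hs hb hσ n (l + 1), ssQ_eq hr hs hb hσ n (l + 2), av, av]
    push_cast
    ring
  have h2 : ∑ n ∈ Finset.range D, ∑ l ∈ Finset.range D, ∑ n' ∈ Finset.range D,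
      ∑ l' ∈ Finset.range D, (p n l : ℝ) * (p n' l' : ℝ) * Gm s b (n + n')
        / ((b + l + l' + 2) * (b + l + l' + 3))
      = ((sm (fun n => sm (fun l => p n l * sm (fun l' => pgQ r b D p n l' * wQ b (l + l' + 2)) D)
          D) D : ℚ) : ℝ) := by
    rw [sm_eq]
    refine Finset.sum_congr rfl (fun n _ => ?_)
    rw [sm_eq]
    refine Finset.sum_congr rfl (fun l _ => ?_)
    rw [Rat.cast_mul, sm_eq, Finset.mul_sum, Finset.sum_comm]
    refine Finset.sum_congr rfl (fun l' _ => ?_)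
    rw [Rat.cast_mul, pgQ_eq hr, Finset.sum_mul, Finset.mul_sum]
    refine Finset.sum_congr rfl (fun n' _ => ?_)
    rw [wQ]
    push_cast
    rw [mul_one_div, ← mul_div_assoc, mul_assoc]
    congr 1
    ring
  rw [h1, h2, ss0_eq hr hs hb hσ 2]
  simp only [av, hsQ]
  push_cast
  ring

/-- initial sum of the series -/
def s0Q (r b : ℚ) (J : ℕ) : ℚ := sm (fun i => gmQ r b i / (b + 2 + i)) J

/-- coefficients of the inverse factorial series -/
def cmQ (b : ℚ) (J : ℕ) : ℕ → ℚ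
  | 0 => 1
  | m + 1 => cmQ b J m * ((m + 1) / (b + 3 + m + J))

theorem cmQ_eq {b : ℚ} (hb : 0 < (b : ℝ)) (J m : ℕ) :
    ((cmQ b J m : ℚ) : ℝ) = (Nat.factorial m : ℝ) / PP b m J := by
  induction m with
  | zero => simp [cmQ, PP]
  | succ m ih =>
    rw [cmQ, Rat.cast_mul, ih, Nat.factorial_succ, PP_succ]
    have h1 := PP_pos hb m J
    have h2 : (0 : ℝ) < (b : ℝ) + 3 + m + J := by positivity
    push_cast
    field_simp

/-- sums of the inverse factorial series -/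
def ifQ (r b : ℚ) (J M : ℕ) : ℚ := sm (fun m => cmQ b J m / (b + 1 + m - 2 * r)) M

/-- check of the enclosure of the series -/
def s0C (r b : ℚ) (J M : ℕ) (lo hi : ℚ) : Bool :=
  decide (lo ≤ s0Q r b J + gmQ r b J * ifQ r b J (M + 1)) &&
    decide (s0Q r b J + gmQ r b J * (ifQ r b J M + cmQ b J M / (b + 1 + M - 2 * r)
      * ((b + 3 + M + J) / (b + 2 + J))) ≤ hi)

theorem s0C_sound {s : ℂ} {r b : ℚ} (hr : s.re = r) (hs : -1 < s.re) (hb : 0 < (b : ℝ))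
    (hσ : 0 < (b : ℝ) + 1 - 2 * s.re) {J M : ℕ} {lo hi : ℚ} (h : s0C r b J M lo hi = true) :
    (lo : ℝ) ≤ SS s b 0 1 ∧ SS s b 0 1 ≤ (hi : ℝ) := by
  rw [s0C, Bool.and_eq_true, decide_eq_true_eq, decide_eq_true_eq] at h
  obtain ⟨h1, h2⟩ := h
  have h1' := (Rat.cast_le (K := ℝ)).2 h1
  have h2' := (Rat.cast_le (K := ℝ)).2 h2
  obtain ⟨h3, h4⟩ := tail_bounds hs hb hσ J M
  have h5 : ((s0Q r b J : ℚ) : ℝ) = ∑ i ∈ Finset.range J, Gm s b i / (b + 2 + i) := by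
    rw [s0Q, sm_eq]
    refine Finset.sum_congr rfl (fun i _ => ?_)
    push_cast
    rw [gmQ_eq hr]
  have h6 : ∀ m : ℕ, (Nat.factorial m : ℝ) * (Gm s b J / PP b m J / (b + 1 + m - 2 * s.re))
      = ((gmQ r b J : ℚ) : ℝ) * ((cmQ b J m / (b + 1 + m - 2 * r) : ℚ) : ℝ) := by
    intro m
    rw [gmQ_eq hr, Rat.cast_div, cmQ_eq hb, hr]
    push_cast
    ring
  have h7 : ∀ K : ℕ, ∑ m ∈ Finset.range K, (Nat.factorial m : ℝ)
      * (Gm s b J / PP b m J / (b + 1 + m - 2 * s.re))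
      = ((gmQ r b J : ℚ) : ℝ) * ((ifQ r b J K : ℚ) : ℝ) := by
    intro K
    rw [ifQ, sm_eq, Finset.mul_sum]
    exact Finset.sum_congr rfl (fun m _ => h6 m)
  rw [h7] at h3 h4
  rw [h6] at h4
  have h8 := SS_split hs hb hσ J
  rw [← h5] at h8
  push_cast at h1' h2' h4
  rw [h8]
  constructor
  · linarith
  · refine le_trans ?_ h2'
    rw [mul_add]
    linarith

end Pool.Agent.Helper65.HR2
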